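import Pool.Agent.Helper27.FK.Comb

/-!
# Case II of the theorem on cosecant systems: `D < a (a + 1)`
-/

open Finset Real
open Pool.Agent.Helper27.FK

namespace Pool.Agent.Helper7.FR

variable {D : ℕ} {I : Finset ℕ} {a j : ℕ}

/-- the elements of `I` which are at least `a`. -/
lemma split_I (hd : Dev I a j) : I = chain j ∪ I.filter (fun b => a ≤ b) := by
  rw [← hd.below]
  ext b
  simp only [mem_union, mem_filter]
  constructor
  · intro hb
    rcases Nat.lt_or_ge b a with h1 | h1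
    · exact Or.inl ⟨hb, h1⟩
    · exact Or.inr ⟨hb, h1⟩
  · rintro (h1 | h1)
    · exact h1.1
    · exact h1.1

lemma split_disj (hd : Dev I a j) : Disjoint (chain j) (I.filter (fun b => a ≤ b)) := by
  rw [← hd.below, Finset.disjoint_filter]
  intro b _ h1 h2
  omega

/-- the sum of the reciprocals. -/
lemma sum_inv_le (h : Sys D I) (hd : Dev I a j) (hbig : D < a * (a + 1)) :
    ∑ b ∈ I.erase 1, (1:ℝ) / b ≤ 1 + (1 + 1 / a) := by
  have ha0 := h.pos a hd.mem
  have ha' : (0:ℝ) < a := by exact_mod_cast ha0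
  have h1I : 1 ∈ chain j := mem_chain.2 ⟨0, Nat.zero_le _, by simp⟩
  have ha3 := hd.three_le
  have e : I.erase 1 = (chain j).erase 1 ∪ I.filter (fun b => a ≤ b) := by
    ext b
    have := Finset.ext_iff.1 (split_I hd) b
    simp only [mem_erase, mem_union, mem_filter] at this ⊢
    constructor
    · rintro ⟨h1, h2⟩
      rcases this.1 h2 with h4 | h4
      · exact Or.inl ⟨h1, h4⟩
      · exact Or.inr h4
    · rintro (⟨h1, h2⟩ | h2)
      · exact ⟨h1, this.2 (Or.inl h2)⟩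
      · exact ⟨by omega, h2.1⟩
  have hdisj : Disjoint ((chain j).erase 1) (I.filter (fun b => a ≤ b)) :=
    (split_disj hd).mono_left (Finset.erase_subset _ _)
  rw [e, Finset.sum_union hdisj]
  apply add_le_add
  · have g1 : ∑ b ∈ (chain j).erase 1, (1:ℝ) / b + 1 = ∑ b ∈ chain j, (1:ℝ) / b := by
      have := Finset.sum_erase_add (chain j) (fun b : ℕ => (1:ℝ) / b) h1I
      simpa using this
    have g2 : ∑ b ∈ chain j, (1:ℝ) / b ≤ 2 := by
      rw [sum_chain]
      have g3 : ∀ i ∈ range (j + 1), (1:ℝ) / ((2 ^ i : ℕ) : ℝ) = (1 / 2) ^ i := by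
        intro i _
        push_cast
        rw [one_div_pow]
      rw [Finset.sum_congr rfl g3]
      exact sum_geometric_two_le (j + 1)
    linarith
  · have g1 : ∀ b ∈ I.filter (fun b => a ≤ b), (1:ℝ) / b ≤ (b:ℝ) / a ^ 2 := by
      intro b hb
      rw [mem_filter] at hb
      have hb' : (a:ℝ) ≤ b := by exact_mod_cast hb.2
      rw [div_le_div_iff₀ (by linarith) (by positivity)]
      nlinarith
    have g2 : ∑ b ∈ I.filter (fun b => a ≤ b), (b:ℝ) ≤ D := by
      have g3 : ∑ b ∈ I.filter (fun b => a ≤ b), b ≤ D :=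
        (Finset.sum_le_sum_of_subset (Finset.filter_subset _ _)).trans h.sum_le
      have g4 := (Nat.cast_le (α := ℝ)).2 g3
      push_cast at g4
      exact g4
    calc ∑ b ∈ I.filter (fun b => a ≤ b), (1:ℝ) / b
        ≤ ∑ b ∈ I.filter (fun b => a ≤ b), (b:ℝ) / a ^ 2 := Finset.sum_le_sum g1
      _ = (∑ b ∈ I.filter (fun b => a ≤ b), (b:ℝ)) / a ^ 2 := by rw [Finset.sum_div]
      _ ≤ (a * (a + 1) : ℝ) / a ^ 2 := by
          apply div_le_div_of_nonneg_right _ (by positivity)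
          have : (D:ℝ) < a * (a + 1) := by exact_mod_cast hbig
          linarith
      _ = 1 + 1 / a := by field_simp

/-- step (1): the elements `≥ a` divide `D ± 1`. -/
lemma good_of_ge (h : Sys D I) (h3 : 3 ≤ I.card) (hd : Dev I a j) (hbig : D < a * (a + 1))
    (ha14 : 14 ≤ a) {b₀ : ℕ} (hb₀ : b₀ ∈ I) (hab₀ : a ≤ b₀) :
    b₀ * xd D 1 b₀ = D + 1 ∨ b₀ * xd D 1 b₀ + 1 = D := by
  by_contra hcon
  push Not at hcon
  have h1I : 1 ∈ I := by simpa using hd.chain_subset (Nat.zero_le j)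
  have hb1 : b₀ ≠ 1 := by omega
  have hC := h.C 1 h1I
  have hbad := h.prof_one_bad h3 h1I hb₀ hb1 hcon.1 hcon.2
  have hD0 : 1 < D := by have := h.lt_of_mem h3 h1I; omega
  have hD' : (1:ℝ) < D := by exact_mod_cast hD0
  have hmem : b₀ ∈ I.erase 1 := mem_erase.2 ⟨hb1, hb₀⟩
  have g1 : ((D:ℝ) - 1) ≤ ∑ b ∈ I.erase 1, ((D:ℝ) - 1) * f D (xd D 1 b) := by
    rw [← Finset.mul_sum]
    have := mul_le_mul_of_nonneg_left hC (by linarith : (0:ℝ) ≤ (D:ℝ) - 1)
    linarith
  rw [← Finset.sum_erase_add _ _ hmem] at g1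
  have g2 : ∑ b ∈ (I.erase 1).erase b₀, ((D:ℝ) - 1) * f D (xd D 1 b) ≤
      ∑ b ∈ (I.erase 1).erase b₀, ((b:ℝ) + 2.2832 / b) := by
    refine Finset.sum_le_sum fun b hb => ?_
    rw [mem_erase, mem_erase] at hb
    exact h.prof_one_one h3 h1I hb.2.2 hb.2.1
  have g3 : ∑ b ∈ (I.erase 1).erase b₀, (b:ℝ) + b₀ + 1 ≤ D := by
    have g4 : ∑ b ∈ (I.erase 1).erase b₀, b + b₀ + 1 ≤ D := by
      rw [Finset.sum_erase_add _ _ hmem, Finset.sum_erase_add _ _ h1I]
      exact h.sum_le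
    have g5 := (Nat.cast_le (α := ℝ)).2 g4
    push_cast at g5
    exact g5
  have g5 : ∑ b ∈ (I.erase 1).erase b₀, (1:ℝ) / b ≤ ∑ b ∈ I.erase 1, (1:ℝ) / b :=
    Finset.sum_le_sum_of_subset_of_nonneg (Finset.erase_subset _ _) fun b _ _ => by positivity
  have g6 := sum_inv_le h hd hbig
  have g7 : ∑ b ∈ (I.erase 1).erase b₀, ((b:ℝ) + 2.2832 / b) =
      ∑ b ∈ (I.erase 1).erase b₀, (b:ℝ) + 2.2832 * ∑ b ∈ (I.erase 1).erase b₀, (1:ℝ) / b := by
    rw [Finset.sum_add_distrib, Finset.mul_sum]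
    congr 1
    refine Finset.sum_congr rfl fun b _ => ?_
    rw [mul_one_div]
  have ha14' : (14:ℝ) ≤ a := by exact_mod_cast ha14
  have hb14' : (14:ℝ) ≤ b₀ := by exact_mod_cast ha14.trans hab₀
  have g8 : (1:ℝ) / a ≤ 1 / 14 := one_div_le_one_div_of_le (by norm_num) ha14'
  have g9 : 4.5664 / (b₀:ℝ) ≤ 4.5664 / 14 := div_le_div_of_nonneg_left (by norm_num) (by norm_num) hb14'
  rw [g7] at g2
  have g10 : 4.5664 / 14 + 2.2832 * (1 + (1 + 1 / 14)) < (14:ℝ) / 2 := by norm_num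
  linarith

/-- step (3): laps. -/
lemma laps {b m mb x t : ℕ} {s r ε : ℤ} (hs : s = 1 ∨ s = -1) (hr : r = 1 ∨ r = -1)
    (hε : ε = 1 ∨ ε = -1) (hD : 0 < D) (e1 : (b:ℤ) * mb = D + s) (e2 : (a:ℤ) * m = D + r)
    (e3 : (b:ℤ) * x = t * D + ε * a) (hx : 0 < x) (hmb : 0 < mb) (hm : mb < m) :
    min mb (m - mb) * D ≤ m * x + mb := by
  have hs2 : s * s = 1 := by rcases hs with rfl | rfl <;> norm_num
  have hr2 : r * r = 1 := by rcases hr with rfl | rfl <;> norm_num
  set k : ℤ := s * (mb * t * m + ε * mb - m * x) with hk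
  set σ : ℤ := s * ε * r with hσ
  have hσ1 : σ = 1 ∨ σ = -1 := by
    rcases hs with rfl | rfl <;> rcases hr with rfl | rfl <;> rcases hε with rfl | rfl <;>
      simp [hσ]
  have e4 : (m:ℤ) * x = k * D + σ * mb := by
    rw [hk, hσ]
    linear_combination (-s * m * x) * e1 + (s * mb * m) * e3 + (s * ε * mb) * e2 - (m * x) * hs2
  have hDz : (0:ℤ) < D := by exact_mod_cast hD
  have hxz : (1:ℤ) ≤ x := by exact_mod_cast hx
  have hmbz : (0:ℤ) < mb := by exact_mod_cast hmb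
  have hmz : (mb:ℤ) < m := by exact_mod_cast hm
  have hσmb : σ * mb ≤ mb := by rcases hσ1 with h | h <;> rw [h] <;> linarith
  have hσmb2 : -(mb:ℤ) ≤ σ * mb := by rcases hσ1 with h | h <;> rw [h] <;> linarith
  have hkpos : 0 < k := by
    have h1 : 0 < k * D := by
      have : (m:ℤ) * 1 ≤ m * x := by
        apply mul_le_mul_of_nonneg_left hxz; linarith
      linarith
    exact (pos_iff_pos_of_mul_pos h1).2 hDz
  have e5 : (m:ℤ) ∣ k - (r * σ) * mb := by
    refine ⟨r * (k * a - x), ?_⟩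
    -- k D = m x - σ mb,  D = a m - r
    have h1 : k * (a * m - r) = m * x - σ * mb := by
      rw [e2] ; linarith
    linear_combination (-r) * h1 + (-k) * hr2
  have hτ : r * σ = 1 ∨ r * σ = -1 := by
    rcases hr with rfl | rfl <;> rcases hσ1 with h | h <;> simp [h]
  have hkge : (min mb (m - mb) : ℕ) ≤ k := by
    have hcast : ((min mb (m - mb) : ℕ) : ℤ) = min (mb:ℤ) (m - mb) := by
      rw [Nat.cast_min, Nat.cast_sub hm.le]
    rw [hcast]
    rcases hτ with h | h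
    · rw [h, one_mul] at e5
      apply le_trans (min_le_left _ _)
      by_contra hcon
      push Not at hcon
      have h2 : (m:ℤ) ∣ mb - k := by
        have := (dvd_neg (a := (m:ℤ))).2 e5
        simpa using this
      have h3 := Int.le_of_dvd (by linarith) h2
      linarith
    · rw [h] at e5
      apply le_trans (min_le_right _ _)
      have h3 := Int.le_of_dvd (by linarith) e5
      linarith
  have h6 : ((min mb (m - mb) : ℕ) : ℤ) * D ≤ k * D := mul_le_mul_of_nonneg_right hkge hDz.le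
  have h7 : ((min mb (m - mb) : ℕ) : ℤ) * D ≤ m * x + mb := by linarith
  exact_mod_cast h7

/-- the sum over the possible values of `m_b`. -/
def Sq (m : ℕ) : ℚ := ∑ k ∈ Finset.Icc 2 (m - 1),
  ((m:ℚ) / (min k (m - k) : ℕ) + 2.2832 * (min k (m - k) : ℕ) / m)

/-- the lower bound for `a`. -/
def Aq (m : ℕ) : ℕ := max (max ((204 + m) / m) (m - 1)) 14

lemma num_check : ∀ m ∈ (Finset.Icc 4 30 : Finset ℕ), (8 / 3 + 2.2832 + 4.5664 / ((m:ℚ) - 1) + Sq m : ℚ) <
    ((Aq m : ℚ) * (m - 1) - 1) / 3 + (m - 1) - 1 / 14 := by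
  decide +kernel

/-- the harmonic numbers grow slowly. -/
lemma harm_le : ∀ n : ℕ, 10 ≤ n → ∑ k ∈ Finset.Icc 1 n, (1:ℝ) / k ≤ 2.93 + ((n:ℝ) - 10) / 11 := by
  intro n hn
  induction n, hn using Nat.le_induction with
  | base =>
    norm_num [Finset.sum_Icc_succ_top]
  | succ n hn ih =>
    rw [Finset.sum_Icc_succ_top (by omega)]
    have h1 : (1:ℝ) / ((n + 1 : ℕ) : ℝ) ≤ 1 / 11 := by
      apply one_div_le_one_div_of_le (by norm_num)
      have : 11 ≤ n + 1 := by omega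
      exact_mod_cast this
    push_cast at h1 ⊢
    linarith

/-- crude bound for the sum over the possible `m_b`. -/
lemma Sq_le {m : ℕ} (hm : 11 ≤ m) : ((Sq m : ℚ) : ℝ) ≤
    m * (2 * (2.93 + ((m:ℝ) - 11) / 11) - 1) + 2.2832 * m / 2 := by
  have hm' : (11:ℝ) ≤ m := by exact_mod_cast hm
  have hcast : ((Sq m : ℚ) : ℝ) = ∑ k ∈ Finset.Icc 2 (m - 1),
      ((m:ℝ) / (min k (m - k) : ℕ) + 2.2832 * (min k (m - k) : ℕ) / m) := by
    unfold Sq
    push_cast
    norm_num
  rw [hcast]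
  have hterm : ∀ k ∈ Finset.Icc 2 (m - 1),
      ((m:ℝ) / (min k (m - k) : ℕ) + 2.2832 * (min k (m - k) : ℕ) / m) ≤
      m * (1 / (k:ℝ) + 1 / ((m - k : ℕ) : ℝ)) + 2.2832 / 2 := by
    intro k hk
    rw [Finset.mem_Icc] at hk
    have hk0 : (0:ℝ) < k := by exact_mod_cast (by omega : 0 < k)
    have hmk0 : (0:ℝ) < ((m - k : ℕ) : ℝ) := by exact_mod_cast (by omega : 0 < m - k)
    have h1 : (1:ℝ) / (min k (m - k) : ℕ) ≤ 1 / (k:ℝ) + 1 / ((m - k : ℕ) : ℝ) := by
      rcases le_total k (m - k) with h | h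
      · rw [min_eq_left h]
        have : (0:ℝ) < 1 / ((m - k : ℕ) : ℝ) := by positivity
        linarith
      · rw [min_eq_right h]
        have : (0:ℝ) < 1 / (k : ℝ) := by positivity
        linarith
    have h2 : ((min k (m - k) : ℕ) : ℝ) ≤ m / 2 := by
      have h3 : 2 * min k (m - k) ≤ m := by
        rcases le_total k (m - k) with h | h
        · rw [min_eq_left h]; omega
        · rw [min_eq_right h]; omega
      have h4 : (2:ℝ) * ((min k (m - k) : ℕ) : ℝ) ≤ m := by exact_mod_cast h3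
      linarith
    have h5 : (m:ℝ) / (min k (m - k) : ℕ) ≤ m * (1 / (k:ℝ) + 1 / ((m - k : ℕ) : ℝ)) := by
      rw [div_eq_mul_one_div]
      exact mul_le_mul_of_nonneg_left h1 (by linarith)
    have h6 : 2.2832 * ((min k (m - k) : ℕ) : ℝ) / m ≤ 2.2832 / 2 := by
      rw [div_le_div_iff₀ (by linarith) (by norm_num)]
      linarith
    linarith
  refine (Finset.sum_le_sum hterm).trans ?_
  rw [Finset.sum_add_distrib, ← Finset.mul_sum, Finset.sum_add_distrib, Finset.sum_const,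
    Nat.card_Icc, nsmul_eq_mul]
  have hH := harm_le (m - 1) (by omega)
  have hm1 : ((m - 1 : ℕ) : ℝ) = (m:ℝ) - 1 := by
    rw [Nat.cast_sub (by omega)]; simp
  rw [hm1] at hH
  have e1 : ∑ k ∈ Finset.Icc 1 (m - 1), (1:ℝ) / k = 1 + ∑ k ∈ Finset.Icc 2 (m - 1), (1:ℝ) / k := by
    rw [← Finset.insert_Icc_add_one_left_eq_Icc (by omega : 1 ≤ m - 1), Finset.sum_insert (by simp)]
    norm_num
  have e2 : ∑ k ∈ Finset.Icc 2 (m - 1), (1:ℝ) / ((m - k : ℕ) : ℝ) ≤
      ∑ k ∈ Finset.Icc 1 (m - 1), (1:ℝ) / k := by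
    have hinj : Set.InjOn (fun k => m - k) (Finset.Icc 2 (m - 1) : Finset ℕ) := by
      intro k hk l hl h
      simp only [Finset.coe_Icc, Set.mem_Icc] at hk hl h
      omega
    rw [← Finset.sum_image (f := fun k : ℕ => (1:ℝ) / k) (g := fun k => m - k) hinj]
    apply Finset.sum_le_sum_of_subset_of_nonneg
    · intro x hx
      rw [Finset.mem_image] at hx
      obtain ⟨k, hk, rfl⟩ := hx
      rw [Finset.mem_Icc] at hk ⊢
      omega
    · intro x _ _
      positivity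
  have e3 : (((m - 1 + 1 - 2 : ℕ) : ℝ)) * (2.2832 / 2) ≤ 2.2832 * m / 2 := by
    have : ((m - 1 + 1 - 2 : ℕ) : ℝ) ≤ m := by exact_mod_cast (by omega : m - 1 + 1 - 2 ≤ m)
    nlinarith
  have e4 : (m:ℝ) * (∑ k ∈ Finset.Icc 2 (m - 1), (1:ℝ) / k +
      ∑ k ∈ Finset.Icc 2 (m - 1), (1:ℝ) / ((m - k : ℕ) : ℝ)) ≤
      m * (2 * (2.93 + ((m:ℝ) - 11) / 11) - 1) := by
    apply mul_le_mul_of_nonneg_left _ (by linarith)
    linarith
  linarith

/-- **Case II**: a smallest deviant `a` with `D < a (a + 1)` has no larger element of `I` above. -/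
theorem caseII (h : Sys D I) (h3 : 3 ≤ I.card) (hd : Dev I a j) (hD : 206 ≤ D)
    (hbig : D < a * (a + 1)) {b₁ : ℕ} (hb₁ : b₁ ∈ I) (hab₁ : a < b₁) : False := by
  have haI := hd.mem
  have h1I : 1 ∈ I := by simpa using hd.chain_subset (Nat.zero_le j)
  have haD := h.lt_of_mem h3 haI
  have ha14 : 14 ≤ a := by
    by_contra hcon
    have h5 : a ≤ 13 := by omega
    have h6 : a * (a + 1) ≤ 13 * 14 := Nat.mul_le_mul h5 (by omega)
    omega
  have ha0 : 0 < a := by omega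
  set m := xd D 1 a with hm
  have hga : a * m = D + 1 ∨ a * m + 1 = D := good_of_ge h h3 hd hbig ha14 haI le_rfl
  have h2a : 2 * a + 1 < D := by
    have := h.add_lt h3 haI hb₁ (by omega)
    omega
  have hm3 : 3 ≤ m := by
    by_contra hcon
    have h5 : m ≤ 2 := by omega
    have h6 : a * m ≤ a * 2 := Nat.mul_le_mul_left a h5
    omega
  have hma : m ≤ a + 1 := by
    have h5 : a * m ≤ a * (a + 1) := by omega
    exact Nat.le_of_mul_le_mul_left h5 ha0
  have hr : ∃ r : ℤ, (r = 1 ∨ r = -1) ∧ (a:ℤ) * m = D + r := by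
    rcases hga with h5 | h5
    · exact ⟨1, Or.inl rfl, by exact_mod_cast h5⟩
    · refine ⟨-1, Or.inr rfl, ?_⟩
      have h6 : (a:ℤ) * m + 1 = D := by exact_mod_cast h5
      linarith
  obtain ⟨r, hr1, hr2⟩ := hr
  -- facts on the elements above `a`
  have hJ : ∀ b ∈ I.filter (a < ·), 2 ≤ xd D 1 b ∧ xd D 1 b < m ∧
      (b * xd D 1 b = D + 1 ∨ b * xd D 1 b + 1 = D) := by
    intro b hb
    rw [mem_filter] at hb
    have hgb := good_of_ge h h3 hd hbig ha14 hb.1 hb.2.le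
    have hbD := h.lt_of_mem h3 hb.1
    have hsum := h.add_lt h3 haI hb.1 (by omega)
    refine ⟨?_, ?_, hgb⟩
    · by_contra hcon
      rcases (by omega : xd D 1 b = 0 ∨ xd D 1 b = 1) with h5 | h5
      · rw [h5] at hgb; omega
      · rw [h5] at hgb; omega
    · by_contra hcon
      push Not at hcon
      have h5 : (a + 1) * m ≤ b * xd D 1 b := Nat.mul_le_mul (by omega) hcon
      have h6 : (a + 1) * m = a * m + m := by ring
      omega
  set J := I.filter (a < ·) with hJdef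
  have hbound : ∀ b ∈ J, ((D:ℝ) - a) * f D (xd D a b) ≤
      (m:ℝ) / (min (xd D 1 b) (m - xd D 1 b) : ℕ) +
        2.2832 * (min (xd D 1 b) (m - xd D 1 b) : ℕ) / m := by
    intro b hb
    obtain ⟨hb2, hbm, hgb⟩ := hJ b hb
    rw [hJdef, mem_filter] at hb
    have hxpos := xd_pos (D := D) (by omega) (h.cop a haI) (h.cop b hb.1)
    have hs : ∃ s : ℤ, (s = 1 ∨ s = -1) ∧ (b:ℤ) * xd D 1 b = D + s := by
      rcases hgb with h5 | h5
      · exact ⟨1, Or.inl rfl, by exact_mod_cast h5⟩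
      · refine ⟨-1, Or.inr rfl, ?_⟩
        have h6 : (b:ℤ) * xd D 1 b + 1 = D := by exact_mod_cast h5
        linarith
    obtain ⟨s, hs1, hs2⟩ := hs
    obtain ⟨t, ht⟩ := xd_spec (a := a) (h.cop b hb.1) haD
    have hε : ∃ ε : ℤ, (ε = 1 ∨ ε = -1) ∧ (b:ℤ) * xd D a b = t * D + ε * a := by
      rcases ht with h5 | h5
      · exact ⟨1, Or.inl rfl, by rw [one_mul]; exact_mod_cast h5⟩
      · refine ⟨-1, Or.inr rfl, ?_⟩
        have h6 : (b:ℤ) * xd D a b + a = t * D := by exact_mod_cast h5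
        linarith
    obtain ⟨ε, hε1, hε2⟩ := hε
    have hlaps := laps (a := a) hs1 hr1 hε1 (by omega) hs2 hr2 hε2 hxpos (by omega) hbm
    have hκ1 : 1 ≤ min (xd D 1 b) (m - xd D 1 b) := le_min (by omega) (by omega)
    have hκ1' : (1:ℝ) ≤ ((min (xd D 1 b) (m - xd D 1 b) : ℕ) : ℝ) := by exact_mod_cast hκ1
    have hmpos : (0:ℝ) < m := by exact_mod_cast (by omega : 0 < m)
    have hmb' : ((xd D 1 b : ℕ) : ℝ) ≤ a := by exact_mod_cast (by omega : xd D 1 b ≤ a)
    have ha' : (0:ℝ) < a := by exact_mod_cast ha0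
    refine prof (a := (a:ℝ)) (β := (m:ℝ)) (c := ((xd D 1 b : ℕ) : ℝ)) ha'.le
      (by exact_mod_cast haD) hxpos (two_mul_xd_le (by omega) a b) hmpos (by linarith)
      (Nat.cast_nonneg _) (by nlinarith) ?_
    exact_mod_cast hlaps
  have hsumJ : ∑ b ∈ J, ((D:ℝ) - a) * f D (xd D a b) ≤ ((Sq m : ℚ) : ℝ) := by
    refine (Finset.sum_le_sum hbound).trans ?_
    have hinj : Set.InjOn (fun b => xd D 1 b) (J : Set ℕ) := by
      intro b hb c hc hbc
      rw [Finset.mem_coe, hJdef, mem_filter] at hb hc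
      by_contra hne
      exact hne (xd_injective (by omega) (Nat.coprime_one_left D) (h.cop b hb.1) (h.cop c hc.1)
        (h.add_lt h3 hb.1 hc.1 hne) hbc)
    have e1 : ∑ b ∈ J, ((m:ℝ) / (min (xd D 1 b) (m - xd D 1 b) : ℕ) +
        2.2832 * (min (xd D 1 b) (m - xd D 1 b) : ℕ) / m) =
        ∑ k ∈ J.image (fun b => xd D 1 b), ((m:ℝ) / (min k (m - k) : ℕ) +
        2.2832 * (min k (m - k) : ℕ) / m) := by
      rw [Finset.sum_image hinj]
    have e2 : ((Sq m : ℚ) : ℝ) = ∑ k ∈ Finset.Icc 2 (m - 1),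
        ((m:ℝ) / (min k (m - k) : ℕ) + 2.2832 * (min k (m - k) : ℕ) / m) := by
      unfold Sq
      push_cast
      norm_num
    rw [e1, e2]
    apply Finset.sum_le_sum_of_subset_of_nonneg
    · intro k hk
      rw [Finset.mem_image] at hk
      obtain ⟨b, hb, rfl⟩ := hk
      have := hJ b hb
      rw [Finset.mem_Icc]
      omega
    · intro k _ _
      positivity
  -- C(a)
  have hCa := h.C a haI
  have haR : (14:ℝ) ≤ a := by exact_mod_cast ha14
  have haDR : (a:ℝ) < D := by exact_mod_cast haD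
  have hmR : (3:ℝ) ≤ m := by exact_mod_cast hm3
  have hCa2 : ((D : ℝ) - a) ≤ ∑ b ∈ chain j, ((D : ℝ) - a) * f D (xd D a b) +
      ((Sq m : ℚ) : ℝ) := by
    have h5 : ((D : ℝ) - a) * 1 ≤ ((D : ℝ) - a) * ∑ b ∈ I.erase a, f D (xd D a b) :=
      mul_le_mul_of_nonneg_left hCa (by linarith)
    rw [mul_one, Finset.mul_sum, Finset.sum_erase_eq_sub hd.mem,
      Sys.sum_split hd (fun b => ((D : ℝ) - a) * f D (xd D a b))] at h5
    linarith
  have hamD : (a:ℝ) * m ≤ D + 1 := by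
    have : a * m ≤ D + 1 := by omega
    exact_mod_cast this
  have hamD2 : (D:ℝ) ≤ a * m + 1 := by
    have : D ≤ a * m + 1 := by omega
    exact_mod_cast this
  rcases Nat.lt_or_ge m 4 with hm4 | hm4
  · -- `m = 3`
    have hm3' : m = 3 := by omega
    have hSq : ((Sq m : ℚ) : ℝ) ≤ 3.7611 := by
      rw [hm3']
      have : Sq 3 ≤ 3.7611 := by decide +kernel
      have h5 : ((Sq 3 : ℚ) : ℝ) ≤ ((3.7611 : ℚ) : ℝ) := by exact_mod_cast this
      norm_num at h5 ⊢
      exact h5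
    have hcr := h.chain_crude h3 hd (by omega)
    have hmass := h.mass hd
    have hb₁J : b₁ ∈ J := by rw [hJdef, mem_filter]; exact ⟨hb₁, hab₁⟩
    have hb₁2 : (D:ℝ) ≤ 2 * b₁ + 1 := by
      obtain ⟨g1, g2, g3⟩ := hJ b₁ hb₁J
      have g4 : xd D 1 b₁ = 2 := by omega
      rw [g4] at g3
      have : D ≤ 2 * b₁ + 1 := by omega
      exact_mod_cast this
    have hsb : (b₁:ℝ) ≤ ∑ b ∈ J, (b:ℝ) :=
      Finset.single_le_sum (f := fun b : ℕ => (b:ℝ)) (fun _ _ => Nat.cast_nonneg _) hb₁J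
    rw [hm3'] at hamD hamD2
    push_cast at hamD hamD2
    have hP : (2:ℝ) ^ (j + 1) - 1 ≤ D / 6 + 5 / 6 := by linarith
    have hP0 : (0:ℝ) ≤ 2 ^ (j + 1) - 1 := by
      have : (1:ℝ) ≤ 2 ^ (j + 1) := one_le_pow₀ (by norm_num)
      linarith
    have hq : ((D:ℝ) - a) / a ≤ 2 + 1 / 14 := by
      rw [div_le_iff₀ (by linarith)]
      nlinarith
    have hq2 : ((D:ℝ) - a) / a * (2 ^ (j + 1) - 1) ≤ (2 + 1 / 14) * (D / 6 + 5 / 6) :=
      mul_le_mul hq hP hP0 (by norm_num)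
    linarith
  · -- `m ≥ 4`
    have hmR4 : (4:ℝ) ≤ m := by exact_mod_cast hm4
    have h4a : 4 * a ≤ D + 1 := by
      have : a * 4 ≤ a * m := Nat.mul_le_mul_left a hm4
      omega
    have hnet := h.chain_net h3 hd h4a
    have hlow : ((a:ℝ) * (m - 1) - 1) / 3 + (m - 1) - 1 / 14 ≤ ((D:ℝ) - a) * (1 / 3 + 1 / a) := by
      have g1 : ((a:ℝ) * (m - 1) - 1) * (1 / 3 + 1 / a) ≤ ((D:ℝ) - a) * (1 / 3 + 1 / a) := by
        apply mul_le_mul_of_nonneg_right _ (by positivity)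
        linarith
      have g2 : ((a:ℝ) * (m - 1) - 1) * (1 / 3 + 1 / a) =
          ((a:ℝ) * (m - 1) - 1) / 3 + (m - 1) - 1 / a := by
        field_simp
        ring
      have g3 : (1:ℝ) / a ≤ 1 / 14 := one_div_le_one_div_of_le (by norm_num) haR
      linarith
    have haDfrac : 2 * 2.2832 * (a:ℝ) / D ≤ 4.5664 / (m - 1) := by
      rw [div_le_div_iff₀ (by linarith) (by linarith)]
      nlinarith
    have hmain : ((a:ℝ) * (m - 1) - 1) / 3 + (m - 1) - 1 / 14 ≤
        8 / 3 + 2.2832 + 4.5664 / (m - 1) + ((Sq m : ℚ) : ℝ) := by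
      have g1 : ((D:ℝ) - a) * (1 / 3 + 1 / a) = ((D:ℝ) - a) - ((D:ℝ) - a) * (2 / 3 - 1 / a) := by
        ring
      linarith
    rcases Nat.lt_or_ge m 31 with hm31 | hm31
    · have hnum := num_check m (Finset.mem_Icc.2 ⟨hm4, by omega⟩)
      have hAq : Aq m ≤ a := by
        unfold Aq
        refine max_le (max_le ?_ (by omega)) ha14
        have g1 : (204 + m) / m < a + 1 := by
          rw [Nat.div_lt_iff_lt_mul (by omega)]
          have : 205 ≤ a * m := by omega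
          nlinarith
        omega
      have hAqR : ((Aq m : ℕ) : ℝ) ≤ a := by exact_mod_cast hAq
      have hnumR : (8 / 3 + 2.2832 + 4.5664 / ((m:ℝ) - 1) + ((Sq m : ℚ) : ℝ)) <
          ((Aq m : ℝ) * (m - 1) - 1) / 3 + (m - 1) - 1 / 14 := by
        have g1 := (Rat.cast_lt (K := ℝ)).2 hnum
        push_cast at g1
        norm_num at g1 ⊢
        linarith
      have g2 : ((Aq m : ℕ) : ℝ) * (m - 1) ≤ a * (m - 1) :=
        mul_le_mul_of_nonneg_right hAqR (by linarith)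
      linarith
    · have hS := Sq_le (m := m) (by omega)
      have hmR31 : (31:ℝ) ≤ m := by exact_mod_cast hm31
      have ham : (m:ℝ) - 1 ≤ a := by
        have : (m:ℝ) ≤ a + 1 := by exact_mod_cast hma
        linarith
      have g1 : (4.5664:ℝ) / (m - 1) ≤ 1 := by
        rw [div_le_one (by linarith)]; linarith
      have g2 : ((m:ℝ) - 1) * (m - 1) ≤ a * (m - 1) :=
        mul_le_mul_of_nonneg_right ham (by linarith)
      nlinarith

end Pool.Agent.Helper7.FR
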