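import Pool.Agent.Helper7.FR.Bridge

/-!
# Fraenkel's conjecture from the combinatorial theorem on cosecant systems
-/

open Finset
open Pool.Agent.Helper27.FK

namespace Pool.Agent.Helper7.FR

/-- the combinatorial theorem on cosecant systems (a hypothesis of this file). -/
def CosecThm : Prop := ∀ (D : ℕ) (I : Finset ℕ), Sys D I → 3 ≤ I.card →
  ∃ k : ℕ, 3 ≤ k ∧ D = 2 ^ k - 1 ∧ (I = (Finset.range k).image (fun i => 2 ^ i) ∨
    I = insert (2 ^ (k - 1) - 1) ((Finset.range (k - 1)).image (fun i => 2 ^ i)))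

lemma f_lt_one {D x : ℕ} (hx : 2 ≤ x) (hxD : 2 * x ≤ D) : f D x < 1 := by
  have h1 := f_antitone (D := D) (x := 2) (x' := x) (by norm_num) hx hxD
  have h2 := f_le (D := D) (x := 2) (by norm_num) (by omega)
  have hD : (4:ℝ) ≤ D := by exact_mod_cast (by omega : 4 ≤ D)
  have h3 : 2.2832 * ((2:ℕ):ℝ) / (D:ℝ) ^ 2 ≤ 2.2832 * 2 / 16 := by
    push_cast
    apply div_le_div_of_nonneg_left (by norm_num) (by norm_num)
    nlinarith
  push_cast at h2 h3
  have h4 : (1:ℝ)/2 + 2.2832 * 2 / 16 < 1 := by norm_num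
  linarith

/-- a cosecant system has at least three elements, unless its total mass is full. -/
theorem card_ge_three {D : ℕ} {I : Finset ℕ} (hD : 2 ≤ D) (h : Sys D I) (hne : I.Nonempty)
    (hsum : ∑ a ∈ I, a = D → 3 ≤ I.card) : 3 ≤ I.card := by
  by_contra hcon
  have h0 : 0 < I.card := hne.card_pos
  rcases (by omega : I.card = 1 ∨ I.card = 2) with h1 | h1
  · obtain ⟨a, rfl⟩ := Finset.card_eq_one.1 h1
    have := h.C a (Finset.mem_singleton_self a)
    simp at this
    linarith
  · obtain ⟨a, b, hab, rfl⟩ := Finset.card_eq_two.1 h1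
    have hC := h.C a (by simp)
    have e : ({a, b} : Finset ℕ).erase a = {b} := by
      ext x
      simp only [Finset.mem_erase, Finset.mem_insert, Finset.mem_singleton]
      constructor
      · rintro ⟨h2, h3 | h3⟩
        · exact absurd h3 h2
        · exact h3
      · rintro rfl
        exact ⟨Ne.symm hab, Or.inr rfl⟩
    rw [e, Finset.sum_singleton] at hC
    have hac := h.cop a (by simp)
    have hbc := h.cop b (by simp)
    have ha := h.pos a (by simp)
    have hb := h.pos b (by simp)
    have hsl := h.sum_le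
    rw [Finset.sum_pair hab] at hsl
    have hxp := xd_pos (D := D) (by omega) hac hbc
    have hx2 := two_mul_xd_le (D := D) (by omega) a b
    have hx1 : xd D a b = 1 := by
      by_contra hx
      have := f_lt_one (D := D) (x := xd D a b) (by omega) hx2
      linarith
    obtain ⟨t, ht⟩ := xd_spec (D := D) (a := a) hbc (by omega)
    rw [hx1, mul_one] at ht
    have hs : a + b = D := by
      rcases ht with ht | ht
      · rcases Nat.eq_zero_or_pos t with rfl | htp
        · omega
        · have : D ≤ t * D := Nat.le_mul_of_pos_left D htp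
          omega
      · rcases Nat.eq_zero_or_pos t with rfl | htp
        · omega
        · rcases (by omega : t = 1 ∨ 2 ≤ t) with rfl | ht2
          · omega
          · have : 2 * D ≤ t * D := Nat.mul_le_mul_right D ht2
            omega
    have := hsum (by rw [Finset.sum_pair hab]; exact hs)
    omega

lemma sum_pow_two (k : ℕ) : ∑ a ∈ (Finset.range k).image (fun i => 2 ^ i), a = 2 ^ k - 1 := by
  rw [Finset.sum_image (fun i _ j _ h => Nat.pow_right_injective le_rfl h)]
  have := Nat.geomSum_eq (m := 2) le_rfl k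
  simpa using this

/-- **Strong form of Fraenkel's conjecture**, given the theorem on cosecant systems: in an exact
cover with at least three rational rates, such that the rates with the largest denominator are
pairwise distinct, the rates are `2^i / (2^n - 1)`, `0 ≤ i < n`. -/
theorem strong_of {ι : Type*} [Fintype ι] (hT : CosecThm) {s : ι → ℚ} {θ : ι → ℝ}
    (h0 : ∀ i, 0 < s i) (h1 : ∀ i, s i < 1) (hs : ∑ i, s i = 1) (h3 : 3 ≤ Fintype.card ι)
    (hc : IsExactCover (fun i => (s i : ℝ)) θ)
    (hinj : ∀ i j, i ≠ j → s i = s j → ∃ k, (s i).den < (s k).den) :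
    Function.Injective s ∧ Set.range s =
      {x : ℚ | ∃ i : ℕ, i < Fintype.card ι ∧ x = 2 ^ i / (2 ^ (Fintype.card ι) - 1)} := by
  classical
  have : Nonempty ι := Fintype.card_pos_iff.1 (by omega)
  obtain ⟨i₀, _, hi₀⟩ := Finset.exists_max_image (Finset.univ : Finset ι) (fun i => (s i).den)
    Finset.univ_nonempty
  have hmax : ∀ i, (s i).den ≤ (s i₀).den := fun i => hi₀ i (Finset.mem_univ i)
  have hinj' : ∀ i j, (s i).den = (s i₀).den → s i = s j → i = j := by
    intro i j hi hij
    by_contra hne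
    obtain ⟨k, hk⟩ := hinj i j hne hij
    have := hmax k
    omega
  obtain ⟨I, hD2, hsys, hne, hI1, hI2, hlow⟩ := bridge_rat h0 h1 hs hc hmax hinj'
  have h0' : ∀ i, (0:ℝ) < s i := fun i => by exact_mod_cast h0 i
  have hs' : ∑ i, (s i : ℝ) = 1 := by exact_mod_cast hs
  generalize hDdef : (s i₀).den = D at *
  have hD' : (0:ℝ) < D := by exact_mod_cast (by omega : 0 < D)
  -- the indices with denominator `D`
  set A : Finset ι := Finset.univ.filter fun i => (s i).den = D with hA
  have hAinj : ∀ i ∈ A, ∀ j ∈ A, (s i : ℝ) = s j → i = j := by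
    intro i hi j _ h
    rw [hA, Finset.mem_filter] at hi
    exact hinj' i j hi.2 (by exact_mod_cast h)
  have himg : A.image (fun i => (s i : ℝ)) = I.image (fun a : ℕ => (a:ℝ) / D) := by
    ext x
    simp only [hA, Finset.mem_image, Finset.mem_filter, Finset.mem_univ, true_and]
    constructor
    · rintro ⟨i, hi, rfl⟩
      obtain ⟨a, ha, hra⟩ := hI2 i hi
      exact ⟨a, ha, hra.symm⟩
    · rintro ⟨a, ha, rfl⟩
      obtain ⟨i, hi, hra⟩ := hI1 a ha
      exact ⟨i, hi, hra⟩
  have hdinj : Function.Injective (fun a : ℕ => (a:ℝ) / D) := by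
    intro a b hab
    have : (a:ℝ) = b := by
      simp only at hab
      field_simp at hab
      exact hab
    exact_mod_cast this
  have hsumA : ∑ i ∈ A, (s i : ℝ) = ((∑ a ∈ I, a : ℕ) : ℝ) / D := by
    have e1 : ∑ i ∈ A, (s i : ℝ) = ∑ x ∈ A.image (fun i => (s i : ℝ)), x :=
      (Finset.sum_image (f := fun x : ℝ => x) hAinj).symm
    rw [e1, himg, Finset.sum_image (fun i _ j _ h => hdinj h), ← Finset.sum_div]
    push_cast
    rfl
  have hcardA : A.card = I.card := by
    rw [← Finset.card_image_of_injOn (f := fun i => (s i : ℝ)) (s := A) hAinj, himg,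
      Finset.card_image_of_injective I hdinj]
  have hAc : ∑ i ∈ A, (s i : ℝ) + ∑ i ∈ Finset.univ \ A, (s i : ℝ) = 1 := by
    rw [add_comm, Finset.sum_sdiff (Finset.subset_univ A), hs']
  -- full mass means `A` is everything
  have hfull : ∑ a ∈ I, a = D → A = Finset.univ := by
    intro h
    rw [hsumA, h, div_self hD'.ne'] at hAc
    have h4 : ∑ i ∈ Finset.univ \ A, (s i : ℝ) = 0 := by linarith
    by_contra hne'
    have h5 : (Finset.univ \ A).Nonempty := by
      rw [Finset.sdiff_nonempty]
      intro h6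
      exact hne' (Finset.eq_univ_of_forall fun i => h6 (Finset.mem_univ i))
    have h6 := Finset.sum_pos (fun i (_ : i ∈ Finset.univ \ A) => h0' i) h5
    linarith
  have hcard : 3 ≤ I.card := card_ge_three hD2 hsys hne (fun h => by
    rw [← hcardA, hfull h, Finset.card_univ]
    exact h3)
  obtain ⟨k, hk3, hDk, hIk⟩ := hT D I hsys hcard
  have hk2 : 2 ^ k = 2 * 2 ^ (k - 1) := by
    rw [← pow_succ']
    congr 1
    omega
  have hk4 : 4 ≤ 2 ^ (k - 1) := by
    calc 4 = 2 ^ 2 := by norm_num
      _ ≤ 2 ^ (k - 1) := Nat.pow_le_pow_right (by norm_num) (by omega)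
  have hDcast : (D:ℝ) = 2 ^ k - 1 := by
    rw [hDk, Nat.cast_sub Nat.one_le_two_pow]
    push_cast
    rfl
  rcases hIk with hI | hI
  · -- the Fraenkel case
    have hsum : ∑ a ∈ I, a = D := by rw [hI, sum_pow_two, hDk]
    have hAu := hfull hsum
    have hcardk : Fintype.card ι = k := by
      rw [← Finset.card_univ, ← hAu, hcardA, hI,
        Finset.card_image_of_injective _ (Nat.pow_right_injective le_rfl), Finset.card_range]
    rw [hcardk]
    refine ⟨fun i j h => hAinj i (by rw [hAu]; exact Finset.mem_univ _) j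
      (by rw [hAu]; exact Finset.mem_univ _) (by exact_mod_cast h), ?_⟩
    have hmem : ∀ x : ℝ, (∃ i, (s i : ℝ) = x) ↔ ∃ i : ℕ, i < k ∧ x = 2 ^ i / (2 ^ k - 1) := by
      intro x
      have h7 : (∃ i, (s i : ℝ) = x) ↔ x ∈ A.image (fun i => (s i : ℝ)) := by
        rw [hAu]
        simp
      rw [h7, himg, hI, ← hDcast]
      simp only [Finset.mem_image, Finset.mem_range, exists_exists_and_eq_and]
      constructor
      · rintro ⟨i, hi, rfl⟩
        refine ⟨i, hi, ?_⟩
        push_cast
        rfl
      · rintro ⟨i, hi, rfl⟩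
        refine ⟨i, hi, ?_⟩
        push_cast
        rfl
    ext x
    have h8 := hmem x
    constructor
    · rintro ⟨i, rfl⟩
      obtain ⟨l, hl, hx⟩ := h8.1 ⟨i, rfl⟩
      exact ⟨l, hl, by exact_mod_cast hx⟩
    · rintro ⟨l, hl, rfl⟩
      obtain ⟨i, hi⟩ := h8.2 ⟨l, hl, by push_cast; rfl⟩
      exact ⟨i, by exact_mod_cast hi⟩
  · -- the variant: the mass is too small
    exfalso
    have hnot : 2 ^ (k - 1) - 1 ∉ (Finset.range (k - 1)).image (fun i => 2 ^ i) := by
      intro h
      rw [Finset.mem_image] at h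
      obtain ⟨i, _, hi⟩ := h
      rcases Nat.eq_zero_or_pos i with rfl | hip
      · rw [pow_zero] at hi
        omega
      · have h8 : 2 ^ i = 2 * 2 ^ (i - 1) := by rw [← pow_succ']; congr 1; omega
        have h9 : 2 ^ (k - 1) = 2 * 2 ^ (k - 1 - 1) := by rw [← pow_succ']; congr 1; omega
        omega
    have hsum : ∑ a ∈ I, a = D - 1 := by
      rw [hI, Finset.sum_insert hnot, sum_pow_two, hDk, hk2]
      omega
    have hsumR : ∑ i ∈ A, (s i : ℝ) = 1 - 1 / D := by
      rw [hsumA, hsum, Nat.cast_sub (by omega)]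
      push_cast
      field_simp
    have hrest : ∑ i ∈ Finset.univ \ A, (s i : ℝ) = 1 / D := by linarith
    have hne2 : (Finset.univ \ A).Nonempty := by
      by_contra h
      rw [Finset.not_nonempty_iff_eq_empty] at h
      rw [h, Finset.sum_empty] at hrest
      have : (0:ℝ) < 1 / D := by positivity
      linarith
    obtain ⟨i, hi⟩ := hne2
    have h8 : (s i : ℝ) ≤ 1 / D := by
      rw [← hrest]
      exact Finset.single_le_sum (f := fun j => (s j : ℝ)) (fun j _ => (h0' j).le) hi
    rw [Finset.mem_sdiff, hA, Finset.mem_filter] at hi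
    have h9 : (s i).den < D := by
      refine lt_of_le_of_ne (hmax i) fun h => hi.2 ⟨Finset.mem_univ _, h⟩
    have h10 : (1:ℝ) / D < 1 / ((s i).den : ℝ) := by
      have hq' : (0:ℝ) < (s i).den := by exact_mod_cast (s i).den_pos
      have hqD' : ((s i).den : ℝ) < D := by exact_mod_cast h9
      exact one_div_lt_one_div_of_lt hq' hqD'
    have h11 := hlow i
    linarith

/-- **Fraenkel's conjecture** for a family indexed by a finite type, given the theorem on cosecant
systems. -/
theorem fraenkel_of {ι : Type*} [Fintype ι] (hT : CosecThm) {r θ : ι → ℝ} (h0 : ∀ i, 0 < r i)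
    (h1 : ∀ i, r i < 1) (hinj : Function.Injective r) (hs : ∑ i, r i = 1)
    (h3 : 3 ≤ Fintype.card ι) (hc : IsExactCover r θ) :
    Set.range r = {x : ℝ | ∃ i : ℕ, i < Fintype.card ι ∧ x = 2 ^ i / (2 ^ (Fintype.card ι) - 1)} := by
  have hconst := sum_fract_const h0 h1 hs hc
  have hrat : ∀ i, ∃ s : ℚ, (s : ℝ) = r i := by
    intro i
    have := graham h0 (fun i j _ h => hinj h) hs h3 hconst i
    rw [Irrational, not_not] at this
    exact this
  choose s hsr using hrat
  have hrs : (fun i => (s i : ℝ)) = r := funext fun i => hsr i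
  have g0 : ∀ i, 0 < s i := fun i => by
    have := h0 i
    rw [← hsr i] at this
    exact_mod_cast this
  have g1 : ∀ i, s i < 1 := fun i => by
    have := h1 i
    rw [← hsr i] at this
    exact_mod_cast this
  have gs : ∑ i, s i = 1 := by
    have h5 : ∑ i, (s i : ℝ) = 1 := by rw [← hs]; exact Finset.sum_congr rfl fun i _ => hsr i
    exact_mod_cast h5
  have h4 := (strong_of (s := s) (θ := θ) hT g0 g1 gs h3 (by rw [hrs]; exact hc)
    (fun i j hij h => by
      exfalso
      exact hij (hinj (by rw [← hsr i, ← hsr j, h])))).2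
  ext x
  constructor
  · rintro ⟨i, rfl⟩
    have h5 : s i ∈ Set.range s := ⟨i, rfl⟩
    rw [h4] at h5
    obtain ⟨l, hl, hx⟩ := h5
    exact ⟨l, hl, by rw [← hsr i, hx]; push_cast; rfl⟩
  · rintro ⟨l, hl, rfl⟩
    have h5 : (2 ^ l / (2 ^ (Fintype.card ι) - 1) : ℚ) ∈ Set.range s := by
      rw [h4]; exact ⟨l, hl, rfl⟩
    obtain ⟨i, hi⟩ := h5
    exact ⟨i, by rw [← hsr i, hi]; push_cast; rfl⟩

/-- if some rate of an exact cover with at least three sequences is irrational, then some irrational
rate is repeated. -/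
theorem irrational_repeated {ι : Type*} [Fintype ι] {r θ : ι → ℝ} (h0 : ∀ i, 0 < r i)
    (h1 : ∀ i, r i < 1) (hs : ∑ i, r i = 1) (h3 : 3 ≤ Fintype.card ι) (hc : IsExactCover r θ)
    {i : ι} (hi : Irrational (r i)) : ∃ j k, j ≠ k ∧ r j = r k ∧ Irrational (r j) := by
  by_contra hcon
  push Not at hcon
  have hconst := sum_fract_const h0 h1 hs hc
  refine graham h0 (fun j k hj h => ?_) hs h3 hconst i hi
  by_contra hjk
  exact hcon j k hjk h hj

end Pool.Agent.Helper7.FR
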