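import Pool.Agent.Helper7.FR.Final

/-!
# The final equivalence, given the theorem on cosecant systems and the Fraenkel words
-/

open Finset

namespace Pool.Agent.Helper7.FR

/-- the rates of the Fraenkel word. -/
noncomputable def fra (n : ℕ) (i : Fin n) : ℝ := 2 ^ (i : ℕ) / (2 ^ n - 1)

lemma fra_injective {n : ℕ} (hn : 1 ≤ n) : Function.Injective (fra n) := by
  intro i j h
  unfold fra at h
  have h1 : (0:ℝ) < 2 ^ n - 1 := by
    have : (2:ℝ) ^ 1 ≤ 2 ^ n := pow_le_pow_right₀ (by norm_num) hn
    linarith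
  rw [div_left_inj' h1.ne'] at h
  have h2 := pow_right_injective₀ (by norm_num : (0:ℝ) < 2) (by norm_num) h
  exact Fin.ext h2

/-- admissibility is invariant under permutations of the rates. -/
lemma Admissible.comp_equiv {ι κ : Type*} {r : κ → ℝ} (h : Admissible r) (e : ι ≃ κ) :
    Admissible (fun i => r (e i)) := by
  obtain ⟨θ, hθ, hc⟩ := h
  refine ⟨fun i => θ (e i), fun i => hθ _, fun m => ?_⟩
  obtain ⟨k, hk, huni⟩ := hc m
  refine ⟨e.symm k, by simpa using hk, fun i hi => ?_⟩
  rw [Equiv.eq_symm_apply]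
  exact huni _ hi

/-- **Fraenkel's conjecture as an equivalence.** -/
theorem fraenkel_iff (hT : CosecThm) (hF : ∀ n : ℕ, 3 ≤ n → Admissible (fra n)) {n : ℕ}
    (hn : 3 ≤ n) {r : Fin n → ℝ} (h0 : ∀ i, 0 < r i ∧ r i < 1) (hs : ∑ i, r i = 1)
    (hinj : Function.Injective r) :
    Admissible r ↔ Set.range r = {x : ℝ | ∃ i : ℕ, i < n ∧ x = 2 ^ i / (2 ^ n - 1)} := by
  constructor
  · rintro ⟨θ, -, hc⟩
    have := fraenkel_of hT (fun i => (h0 i).1) (fun i => (h0 i).2) hinj hs
      (by rw [Fintype.card_fin]; exact hn) hc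
    rw [Fintype.card_fin] at this
    exact this
  · intro h
    have h1 : ∀ i, ∃ j : Fin n, fra n j = r i := by
      intro i
      have : r i ∈ Set.range r := ⟨i, rfl⟩
      rw [h] at this
      obtain ⟨l, hl, hx⟩ := this
      exact ⟨⟨l, hl⟩, hx.symm⟩
    choose e he using h1
    have hei : Function.Injective e := by
      intro i j hij
      apply hinj
      rw [← he i, ← he j, hij]
    have heb : Function.Bijective e := Finite.injective_iff_bijective.1 hei
    have h2 := (hF n hn).comp_equiv (Equiv.ofBijective e heb)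
    have h3 : (fun i => fra n (Equiv.ofBijective e heb i)) = r := funext fun i => he i
    rw [h3] at h2
    exact h2

end Pool.Agent.Helper7.FR
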