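import Pool.Agent.Helper7.FR.Basic

/-!
# The Fourier coefficients of `j ↦ {j P / q + θ}` over a period
-/

open Finset Complex

namespace Pool.Agent.Helper7.FR

lemma fract_formula {P q : ℕ} (hq : 0 < q) (θ : ℝ) (j : ℤ) :
    Int.fract ((j:ℝ) * ((P:ℝ) / q) + θ) =
      (((j * P + ⌊(q:ℝ) * θ⌋) % (q:ℤ) : ℤ) + Int.fract ((q:ℝ) * θ)) / q := by
  have hq' : (0:ℝ) < q := by exact_mod_cast hq
  have hqz : (0:ℤ) < q := by exact_mod_cast hq
  set c : ℤ := ⌊(q:ℝ) * θ⌋ with hc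
  set φ : ℝ := Int.fract ((q:ℝ) * θ) with hφ
  have hθ : (q:ℝ) * θ = c + φ := (Int.floor_add_fract _).symm
  set m : ℤ := (j * P + c) % (q:ℤ) with hm
  set k : ℤ := (j * P + c) / (q:ℤ) with hk
  have hmk : (j:ℤ) * P + c = q * k + m := (Int.mul_ediv_add_emod _ _).symm
  have hmk' : (j:ℝ) * P + c = q * k + m := by exact_mod_cast hmk
  have hm0 : 0 ≤ m := Int.emod_nonneg _ hqz.ne'
  have hm1 : m + 1 ≤ q := Int.emod_lt_of_pos _ hqz
  have hm0' : (0:ℝ) ≤ m := by exact_mod_cast hm0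
  have hm1' : (m:ℝ) + 1 ≤ q := by exact_mod_cast hm1
  have e : (j:ℝ) * ((P:ℝ) / q) + θ = (m + φ) / q + (k : ℤ) := by
    field_simp
    rw [hθ]
    linarith
  rw [e, Int.fract_add_intCast, Int.fract_eq_self]
  have hφ0 : 0 ≤ φ := Int.fract_nonneg _
  have hφ1 : φ < 1 := Int.fract_lt_one _
  constructor
  · positivity
  · rw [div_lt_one hq']
    linarith

lemma fract_periodic {P q L : ℕ} (hq : 0 < q) (hL : q ∣ L) (θ : ℝ) (j : ℤ) :
    Int.fract (((j + L : ℤ) : ℝ) * ((P:ℝ) / q) + θ) = Int.fract ((j:ℝ) * ((P:ℝ) / q) + θ) := by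
  obtain ⟨m, rfl⟩ := hL
  have hq' : (q:ℝ) ≠ 0 := by exact_mod_cast hq.ne'
  have : (((j + (q * m : ℕ) : ℤ) : ℝ)) * ((P:ℝ) / q) + θ =
      ((j:ℝ) * ((P:ℝ) / q) + θ) + ((m * P : ℤ) : ℝ) := by
    push_cast
    field_simp
    ring
  rw [this, Int.fract_add_intCast]

lemma fract_shift {P q s : ℕ} (hq : 0 < q) (hs : (q:ℤ) ∣ P * s - 1) (θ : ℝ) (j : ℤ) :
    Int.fract (((j + s : ℤ) : ℝ) * ((P:ℝ) / q) + θ) - Int.fract ((j:ℝ) * ((P:ℝ) / q) + θ) =
      1 / q - (if (q:ℤ) ∣ j * P + ⌊(q:ℝ) * θ⌋ + 1 then 1 else 0) := by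
  have hq' : (0:ℝ) < q := by exact_mod_cast hq
  have hqz : (0:ℤ) < q := by exact_mod_cast hq
  rw [fract_formula hq, fract_formula hq, ← sub_div]
  set c : ℤ := ⌊(q:ℝ) * θ⌋ with hc
  obtain ⟨t, ht⟩ := hs
  have e1 : ((j + s : ℤ) * (P:ℤ) + c) % (q:ℤ) = (j * P + c + 1) % (q:ℤ) := by
    have : (j + s : ℤ) * (P:ℤ) + c = (j * P + c + 1) + q * t := by linarith
    rw [this, Int.add_mul_emod_self_left]
  rw [e1]
  have hm0 : 0 ≤ (j * P + c) % (q:ℤ) := Int.emod_nonneg _ hqz.ne'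
  have hm1 : (j * P + c) % (q:ℤ) < q := Int.emod_lt_of_pos _ hqz
  have hmk : (j:ℤ) * P + c = q * ((j * P + c) / (q:ℤ)) + (j * P + c) % (q:ℤ) :=
    (Int.mul_ediv_add_emod _ _).symm
  by_cases hd : (q:ℤ) ∣ j * P + c + 1
  · rw [if_pos hd]
    have h1 : (j * P + c + 1) % (q:ℤ) = 0 := Int.emod_eq_zero_of_dvd hd
    have h2 : (j * P + c) % (q:ℤ) = q - 1 := by
      have h3 : (q:ℤ) ∣ (j * P + c) % (q:ℤ) + 1 := by
        have : (j * P + c) % (q:ℤ) + 1 = (j * P + c + 1) - q * ((j * P + c) / (q:ℤ)) := by linarith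
        rw [this]
        exact dvd_sub hd (dvd_mul_right _ _)
      have h4 := Int.le_of_dvd (by linarith) h3
      linarith
    rw [h1, h2]
    push_cast
    field_simp
    ring
  · rw [if_neg hd]
    have h2 : (j * P + c + 1) % (q:ℤ) = (j * P + c) % (q:ℤ) + 1 := by
      have h5 : (j * P + c) % (q:ℤ) + 1 ≠ q := by
        intro h6
        apply hd
        have : (j * P + c + 1) = q * ((j * P + c) / (q:ℤ) + 1) := by linarith
        rw [this]
        exact dvd_mul_right _ _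
      have h7 : (j * P + c) % (q:ℤ) + 1 < q := by omega
      have h8 : (j * P + c + 1) = ((j * P + c) % (q:ℤ) + 1) + q * ((j * P + c) / (q:ℤ)) := by linarith
      rw [h8, Int.add_mul_emod_self_left]
      exact Int.emod_eq_of_lt (by linarith) h7
    rw [h2]
    push_cast
    field_simp
    ring

theorem per_fract {P q L : ℕ} (hq : 0 < q) (hP : Nat.Coprime P q) (hL : q ∣ L) (θ : ℝ)
    {a x : ℤ} (hx : (q:ℤ) ∣ P * x - a) (ha : ¬ (q:ℤ) ∣ a) :
    ‖per L (fun j => ((Int.fract ((j:ℝ) * ((P:ℝ) / q) + θ) : ℝ) : ℂ) * ee (-((a:ℝ) / q * j)))‖ *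
      (2 * |Real.sin (Real.pi * ((x:ℝ) / q))|) = L / q := by
  have hq' : (0:ℝ) < q := by exact_mod_cast hq
  have hqz : (0:ℤ) < q := by exact_mod_cast hq
  -- the inverse of `P`
  obtain ⟨s, hs⟩ : ∃ s : ℕ, (q:ℤ) ∣ P * s - 1 := by
    have h1 : IsCoprime (P:ℤ) (q:ℤ) := Nat.isCoprime_iff_coprime.2 hP
    obtain ⟨u, v, huv⟩ := h1
    refine ⟨(u % (q:ℤ)).toNat, ?_⟩
    have h2 : ((u % (q:ℤ)).toNat : ℤ) = u % (q:ℤ) := Int.toNat_of_nonneg (Int.emod_nonneg _ hqz.ne')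
    rw [h2]
    have h3 : u = q * (u / q) + u % q := (Int.mul_ediv_add_emod _ _).symm
    refine ⟨-v - P * (u / q), ?_⟩
    have h4 : (P:ℤ) * (u % q) = P * u - P * (q * (u / q)) := by
      rw [← mul_sub]; congr 1; linarith
    rw [h4]
    linear_combination huv
  set f : ℤ → ℝ := fun j => Int.fract ((j:ℝ) * ((P:ℝ) / q) + θ) with hf
  set α : ℝ := (a:ℝ) / q with hα
  set G : ℤ → ℂ := fun j => ((f j : ℝ) : ℂ) * ee (-(α * j)) with hG
  have hα1 : ¬ ∃ m : ℤ, α = m := by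
    rintro ⟨m, hm⟩
    apply ha
    refine ⟨m, ?_⟩
    have : (a:ℝ) = q * m := by rw [← hm, hα]; field_simp
    exact_mod_cast this
  have hαL : ∃ m : ℤ, α * L = m := by
    obtain ⟨k, rfl⟩ := hL
    refine ⟨a * k, ?_⟩
    rw [hα]; push_cast; field_simp
  have hchar := per_char hαL hα1
  have hGper : ∀ j, G (j + L) = G j := by
    intro j
    have h1 : f (j + L) = f j := fract_periodic hq hL θ j
    obtain ⟨m, hm⟩ := hαL
    have h2 : ee (-(α * ((j + L : ℤ) : ℝ))) = ee (-(α * (j:ℝ))) := by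
      have : -(α * ((j + L : ℤ) : ℝ)) = -(α * (j:ℝ)) + ((-m : ℤ) : ℝ) := by
        push_cast; rw [← hm]; ring
      rw [this, ee_add_int]
    show ((f (j + L) : ℝ) : ℂ) * ee (-(α * ((j + L : ℤ) : ℝ))) = _
    rw [h1, h2]
  have hsh := per_shift hGper s
  have e1 : ee (α * s) * per L (fun j => G (j + s)) =
      per L (fun j => ((f (j + s) : ℝ) : ℂ) * ee (-(α * j))) := by
    rw [← per_mul_left]
    congr 1
    funext j
    show ee (α * s) * (((f (j + s) : ℝ) : ℂ) * ee (-(α * ((j + s : ℤ) : ℝ)))) = _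
    have : ee (-(α * (j:ℝ))) = ee (α * s) * ee (-(α * ((j + s : ℤ) : ℝ))) := by
      rw [← ee_add]; congr 1; push_cast; ring
    rw [this]
    ring
  -- the difference
  set χ : ℤ → ℝ := fun j => if (q:ℤ) ∣ j * P + ⌊(q:ℝ) * θ⌋ + 1 then 1 else 0 with hχ
  have e2 : (ee (α * s) - 1) * per L G = - per L (fun j => ((χ j : ℝ) : ℂ) * ee (-(α * j))) := by
    have h1 : (ee (α * s) - 1) * per L G =
        per L (fun j => ((f (j + s) : ℝ) : ℂ) * ee (-(α * j)) - ((f j : ℝ) : ℂ) * ee (-(α * j))) := by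
      rw [per_sub, ← e1, hsh, sub_mul, one_mul]
    have h2 : (fun j : ℤ => ((f (j + s) : ℝ) : ℂ) * ee (-(α * j)) - ((f j : ℝ) : ℂ) * ee (-(α * j)))
        = fun j : ℤ => (1 / (q:ℂ)) * ee (-(α * j)) - ((χ j : ℝ) : ℂ) * ee (-(α * j)) := by
      funext j
      rw [← sub_mul, ← sub_mul, ← Complex.ofReal_sub]
      have h3 : f (j + s) - f j = 1 / q - χ j := fract_shift hq hs θ j
      rw [h3]
      push_cast
      ring
    rw [h1, h2, per_sub, per_mul_left, hchar, mul_zero, zero_sub]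
  -- the point mass
  set j0 : ℤ := - s * (1 + ⌊(q:ℝ) * θ⌋) with hj0
  have e3 : (fun j : ℤ => ((χ j : ℝ) : ℂ) * ee (-(α * j))) =
      fun j : ℤ => ee (-(α * j0)) * ((χ j : ℝ) : ℂ) := by
    funext j
    simp only [hχ]
    split_ifs with hd
    · have h1 : (q:ℤ) ∣ j - j0 := by
        have h2 : j - j0 = s * (j * P + ⌊(q:ℝ) * θ⌋ + 1) - j * (P * s - 1) := by
          rw [hj0]; ring
        rw [h2]
        exact dvd_sub (hd.mul_left _) (hs.mul_left _)
      obtain ⟨t, ht⟩ := h1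
      have h3 : -(α * (j:ℝ)) = -(α * (j0:ℝ)) + ((-(a * t) : ℤ) : ℝ) := by
        have h4 : (j:ℝ) = j0 + q * t := by exact_mod_cast (by linarith : j = j0 + q * t)
        rw [h4, hα]
        push_cast
        field_simp
        ring
      rw [h3, ee_add_int]
      ring
    · simp
  have e4 : per L (fun j => ((χ j : ℝ) : ℂ)) = ((L / q : ℝ) : ℂ) := by
    have h1 : per L (fun j => ((f (j + s) : ℝ) : ℂ) - ((f j : ℝ) : ℂ)) = 0 := by
      rw [per_sub]
      have h2 : ∀ j, ((f (j + L) : ℝ) : ℂ) = ((f j : ℝ) : ℂ) := by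
        intro j
        have : f (j + L) = f j := fract_periodic hq hL θ j
        rw [this]
      rw [per_shift (G := fun j => ((f j : ℝ) : ℂ)) h2 s, sub_self]
    have h3 : (fun j : ℤ => ((f (j + s) : ℝ) : ℂ) - ((f j : ℝ) : ℂ)) =
        fun j : ℤ => (1 / (q:ℂ)) - ((χ j : ℝ) : ℂ) := by
      funext j
      rw [← Complex.ofReal_sub]
      have h3 : f (j + s) - f j = 1 / q - χ j := fract_shift hq hs θ j
      rw [h3]
      push_cast
      ring
    rw [h3, per_sub, sub_eq_zero] at h1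
    rw [← h1]
    unfold per
    simp
    ring
  have e5 : (ee (α * s) - 1) * per L G = - (ee (-(α * j0)) * ((L / q : ℝ) : ℂ)) := by
    rw [e2, e3, per_mul_left, e4]
  have e6 : ‖ee (α * s) - 1‖ * ‖per L G‖ = L / q := by
    rw [← norm_mul, e5, norm_neg, norm_mul, norm_ee, one_mul, Complex.norm_real, Real.norm_eq_abs,
      abs_of_nonneg (by positivity)]
  have e7 : ee (α * s) = ee ((x:ℝ) / q) := by
    obtain ⟨t, ht⟩ := hx
    obtain ⟨t', ht'⟩ := hs
    have h1 : (a * s - x : ℤ) = q * (t' * x - t * s) := by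
      linear_combination (-(s:ℤ)) * ht + x * ht'
    have h2 : α * s = (x:ℝ) / q + ((t' * x - t * s : ℤ) : ℝ) := by
      have h3 : (a:ℝ) * s - x = q * ((t' * x - t * s : ℤ) : ℝ) := by exact_mod_cast h1
      rw [hα]
      field_simp
      linarith
    rw [h2, ee_add_int]
  rw [e7, norm_ee_sub_one] at e6
  rw [mul_comm]
  exact e6

/-- rates with a smaller denominator do not see the frequency `a / D`. -/
theorem per_fract_zero {P q L D : ℕ} (hq : 0 < q) (hqD : q < D) (hL : q ∣ L) (hLD : D ∣ L) (θ : ℝ)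
    {a : ℤ} (ha : IsCoprime a (D:ℤ)) :
    per L (fun j => ((Int.fract ((j:ℝ) * ((P:ℝ) / q) + θ) : ℝ) : ℂ) * ee (-((a:ℝ) / D * j))) = 0 := by
  have hD : 0 < D := hq.trans hqD
  have hD' : (D:ℝ) ≠ 0 := by exact_mod_cast hD.ne'
  set f : ℤ → ℝ := fun j => Int.fract ((j:ℝ) * ((P:ℝ) / q) + θ) with hf
  set α : ℝ := (a:ℝ) / D with hα
  set G : ℤ → ℂ := fun j => ((f j : ℝ) : ℂ) * ee (-(α * j)) with hG
  have hαL : ∃ m : ℤ, α * L = m := by
    obtain ⟨k, rfl⟩ := hLD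
    refine ⟨a * k, ?_⟩
    rw [hα]; push_cast; field_simp
  have hGper : ∀ j, G (j + L) = G j := by
    intro j
    have h1 : f (j + L) = f j := fract_periodic hq hL θ j
    obtain ⟨m, hm⟩ := hαL
    have h2 : ee (-(α * ((j + L : ℤ) : ℝ))) = ee (-(α * (j:ℝ))) := by
      have : -(α * ((j + L : ℤ) : ℝ)) = -(α * (j:ℝ)) + ((-m : ℤ) : ℝ) := by
        push_cast; rw [← hm]; ring
      rw [this, ee_add_int]
    show ((f (j + L) : ℝ) : ℂ) * ee (-(α * ((j + L : ℤ) : ℝ))) = _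
    rw [h1, h2]
  have hsh := per_shift hGper q
  have e1 : ee (α * q) * per L (fun j => G (j + q)) = per L G := by
    rw [← per_mul_left]
    congr 1
    funext j
    show ee (α * q) * (((f (j + q) : ℝ) : ℂ) * ee (-(α * ((j + q : ℤ) : ℝ)))) =
      ((f j : ℝ) : ℂ) * ee (-(α * j))
    have h1 : f (j + q) = f j := fract_periodic hq dvd_rfl θ j
    have : ee (-(α * (j:ℝ))) = ee (α * q) * ee (-(α * ((j + q : ℤ) : ℝ))) := by
      rw [← ee_add]; congr 1; push_cast; ring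
    rw [this, h1]
    ring
  rw [hsh] at e1
  have h3 : ee (α * q) ≠ 1 := by
    intro h4
    obtain ⟨k, hk⟩ := (ee_eq_one_iff _).1 h4
    have h5 : (a:ℝ) * q = D * k := by
      rw [← hk, hα]; field_simp
    have h6 : a * q = D * k := by exact_mod_cast h5
    have h7 : (D:ℤ) ∣ (q:ℤ) := by
      have : (D:ℤ) ∣ a * q := ⟨k, h6⟩
      exact ha.symm.dvd_of_dvd_mul_left this
    have h8 := Nat.le_of_dvd hq (by exact_mod_cast h7)
    omega
  have h5 : (ee (α * q) - 1) * per L G = 0 := by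
    rw [sub_mul, one_mul, e1, sub_self]
  rcases mul_eq_zero.1 h5 with h6 | h6
  · exact absurd (sub_eq_zero.1 h6) h3
  · exact h6

/-- **the Fourier inequality**. -/
theorem fourier_ineq {ι : Type*} [Fintype ι] [DecidableEq ι] (P q : ι → ℕ) (θ : ι → ℝ)
    (hq : ∀ i, 0 < q i) (hcop : ∀ i, Nat.Coprime (P i) (q i)) {D : ℕ} (hD : ∀ i, q i ≤ D)
    (hconst : ∃ c : ℝ, ∀ j : ℤ, ∑ i, Int.fract ((j:ℝ) * ((P i : ℝ) / q i) + θ i) = c)
    (i₀ : ι) (hi₀ : q i₀ = D) (hD2 : 2 ≤ D) (x : ι → ℤ)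
    (hx : ∀ k, q k = D → (D:ℤ) ∣ P k * x k - P i₀) :
    1 / Real.sin (Real.pi / D) ≤
      ∑ k ∈ (Finset.univ.erase i₀).filter (fun k => q k = D), 1 / |Real.sin (Real.pi * x k / D)| := by
  obtain ⟨c, hc⟩ := hconst
  have hD0 : 0 < D := by omega
  have hD' : (0:ℝ) < D := by exact_mod_cast hD0
  have hD2' : (2:ℝ) ≤ D := by exact_mod_cast hD2
  set L : ℕ := D * ∏ i, q i with hLdef
  have hL0 : 0 < L := Nat.mul_pos hD0 (Finset.prod_pos fun i _ => hq i)
  have hL' : (0:ℝ) < L := by exact_mod_cast hL0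
  have hLq : ∀ i, q i ∣ L := fun i => (Finset.dvd_prod_of_mem q (Finset.mem_univ i)).mul_left _
  have hLD : D ∣ L := dvd_mul_right _ _
  set a : ℤ := (P i₀ : ℤ) with ha
  have hacop : IsCoprime a (D:ℤ) := by
    rw [ha, ← hi₀]
    exact Nat.isCoprime_iff_coprime.2 (hcop i₀)
  have hnd : ¬ (D:ℤ) ∣ a := by
    intro h
    have h1 : IsUnit (D:ℤ) := hacop.isUnit_of_dvd' h dvd_rfl
    rw [Int.isUnit_iff] at h1
    omega
  set F : ι → ℂ := fun i => per L (fun j =>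
    ((Int.fract ((j:ℝ) * ((P i:ℝ) / q i) + θ i) : ℝ) : ℂ) * ee (-((a:ℝ) / D * j))) with hF
  have hsum : ∑ i, F i = 0 := by
    rw [hF]
    simp only
    rw [← per_sum Finset.univ L (fun i j =>
      ((Int.fract ((j:ℝ) * ((P i:ℝ) / q i) + θ i) : ℝ) : ℂ) * ee (-((a:ℝ) / D * j)))]
    have h1 : (fun j : ℤ => ∑ i, ((Int.fract ((j:ℝ) * ((P i:ℝ) / q i) + θ i) : ℝ) : ℂ) *
        ee (-((a:ℝ) / D * j))) = fun j : ℤ => (c:ℂ) * ee (-((a:ℝ) / D * j)) := by
      funext j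
      rw [← Finset.sum_mul, ← hc j]
      push_cast
      rfl
    rw [h1, per_mul_left]
    have h2 : per L (fun j => ee (-((a:ℝ) / D * j))) = 0 := by
      apply per_char
      · obtain ⟨k, hk⟩ := hLD
        refine ⟨a * k, ?_⟩
        rw [hk]; push_cast; field_simp
      · rintro ⟨m, hm⟩
        apply hnd
        refine ⟨m, ?_⟩
        have : (a:ℝ) = D * m := by rw [← hm]; field_simp
        exact_mod_cast this
    rw [h2, mul_zero]
  have hF0 : ∀ i, q i ≠ D → F i = 0 := by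
    intro i hi
    exact per_fract_zero (hq i) (lt_of_le_of_ne (hD i) hi) (hLq i) hLD (θ i) hacop
  have hF1 : ∀ i, q i = D → ∀ y : ℤ, (D:ℤ) ∣ P i * y - a →
      ‖F i‖ * (2 * |Real.sin (Real.pi * ((y:ℝ) / D))|) = L / D := by
    intro i hi y hy
    have h1 := per_fract (P := P i) (q := D) (L := L) hD0 (by rw [← hi]; exact hcop i) hLD (θ i)
      (a := a) (x := y) hy hnd
    have h2 : F i = per L (fun j =>
      ((Int.fract ((j:ℝ) * ((P i:ℝ) / D) + θ i) : ℝ) : ℂ) * ee (-((a:ℝ) / D * j))) := by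
      rw [hF]
      simp only
      rw [hi]
    rw [h2]
    exact h1
  have hform : ∀ i, q i = D → ∀ y : ℤ, (D:ℤ) ∣ P i * y - a →
      ‖F i‖ = (L / D / 2) * (1 / |Real.sin (Real.pi * y / D)|) := by
    intro i hi y hy
    have h1 := hF1 i hi y hy
    have h2 : Real.pi * y / D = Real.pi * ((y:ℝ) / D) := by ring
    rw [h2]
    have h3 : |Real.sin (Real.pi * ((y:ℝ) / D))| ≠ 0 := by
      intro h4
      rw [h4] at h1
      have : (0:ℝ) < L / D := by positivity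
      linarith
    generalize |Real.sin (Real.pi * ((y:ℝ) / D))| = S at h1 h3
    have h5 : ‖F i‖ = (L / D) / (2 * S) := by
      rw [eq_div_iff (by simpa using h3)]
      exact h1
    rw [h5]
    field_simp
  have hpoly : ‖F i₀‖ ≤ ∑ k ∈ (Finset.univ.erase i₀).filter (fun k => q k = D), ‖F k‖ := by
    have h1 : F i₀ = - ∑ k ∈ Finset.univ.erase i₀, F k := by
      rw [← Finset.add_sum_erase Finset.univ F (Finset.mem_univ i₀)] at hsum
      linear_combination hsum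
    have h2 : ∑ k ∈ Finset.univ.erase i₀, F k =
        ∑ k ∈ (Finset.univ.erase i₀).filter (fun k => q k = D), F k := by
      rw [Finset.sum_filter]
      refine Finset.sum_congr rfl fun k _ => ?_
      split_ifs with h
      · rfl
      · exact hF0 k h
    rw [h1, norm_neg, h2]
    exact norm_sum_le _ _
  have h0 : ‖F i₀‖ = (L / D / 2) * (1 / Real.sin (Real.pi / D)) := by
    have h1 := hform i₀ hi₀ 1 ⟨0, by rw [ha]; ring⟩
    have h2 : 0 ≤ Real.sin (Real.pi / D) := by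
      apply Real.sin_nonneg_of_nonneg_of_le_pi (by positivity)
      apply div_le_self Real.pi_pos.le
      linarith
    rw [h1]
    push_cast
    rw [mul_one, abs_of_nonneg h2]
  have h3 : ∑ k ∈ (Finset.univ.erase i₀).filter (fun k => q k = D), ‖F k‖ =
      (L / D / 2) * ∑ k ∈ (Finset.univ.erase i₀).filter (fun k => q k = D),
        1 / |Real.sin (Real.pi * x k / D)| := by
    rw [Finset.mul_sum]
    refine Finset.sum_congr rfl fun k hk => ?_
    rw [Finset.mem_filter] at hk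
    exact hform k hk.2 (x k) (hx k hk.2)
  rw [h0, h3] at hpoly
  have h4 : (0:ℝ) < L / D / 2 := by positivity
  exact le_of_mul_le_mul_left hpoly h4

end Pool.Agent.Helper7.FR
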