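import Mathlib

/-!
# Exact covers by regular sequences (MP_1d4ead_co): definitions and first facts
-/

open Finset

namespace Pool.Agent.Helper7.FR

/-- the set `S' = {⌈j / r - θ / r⌉ : j ∈ ℤ}` attached to the rate `r` and the phase `θ`. -/
def Sset (r θ : ℝ) : Set ℤ := Set.range fun j : ℤ => ⌈(j:ℝ) / r - θ / r⌉

/-- the family `S'_i` is an exact cover of `ℤ`: every integer lies in exactly one `S'_i`. -/
def IsExactCover {ι : Type*} (r θ : ι → ℝ) : Prop := ∀ m : ℤ, ∃! i, m ∈ Sset (r i) (θ i)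

/-- the rate tuple `r` is admissible: some phases in `[0, 1)` make the family an exact cover. -/
def Admissible {ι : Type*} (r : ι → ℝ) : Prop :=
  ∃ θ : ι → ℝ, (∀ i, 0 ≤ θ i ∧ θ i < 1) ∧ IsExactCover r θ

lemma mem_Sset {r θ : ℝ} (h0 : 0 < r) (m : ℤ) :
    m ∈ Sset r θ ↔ ⌊((m - 1 : ℤ) : ℝ) * r + θ⌋ < ⌊(m:ℝ) * r + θ⌋ := by
  unfold Sset
  rw [Set.mem_range]
  constructor
  · rintro ⟨j, hj⟩
    rw [Int.ceil_eq_iff] at hj
    obtain ⟨h1, h2⟩ := hj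
    have h3 : ((m:ℝ) - 1) * r + θ < j := by
      rw [← sub_div, lt_div_iff₀ h0] at h1
      linarith
    have h4 : (j:ℝ) ≤ m * r + θ := by
      rw [← sub_div, div_le_iff₀ h0] at h2
      linarith
    have h5 : j ≤ ⌊(m:ℝ) * r + θ⌋ := Int.le_floor.2 h4
    have h6 : ⌊((m - 1 : ℤ) : ℝ) * r + θ⌋ < j := by
      rw [Int.floor_lt]
      push_cast
      exact h3
    omega
  · intro h
    refine ⟨⌊(m:ℝ) * r + θ⌋, ?_⟩
    rw [Int.ceil_eq_iff]
    rw [Int.floor_lt] at h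
    have h2 := Int.floor_le ((m:ℝ) * r + θ)
    push_cast at h
    rw [← sub_div, lt_div_iff₀ h0, div_le_iff₀ h0]
    constructor
    · linarith
    · linarith

lemma floor_step {r θ : ℝ} (h0 : 0 < r) (h1 : r < 1) (m : ℤ) :
    ⌊(m:ℝ) * r + θ⌋ - ⌊((m - 1 : ℤ) : ℝ) * r + θ⌋ =
      if ⌊((m - 1 : ℤ) : ℝ) * r + θ⌋ < ⌊(m:ℝ) * r + θ⌋ then 1 else 0 := by
  have h2 : ⌊((m - 1 : ℤ) : ℝ) * r + θ⌋ ≤ ⌊(m:ℝ) * r + θ⌋ := by
    apply Int.floor_le_floor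
    push_cast
    linarith
  have h3 : ⌊(m:ℝ) * r + θ⌋ < ⌊((m - 1 : ℤ) : ℝ) * r + θ⌋ + 2 := by
    rw [Int.floor_lt]
    push_cast
    have := Int.lt_floor_add_one (((m:ℝ) - 1) * r + θ)
    linarith
  split_ifs with h
  · omega
  · omega

/-- **key identity**: in an exact cover the sum of the fractional parts is constant. -/
theorem sum_fract_const {ι : Type*} [Fintype ι] {r θ : ι → ℝ} (h0 : ∀ i, 0 < r i)
    (h1 : ∀ i, r i < 1) (hs : ∑ i, r i = 1) (hc : IsExactCover r θ) :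
    ∃ c : ℝ, ∀ j : ℤ, ∑ i, Int.fract ((j:ℝ) * r i + θ i) = c := by
  classical
  have hstep : ∀ m : ℤ, ∑ i, Int.fract ((m:ℝ) * r i + θ i) =
      ∑ i, Int.fract (((m - 1 : ℤ) : ℝ) * r i + θ i) := by
    intro m
    obtain ⟨i₀, hi₀, huni⟩ := hc m
    have h2 : ∑ i, (⌊(m:ℝ) * r i + θ i⌋ - ⌊((m - 1 : ℤ) : ℝ) * r i + θ i⌋) = 1 := by
      rw [Finset.sum_eq_single i₀]
      · rw [floor_step (h0 i₀) (h1 i₀), if_pos ((mem_Sset (h0 i₀) m).1 hi₀)]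
      · intro i _ hi
        rw [floor_step (h0 i) (h1 i), if_neg]
        intro h
        exact hi (huni i ((mem_Sset (h0 i) m).2 h))
      · intro h
        exact absurd (Finset.mem_univ _) h
    have h3 : ∑ i, ((⌊(m:ℝ) * r i + θ i⌋ : ℝ) - (⌊((m - 1 : ℤ) : ℝ) * r i + θ i⌋ : ℝ)) = 1 := by
      exact_mod_cast h2
    rw [← sub_eq_zero, ← Finset.sum_sub_distrib]
    have h4 : ∀ i, Int.fract ((m:ℝ) * r i + θ i) - Int.fract (((m - 1 : ℤ) : ℝ) * r i + θ i) =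
        r i - ((⌊(m:ℝ) * r i + θ i⌋ : ℝ) - (⌊((m - 1 : ℤ) : ℝ) * r i + θ i⌋ : ℝ)) := by
      intro i
      unfold Int.fract
      push_cast
      ring
    rw [Finset.sum_congr rfl fun i _ => h4 i, Finset.sum_sub_distrib, hs, h3, sub_self]
  refine ⟨∑ i, Int.fract (((0 : ℤ) : ℝ) * r i + θ i), fun j => ?_⟩
  induction j using Int.induction_on with
  | zero => rfl
  | succ k ih =>
    rw [← ih, hstep (k + 1)]
    simp
  | pred k ih =>
    rw [← ih, hstep (-k)]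

/-- conversely a constant sum of fractional parts gives an exact cover. -/
theorem isExactCover_of_const {ι : Type*} [Fintype ι] {r θ : ι → ℝ} (h0 : ∀ i, 0 < r i)
    (h1 : ∀ i, r i < 1) (hs : ∑ i, r i = 1)
    (hc : ∀ m : ℤ, ∑ i, Int.fract ((m:ℝ) * r i + θ i) =
      ∑ i, Int.fract (((m - 1 : ℤ) : ℝ) * r i + θ i)) : IsExactCover r θ := by
  classical
  intro m
  have h4 : ∀ i, Int.fract ((m:ℝ) * r i + θ i) - Int.fract (((m - 1 : ℤ) : ℝ) * r i + θ i) =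
      r i - ((⌊(m:ℝ) * r i + θ i⌋ : ℝ) - (⌊((m - 1 : ℤ) : ℝ) * r i + θ i⌋ : ℝ)) := by
    intro i
    unfold Int.fract
    push_cast
    ring
  have h5 : ∑ i, ((⌊(m:ℝ) * r i + θ i⌋ : ℝ) - (⌊((m - 1 : ℤ) : ℝ) * r i + θ i⌋ : ℝ)) = 1 := by
    have := hc m
    rw [← sub_eq_zero, ← Finset.sum_sub_distrib, Finset.sum_congr rfl fun i _ => h4 i,
      Finset.sum_sub_distrib, hs] at this
    linarith
  have h6 : ∑ i, (⌊(m:ℝ) * r i + θ i⌋ - ⌊((m - 1 : ℤ) : ℝ) * r i + θ i⌋) = 1 := by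
    exact_mod_cast h5
  rw [Finset.sum_congr rfl fun i _ => floor_step (h0 i) (h1 i) m, Finset.sum_boole] at h6
  have h7 : (Finset.univ.filter fun i =>
      ⌊((m - 1 : ℤ) : ℝ) * r i + θ i⌋ < ⌊(m:ℝ) * r i + θ i⌋).card = 1 := by exact_mod_cast h6
  obtain ⟨i₀, hi₀⟩ := Finset.card_eq_one.1 h7
  refine ⟨i₀, ?_, ?_⟩
  · have : i₀ ∈ ({i₀} : Finset ι) := Finset.mem_singleton_self _
    rw [← hi₀, Finset.mem_filter] at this
    exact (mem_Sset (h0 i₀) m).2 this.2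
  · intro i hi
    have : i ∈ (Finset.univ.filter fun i =>
        ⌊((m - 1 : ℤ) : ℝ) * r i + θ i⌋ < ⌊(m:ℝ) * r i + θ i⌋) :=
      Finset.mem_filter.2 ⟨Finset.mem_univ _, (mem_Sset (h0 i) m).1 hi⟩
    rw [hi₀] at this
    exact Finset.mem_singleton.1 this

end Pool.Agent.Helper7.FR
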