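import Mathlib

/-!
Factorial residues for almost all primes, part 1: the polynomials `P a = (X+1)...(X+a) - 1`,
Schur's irreducibility and coprimality of `P a` and `P b (X + a)`.
-/

set_option autoImplicit false

namespace Pool.Agent.Helper7.FR

open Polynomial Finset

/-- `(X+1)(X+2)...(X+a)`. -/
noncomputable def F (a : ℕ) : ℤ[X] := ∏ i ∈ range a, (X + C ((i : ℤ) + 1))

/-- `(X+1)(X+2)...(X+a) - 1`. -/
noncomputable def P (a : ℕ) : ℤ[X] := F a - 1

lemma F_monic (a : ℕ) : (F a).Monic := by
  unfold F
  exact monic_prod_of_monic _ _ fun i _ => monic_X_add_C _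

lemma F_natDegree (a : ℕ) : (F a).natDegree = a := by
  unfold F
  rw [natDegree_prod_of_monic _ _ fun i _ => monic_X_add_C _]
  simp only [natDegree_X_add_C, sum_const, card_range, smul_eq_mul, mul_one]

lemma F_eval (a : ℕ) (x : ℤ) : (F a).eval x = ∏ i ∈ range a, (x + ((i : ℤ) + 1)) := by
  unfold F
  rw [eval_prod]
  simp

lemma P_natDegree {a : ℕ} (ha : 1 ≤ a) : (P a).natDegree = a := by
  unfold P
  rw [natDegree_sub_eq_left_of_natDegree_lt] <;> rw [F_natDegree]
  rw [natDegree_one]
  exact ha

lemma P_monic {a : ℕ} (ha : 1 ≤ a) : (P a).Monic := by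
  unfold P
  apply (F_monic a).sub_of_left
  rw [degree_one]
  have h : (F a).degree = a := by
    rw [degree_eq_natDegree (F_monic a).ne_zero, F_natDegree]
  rw [h]
  exact_mod_cast ha

lemma P_eval (a : ℕ) (x : ℤ) : (P a).eval x = ∏ i ∈ range a, (x + ((i : ℤ) + 1)) - 1 := by
  unfold P
  simp [F_eval]

/-- Schur: `P a` is irreducible over the integers. -/
lemma P_irreducible {a : ℕ} (ha : 1 ≤ a) : Irreducible (P a) := by
  have hm := P_monic ha
  have hne : P a ≠ 1 := by
    intro h
    have := P_natDegree ha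
    rw [h, natDegree_one] at this
    omega
  rw [hm.irreducible_iff_natDegree']
  refine ⟨hne, ?_⟩
  intro g f hg hf hgf hmem
  have hfg : f * g = P a := by rw [mul_comm]; exact hgf
  rw [Finset.mem_Ioc] at hmem
  rw [P_natDegree ha] at hmem
  have hdeg : f.natDegree + g.natDegree = a := by
    rw [← hf.natDegree_mul hg, hfg, P_natDegree ha]
  have hfd : f.natDegree < a := by omega
  have hgd : g.natDegree < a := by omega
  -- f + g vanishes at -1, ..., -a
  have hval : ∀ i ∈ range a, (f + g).eval (-((i : ℤ) + 1)) = 0 := by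
    intro i hi
    have h1 : f.eval (-((i : ℤ) + 1)) * g.eval (-((i : ℤ) + 1)) = -1 := by
      rw [← eval_mul, hfg, P_eval]
      rw [prod_eq_zero hi (by ring)]
      ring
    rw [eval_add]
    rcases Int.isUnit_iff.1 (isUnit_of_mul_isUnit_left (show IsUnit (f.eval (-((i : ℤ) + 1)) *
      g.eval (-((i : ℤ) + 1))) by rw [h1]; exact isUnit_one.neg)) with h | h <;>
    · rw [h] at h1 ⊢
      linarith
  have hzero : f + g = 0 := by
    by_contra hne0
    have hc := card_roots' (f + g)
    have hsub : (range a).image (fun i : ℕ => -((i : ℤ) + 1)) ⊆ (f + g).roots.toFinset := by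
      intro z hz
      rw [mem_image] at hz
      obtain ⟨i, hi, rfl⟩ := hz
      rw [Multiset.mem_toFinset, mem_roots hne0]
      exact hval i hi
    have hcard : ((range a).image (fun i : ℕ => -((i : ℤ) + 1))).card = a := by
      rw [card_image_of_injective, card_range]
      intro i j hij
      simp only [neg_inj, add_left_inj, Nat.cast_inj] at hij
      exact hij
    have h2 := card_le_card hsub
    rw [hcard] at h2
    have h3 := Multiset.toFinset_card_le (f + g).roots
    have h4 := natDegree_add_le f g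
    have h5 : max f.natDegree g.natDegree < a := max_lt hfd hgd
    omega
  have hg' : g = -f := by
    rw [← sub_eq_zero, sub_neg_eq_add, add_comm]
    exact hzero
  have h1 := hg.leadingCoeff
  rw [hg', leadingCoeff_neg, hf.leadingCoeff] at h1
  norm_num at h1

/-- The shifted polynomial `P b (X + a)`. -/
noncomputable def Q (a b : ℕ) : ℤ[X] := (P b).comp (X + C (a : ℤ))

lemma Q_natDegree {b : ℕ} (hb : 1 ≤ b) (a : ℕ) : (Q a b).natDegree = b := by
  unfold Q
  rw [natDegree_comp, P_natDegree hb, natDegree_X_add_C, mul_one]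

lemma Q_monic {b : ℕ} (hb : 1 ≤ b) (a : ℕ) : (Q a b).Monic := by
  unfold Q
  exact (P_monic hb).comp_X_add_C _

lemma Q_eval (a b : ℕ) (x : ℤ) : (Q a b).eval x = ∏ i ∈ range b, (x + a + ((i : ℤ) + 1)) - 1 := by
  unfold Q
  rw [eval_comp, P_eval]
  simp

lemma Q_irreducible {b : ℕ} (hb : 1 ≤ b) (a : ℕ) : Irreducible (Q a b) := by
  have h := P_irreducible hb
  have : Q a b = (Polynomial.algEquivAevalXAddC (a : ℤ)) (P b) := by
    simp [Q, Polynomial.comp, aeval_def, eval₂_eq_eval_map, Polynomial.algebraMap_eq]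
  rw [this]
  exact (MulEquiv.irreducible_iff (Polynomial.algEquivAevalXAddC (a : ℤ))).2 h

lemma coprime_PQ {a b : ℕ} (ha : 1 ≤ a) (hb : 1 ≤ b) :
    IsCoprime ((P a).map (Int.castRingHom ℂ)) ((Q a b).map (Int.castRingHom ℂ)) := by
  have hP : Irreducible ((P a).map (Int.castRingHom ℚ)) :=
    ((P_monic ha).irreducible_iff_irreducible_map_fraction_map (K := ℚ)).1 (P_irreducible ha)
  have hQ : Irreducible ((Q a b).map (Int.castRingHom ℚ)) :=
    ((Q_monic hb a).irreducible_iff_irreducible_map_fraction_map (K := ℚ)).1 (Q_irreducible hb a)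
  have hcop : IsCoprime ((P a).map (Int.castRingHom ℚ)) ((Q a b).map (Int.castRingHom ℚ)) := by
    rw [hP.coprime_iff_not_dvd]
    intro hdvd
    have hass : Associated ((P a).map (Int.castRingHom ℚ)) ((Q a b).map (Int.castRingHom ℚ)) :=
      hP.associated_of_dvd hQ hdvd
    have heq := eq_of_monic_of_associated ((P_monic ha).map _) ((Q_monic hb a).map _) hass
    have heq' : P a = Q a b := map_injective _ Int.cast_injective heq
    have h1 : (P a).eval (-1) = -1 := by
      rw [P_eval, prod_eq_zero (mem_range.2 (show 0 < a by omega)) (by simp)]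
      ring
    have h2 : (Q a b).eval (-1) ≠ -1 := by
      rw [Q_eval]
      intro h
      have h3 : ∏ i ∈ range b, ((-1 : ℤ) + a + ((i : ℤ) + 1)) = 0 := by linarith
      rw [prod_eq_zero_iff] at h3
      obtain ⟨i, _, hi⟩ := h3
      have : (1 : ℤ) ≤ a := by exact_mod_cast ha
      have : (0 : ℤ) ≤ i := by positivity
      linarith
    rw [heq'] at h1
    exact h2 h1
  have := hcop.map (mapRingHom (algebraMap ℚ ℂ))
  simp only [coe_mapRingHom] at this
  convert this using 2 <;> ext <;> simp

lemma res_ne_zero {a b : ℕ} (ha : 1 ≤ a) (hb : 1 ≤ b) :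
    resultant (P a) (Q a b) ≠ 0 := by
  intro h
  have h1 : ((resultant (P a) (Q a b) : ℤ) : ℂ) = 0 := by rw [h]; simp
  have h2 := resultant_map_map (P a) (Q a b) (P a).natDegree (Q a b).natDegree (Int.castRingHom ℂ)
  rw [eq_intCast, h1] at h2
  have h3 : resultant ((P a).map (Int.castRingHom ℂ)) ((Q a b).map (Int.castRingHom ℂ)) = 0 := by
    rw [natDegree_map_eq_of_injective Int.cast_injective,
      natDegree_map_eq_of_injective Int.cast_injective]
    exact h2
  rw [resultant_eq_zero_iff] at h3
  exact h3.2 (coprime_PQ ha hb)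

end Pool.Agent.Helper7.FR
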