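import Mathlib

/-!
Factorial residues for almost all primes, part 2: if two integer polynomials have `k` common
roots modulo a prime `p`, then `p ^ k` divides their resultant.
-/

set_option autoImplicit false

namespace Pool.Agent.Helper7.FR

open Polynomial Finset

lemma sum_shift (g : ℤ[X]) (m n j : ℕ) (hj : j < m) (hg : g.natDegree ≤ n) (c : ℤ) :
    ∑ l ∈ range (m + n), c ^ l * (if l ∈ Set.Icc j (j + n) then g.coeff (l - j) else 0)
      = c ^ j * g.eval c := by
  have h1 : ∑ l ∈ range (m + n), c ^ l * (if l ∈ Set.Icc j (j + n) then g.coeff (l - j) else 0)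
      = ∑ l ∈ Finset.Ico j (j + (n + 1)), c ^ l * g.coeff (l - j) := by
    rw [← sum_filter_add_sum_filter_not (range (m + n)) (fun l => l ∈ Set.Icc j (j + n))]
    rw [sum_congr rfl (g := fun l => c ^ l * g.coeff (l - j))
      (s₁ := (range (m + n)).filter (fun l => l ∈ Set.Icc j (j + n)))]
    · rw [sum_eq_zero (s := (range (m + n)).filter (fun l => ¬ l ∈ Set.Icc j (j + n)))]
      · rw [add_zero]
        apply sum_congr _ fun _ _ => rfl
        ext l
        simp only [mem_filter, mem_range, Set.mem_Icc, Finset.mem_Ico]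
        omega
      · intro l hl
        rw [mem_filter] at hl
        rw [if_neg hl.2, mul_zero]
    · intro l hl
      rw [mem_filter] at hl
      rw [if_pos hl.2]
  rw [h1, sum_Ico_eq_sum_range]
  rw [show j + (n + 1) - j = n + 1 by omega, eval_eq_sum_range' (show g.natDegree < n + 1 by omega),
    mul_sum]
  apply sum_congr rfl
  intro t _
  rw [show j + t - j = t by omega, pow_add]
  ring

lemma sylvester_col (f g : ℤ[X]) (c : ℤ) (p : ℤ) (hf : p ∣ f.eval c) (hg : p ∣ g.eval c)
    (j : Fin (f.natDegree + g.natDegree)) :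
    p ∣ ∑ l : Fin (f.natDegree + g.natDegree),
      c ^ (l : ℕ) * sylvester f g f.natDegree g.natDegree l j := by
  induction j using Fin.addCases with
  | left j =>
    have h : ∑ l : Fin (f.natDegree + g.natDegree), c ^ (l : ℕ) * sylvester f g f.natDegree g.natDegree l (Fin.castAdd _ j)
        = c ^ (j : ℕ) * g.eval c := by
      rw [← sum_shift g f.natDegree g.natDegree j j.2 le_rfl c, ← Fin.sum_univ_eq_sum_range
        (fun l => c ^ l * (if l ∈ Set.Icc (j : ℕ) (j + g.natDegree) then g.coeff (l - j) else 0))]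
      apply sum_congr rfl
      intro l _
      simp only [sylvester, Matrix.of_apply, Fin.addCases_left]
    rw [h]
    exact hg.mul_left _
  | right j =>
    have h : ∑ l : Fin (f.natDegree + g.natDegree), c ^ (l : ℕ) * sylvester f g f.natDegree g.natDegree l (Fin.natAdd _ j)
        = c ^ (j : ℕ) * f.eval c := by
      rw [← sum_shift f g.natDegree f.natDegree j j.2 le_rfl c, add_comm g.natDegree f.natDegree,
        ← Fin.sum_univ_eq_sum_range
        (fun l => c ^ l * (if l ∈ Set.Icc (j : ℕ) (j + f.natDegree) then f.coeff (l - j) else 0))]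
      apply sum_congr rfl
      intro l _
      simp only [sylvester, Matrix.of_apply, Fin.addCases_right]
    rw [h]
    exact hf.mul_left _

lemma pow_dvd_det {k r : ℕ} (p : ℤ) (A : Matrix (Fin k ⊕ Fin r) (Fin k ⊕ Fin r) ℤ)
    (h : ∀ i j, p ∣ A (Sum.inl i) j) : p ^ k ∣ A.det := by
  let d : Fin k ⊕ Fin r → ℤ := Sum.elim (fun _ => p) (fun _ => 1)
  have hex : ∀ i j, ∃ b, A i j = d i * b := by
    intro i j
    rcases i with i | i
    · obtain ⟨b, hb⟩ := h i j
      exact ⟨b, hb⟩
    · exact ⟨A (Sum.inr i) j, by simp [d]⟩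
  choose B hB using hex
  have hA : A = Matrix.of fun i j => d i * B i j := by
    ext i j
    exact hB i j
  have hdet := Matrix.det_mul_column d (Matrix.of B)
  simp only [Matrix.of_apply] at hdet
  rw [hA, hdet]
  have hd : ∏ i, d i = p ^ k := by
    rw [Fintype.prod_sum_type]
    simp [d]
  rw [hd]
  exact dvd_mul_right _ _

theorem pow_dvd_resultant {f g : ℤ[X]} {p : ℕ} (hp : p.Prime) (C : Finset ℤ)
    (hC : ∀ c ∈ C, ∀ d ∈ C, (p : ℤ) ∣ c - d → c = d)
    (hf : ∀ c ∈ C, (p : ℤ) ∣ f.eval c) (hg : ∀ c ∈ C, (p : ℤ) ∣ g.eval c)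
    (hcard : C.card ≤ f.natDegree + g.natDegree) :
    (p : ℤ) ^ C.card ∣ resultant f g := by
  obtain ⟨r, hr⟩ := Nat.exists_eq_add_of_le hcard
  let k := C.card
  let c : Fin k → ℤ := fun i => (C.equivFin.symm i : ℤ)
  have hcinj : Function.Injective c := by
    intro i j hij
    exact C.equivFin.symm.injective (Subtype.ext hij)
  have hcmem : ∀ i, c i ∈ C := fun i => (C.equivFin.symm i).2
  let e : Fin (f.natDegree + g.natDegree) ≃ Fin k ⊕ Fin r :=
    (finCongr hr).trans finSumFinEquiv.symm
  let M := (sylvester f g f.natDegree g.natDegree).reindex e e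
  let V : Matrix (Fin k ⊕ Fin r) (Fin k ⊕ Fin r) ℤ :=
    Matrix.fromBlocks (Matrix.vandermonde c) (Matrix.of fun i j => c i ^ (k + (j : ℕ))) 0 1
  have hV : ∀ (i : Fin k) (l : Fin (f.natDegree + g.natDegree)),
      V (Sum.inl i) (e l) = c i ^ (l : ℕ) := by
    intro i l
    obtain ⟨x, rfl⟩ := e.symm.surjective l
    rw [Equiv.apply_symm_apply]
    rcases x with x | x
    · simp [V, e, Matrix.vandermonde_apply]
    · simp [V, e, k]
  have hrow : ∀ i j, (p : ℤ) ∣ (V * M) (Sum.inl i) j := by
    intro i j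
    rw [Matrix.mul_apply]
    rw [← e.sum_comp]
    have : ∀ l, V (Sum.inl i) (e l) * M (e l) j
        = c i ^ (l : ℕ) * sylvester f g f.natDegree g.natDegree l (e.symm j) := by
      intro l
      rw [hV]
      simp [M]
    rw [sum_congr rfl fun l _ => this l]
    exact sylvester_col f g (c i) p (hf _ (hcmem i)) (hg _ (hcmem i)) _
  have h1 := pow_dvd_det (p : ℤ) (V * M) hrow
  rw [Matrix.det_mul] at h1
  have hdV : V.det = (Matrix.vandermonde c).det := by
    simp only [V]
    rw [Matrix.det_fromBlocks_zero₂₁, Matrix.det_one, mul_one]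
  have hnd : ¬ (p : ℤ) ∣ V.det := by
    rw [hdV, Matrix.det_vandermonde]
    intro h
    have hp' : Prime (p : ℤ) := Nat.prime_iff_prime_int.1 hp
    rw [hp'.dvd_finsetProd_iff] at h
    obtain ⟨i, _, hi⟩ := h
    rw [hp'.dvd_finsetProd_iff] at hi
    obtain ⟨j, hj, hij⟩ := hi
    rw [Finset.mem_Ioi] at hj
    have := hcinj (hC _ (hcmem j) _ (hcmem i) hij)
    exact absurd this (ne_of_gt hj)
  have hcop : IsCoprime ((p : ℤ) ^ k) V.det := by
    apply IsCoprime.pow_left
    rw [(Nat.prime_iff_prime_int.1 hp).coprime_iff_not_dvd]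
    exact hnd
  have h2 := hcop.dvd_of_dvd_mul_left h1
  have h3 : M.det = resultant f g := by
    simp only [M]
    rw [Matrix.det_reindex_self]
    rfl
  rw [h3] at h2
  exact h2

end Pool.Agent.Helper7.FR
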