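import Pool.Agent.Helper7.FR.A1
import Pool.Agent.Helper7.FR.A2

/-!
Factorial residues for almost all primes, part 3: size of the resultant and the count of
common roots over many primes.
-/

set_option autoImplicit false

namespace Pool.Agent.Helper7.FR

open Polynomial Finset

lemma norm_prod_le (s : Multiset ℂ) (g : ℂ → ℂ) (B : ℝ) (hB : 0 ≤ B) (h : ∀ z ∈ s, ‖g z‖ ≤ B) :
    ‖(s.map g).prod‖ ≤ B ^ s.card := by
  induction s using Multiset.induction_on with
  | empty => simp
  | cons z s ih =>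
    rw [Multiset.map_cons, Multiset.prod_cons, Multiset.card_cons, norm_mul, pow_succ']
    exact mul_le_mul (h z (Multiset.mem_cons_self _ _))
      (ih fun w hw => h w (Multiset.mem_cons_of_mem hw)) (norm_nonneg _) hB

lemma P_map_eval (a : ℕ) (z : ℂ) :
    ((P a).map (Int.castRingHom ℂ)).eval z = ∏ i ∈ range a, (z + ((i : ℂ) + 1)) - 1 := by
  unfold P F
  simp [Polynomial.map_prod, eval_prod]

lemma Q_map_eval (a b : ℕ) (z : ℂ) :
    ((Q a b).map (Int.castRingHom ℂ)).eval z = ∏ i ∈ range b, (z + a + ((i : ℂ) + 1)) - 1 := by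
  unfold Q
  rw [Polynomial.map_comp, eval_comp, P_map_eval]
  simp

lemma root_norm {a : ℕ} (ha : 1 ≤ a) {z : ℂ}
    (hz : ((P a).map (Int.castRingHom ℂ)).eval z = 0) : ‖z‖ ≤ a + 1 := by
  by_contra hlt
  push Not at hlt
  rw [P_map_eval, sub_eq_zero] at hz
  have h1 : ∀ i ∈ range a, 1 < ‖z + ((i : ℂ) + 1)‖ := by
    intro i hi
    rw [mem_range] at hi
    have h2 : ‖((i : ℂ) + 1)‖ = (i : ℝ) + 1 := by
      have : ((i : ℂ) + 1) = (((i : ℝ) + 1 : ℝ) : ℂ) := by push_cast; ring
      rw [this, Complex.norm_real, Real.norm_of_nonneg (by positivity)]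
    have h3 : ‖z‖ ≤ ‖z + ((i : ℂ) + 1)‖ + ‖((i : ℂ) + 1)‖ := by
      have := norm_sub_le (z + ((i : ℂ) + 1)) ((i : ℂ) + 1)
      rwa [add_sub_cancel_right] at this
    rw [h2] at h3
    have h4 : (i : ℝ) + 1 ≤ a := by exact_mod_cast hi
    linarith
  have h5 : (1 : ℝ) < ∏ i ∈ range a, ‖z + ((i : ℂ) + 1)‖ := by
    have := Finset.prod_lt_prod_of_nonempty (s := range a) (f := fun _ : ℕ => (1 : ℝ))
      (g := fun i : ℕ => ‖z + ((i : ℂ) + 1)‖) (fun _ _ => one_pos) h1
      ⟨0, mem_range.2 (by omega)⟩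
    simpa using this
  rw [← norm_prod, hz, norm_one] at h5
  exact lt_irrefl _ h5

lemma Q_norm {a b : ℕ} (hb : 1 ≤ b) {z : ℂ} (hz : ‖z‖ ≤ a + 1) :
    ‖((Q a b).map (Int.castRingHom ℂ)).eval z‖ ≤ (2 * a + b + 2 : ℝ) ^ b := by
  rw [Q_map_eval]
  have h1 : ‖∏ i ∈ range b, (z + a + ((i : ℂ) + 1))‖ ≤ (2 * a + b + 1 : ℝ) ^ b := by
    rw [norm_prod]
    calc ∏ i ∈ range b, ‖z + a + ((i : ℂ) + 1)‖ ≤ ∏ i ∈ range b, (2 * a + b + 1 : ℝ) := by
          apply prod_le_prod (fun _ _ => norm_nonneg _)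
          intro i hi
          rw [mem_range] at hi
          have h2 : ‖((a : ℂ) + ((i : ℂ) + 1))‖ = (a : ℝ) + ((i : ℝ) + 1) := by
            have : ((a : ℂ) + ((i : ℂ) + 1)) = (((a : ℝ) + ((i : ℝ) + 1) : ℝ) : ℂ) := by
              push_cast; ring
            rw [this, Complex.norm_real, Real.norm_of_nonneg (by positivity)]
          have h3 := norm_add_le z ((a : ℂ) + ((i : ℂ) + 1))
          rw [h2, ← add_assoc] at h3
          have h4 : (i : ℝ) + 1 ≤ b := by exact_mod_cast hi
          linarith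
      _ = _ := by rw [prod_const, card_range]
  have h2 := norm_sub_le (∏ i ∈ range b, (z + a + ((i : ℂ) + 1))) 1
  rw [norm_one] at h2
  have h3 : (2 * a + b + 1 : ℝ) ^ b + 1 ≤ (2 * a + b + 2 : ℝ) ^ b := by
    have h4 : (2 * a + b + 1 : ℝ) ^ b + 1 ^ b ≤ ((2 * a + b + 1 : ℝ) + 1) ^ b :=
      pow_add_pow_le (by positivity) (by norm_num) (by omega)
    rw [one_pow] at h4
    have h5 : ((2 * a + b + 1 : ℝ) + 1) = 2 * a + b + 2 := by ring
    rwa [h5] at h4
  linarith

lemma res_bound {a b : ℕ} (ha : 1 ≤ a) (hb : 1 ≤ b) :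
    |((resultant (P a) (Q a b) : ℤ) : ℝ)| ≤ (2 * a + b + 2 : ℝ) ^ (a * b) := by
  have h2 := resultant_map_map (P a) (Q a b) (P a).natDegree (Q a b).natDegree (Int.castRingHom ℂ)
  have h3 := resultant_eq_prod_eval ((P a).map (Int.castRingHom ℂ))
    ((Q a b).map (Int.castRingHom ℂ)) (Q a b).natDegree
    (le_of_eq (natDegree_map_eq_of_injective Int.cast_injective _)) (IsAlgClosed.splits _)
  rw [natDegree_map_eq_of_injective Int.cast_injective] at h3
  rw [h2, ((P_monic ha).map _).leadingCoeff, one_pow, one_mul, eq_intCast] at h3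
  have h4 : |((resultant (P a) (Q a b) : ℤ) : ℝ)| = ‖((resultant (P a) (Q a b) : ℤ) : ℂ)‖ := by
    rw [Complex.norm_intCast]
  rw [h4, h3]
  have hne : (P a).map (Int.castRingHom ℂ) ≠ 0 := ((P_monic ha).map _).ne_zero
  have h5 := norm_prod_le ((P a).map (Int.castRingHom ℂ)).roots
    (fun z => ((Q a b).map (Int.castRingHom ℂ)).eval z) ((2 * a + b + 2 : ℝ) ^ b) (by positivity)
    (fun z hz => Q_norm hb (root_norm ha ((mem_roots hne).1 hz)))
  have h6 : ((P a).map (Int.castRingHom ℂ)).roots.card = a := by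
    rw [← (IsAlgClosed.splits ((P a).map (Int.castRingHom ℂ))).natDegree_eq_card_roots,
      natDegree_map_eq_of_injective Int.cast_injective, P_natDegree ha]
  rw [h6, ← pow_mul, mul_comm b a] at h5
  exact h5

/-- The common roots of `P a` and `Q a b` modulo `p` among `1, ..., p - 1`. -/
def croots (a b p : ℕ) : Finset ℕ :=
  (Finset.Ico 1 p).filter fun n => (p : ℤ) ∣ ∏ i ∈ range a, ((n : ℤ) + ((i : ℤ) + 1)) - 1 ∧
    (p : ℤ) ∣ ∏ i ∈ range b, ((n : ℤ) + a + ((i : ℤ) + 1)) - 1

lemma pow_dvd_res {a b p : ℕ} (ha : 1 ≤ a) (hb : 1 ≤ b) (hp : p.Prime) :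
    (p : ℤ) ^ (croots a b p).card ∣ resultant (P a) (Q a b) := by
  have hinj : Function.Injective (fun n : ℕ => (n : ℤ)) := Nat.cast_injective
  have hcard : ((croots a b p).image (fun n : ℕ => (n : ℤ))).card = (croots a b p).card :=
    card_image_of_injective _ hinj
  have hsep : ∀ c ∈ (croots a b p).image (fun n : ℕ => (n : ℤ)),
      ∀ d ∈ (croots a b p).image (fun n : ℕ => (n : ℤ)), (p : ℤ) ∣ c - d → c = d := by
    intro c hc d hd h
    rw [mem_image] at hc hd
    obtain ⟨c, hc, rfl⟩ := hc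
    obtain ⟨d, hd, rfl⟩ := hd
    simp only [croots, mem_filter, Finset.mem_Ico] at hc hd
    have h1 : (c : ℤ) - d = 0 := by
      apply Int.eq_zero_of_abs_lt_dvd h
      rw [abs_lt]
      constructor <;> omega
    omega
  have hf : ∀ c ∈ (croots a b p).image (fun n : ℕ => (n : ℤ)), (p : ℤ) ∣ (P a).eval c := by
    intro c hc
    rw [mem_image] at hc
    obtain ⟨c, hc, rfl⟩ := hc
    simp only [croots, mem_filter] at hc
    rw [P_eval]
    exact hc.2.1
  have hg : ∀ c ∈ (croots a b p).image (fun n : ℕ => (n : ℤ)), (p : ℤ) ∣ (Q a b).eval c := by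
    intro c hc
    rw [mem_image] at hc
    obtain ⟨c, hc, rfl⟩ := hc
    simp only [croots, mem_filter] at hc
    rw [Q_eval]
    exact hc.2.2
  -- the number of roots modulo `p` of the monic polynomial `P a`
  have hle : ((croots a b p).image (fun n : ℕ => (n : ℤ))).card ≤ (P a).natDegree := by
    have : Fact p.Prime := ⟨hp⟩
    have hmon : ((P a).map (Int.castRingHom (ZMod p))).Monic := (P_monic ha).map _
    have hdeg : ((P a).map (Int.castRingHom (ZMod p))).natDegree = (P a).natDegree :=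
      (P_monic ha).natDegree_map _
    rw [← hdeg]
    calc ((croots a b p).image (fun n : ℕ => (n : ℤ))).card
        = (((croots a b p).image (fun n : ℕ => (n : ℤ))).image
            (fun z : ℤ => (z : ZMod p))).card := by
          symm
          apply card_image_of_injOn
          intro c hc d hd h
          simp only at h
          apply hsep c hc d hd
          rw [← ZMod.intCast_zmod_eq_zero_iff_dvd]
          push_cast
          rw [h, sub_self]
      _ ≤ ((P a).map (Int.castRingHom (ZMod p))).roots.toFinset.card := by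
          apply card_le_card
          intro w hw
          rw [mem_image] at hw
          obtain ⟨z, hz, rfl⟩ := hw
          rw [Multiset.mem_toFinset, mem_roots hmon.ne_zero, IsRoot.def]
          have := hf z hz
          rw [← ZMod.intCast_zmod_eq_zero_iff_dvd] at this
          rw [← this]
          simp [eval_map]
      _ ≤ _ := (Multiset.toFinset_card_le _).trans (card_roots' _)
  have := pow_dvd_resultant hp _ hsep hf hg (hle.trans (Nat.le_add_right _ _))
  rwa [hcard] at this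

/-- Counting the common roots over a finite set of primes exceeding `y`. -/
lemma sum_croots {a b : ℕ} (ha : 1 ≤ a) (hb : 1 ≤ b) (S : Finset ℕ) (hS : ∀ p ∈ S, p.Prime)
    {y : ℝ} (hy : 1 < y) (hSy : ∀ p ∈ S, y ≤ (p : ℝ)) :
    (∑ p ∈ S, ((croots a b p).card : ℝ)) * Real.log y ≤ a * b * Real.log (2 * a + b + 2) := by
  have hdvd : ∏ p ∈ S, ((p : ℤ) ^ (croots a b p).card) ∣ resultant (P a) (Q a b) := by
    apply Finset.prod_dvd_of_coprime
    · intro p hp q hq hpq
      apply IsCoprime.pow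
      rw [Nat.isCoprime_iff_coprime]
      exact (Nat.coprime_primes (hS p hp) (hS q hq)).2 hpq
    · intro p hp
      exact pow_dvd_res ha hb (hS p hp)
  have hle : |∏ p ∈ S, ((p : ℤ) ^ (croots a b p).card)| ≤ |resultant (P a) (Q a b)| :=
    Int.le_of_dvd (abs_pos.2 (res_ne_zero ha hb)) ((abs_dvd_abs _ _).2 hdvd)
  have h1 : ∏ p ∈ S, ((p : ℝ) ^ (croots a b p).card) ≤ (2 * a + b + 2 : ℝ) ^ (a * b) := by
    refine le_trans ?_ (res_bound ha hb)
    have h2 : (|∏ p ∈ S, ((p : ℤ) ^ (croots a b p).card)| : ℤ)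
        = ∏ p ∈ S, ((p : ℤ) ^ (croots a b p).card) :=
      abs_of_nonneg (prod_nonneg fun p _ => by positivity)
    rw [h2] at hle
    have h3 : ((∏ p ∈ S, ((p : ℤ) ^ (croots a b p).card) : ℤ) : ℝ)
        ≤ ((|resultant (P a) (Q a b)| : ℤ) : ℝ) := by exact_mod_cast hle
    push_cast at h3
    exact h3
  have h2 : ∏ p ∈ S, (y ^ (croots a b p).card) ≤ ∏ p ∈ S, ((p : ℝ) ^ (croots a b p).card) := by
    apply prod_le_prod (fun _ _ => by positivity)
    intro p hp
    exact pow_le_pow_left₀ (by positivity) (hSy p hp) _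
  have h3 := Real.log_le_log (prod_pos fun _ _ => by positivity) (h2.trans h1)
  rw [Real.log_pow, prod_pow_eq_pow_sum, Real.log_pow] at h3
  push_cast at h3
  linarith

end Pool.Agent.Helper7.FR
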