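import Pool.Agent.Helper7.FR.A3

/-!
Factorial residues for almost all primes, part 4: triples of equal factorials in a short window.
-/

set_option autoImplicit false

namespace Pool.Agent.Helper7.FR

open Finset
open scoped Nat

/-- The triples `(n, a, b)` with `a, b ≥ 1`, `a + b < H` and `n! = (n+a)! = (n+a+b)!` mod `p`. -/
def Tr (p H : ℕ) : Finset (ℕ × ℕ × ℕ) :=
  (Finset.Ico 1 p ×ˢ (Finset.Ico 1 H ×ˢ Finset.Ico 1 H)).filter
    fun t => t.2.1 + t.2.2 < H ∧ t.1 ∈ croots t.2.1 t.2.2 p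

lemma card_Tr_le (p H : ℕ) : (Tr p H).card ≤
    ∑ ab ∈ (Finset.Ico 1 H ×ˢ Finset.Ico 1 H).filter (fun ab => ab.1 + ab.2 < H),
      (croots ab.1 ab.2 p).card := by
  classical
  rw [← card_sigma]
  apply card_le_card_of_injOn (fun t => (⟨t.2, t.1⟩ : Σ _ : ℕ × ℕ, ℕ))
  · intro t ht
    simp only [Tr, coe_filter, mem_product, Finset.mem_Ico, Set.mem_ofPred_eq] at ht
    simp only [coe_sigma, Set.mem_sigma_iff, coe_filter, mem_product, Finset.mem_Ico,
      Set.mem_ofPred_eq, mem_coe]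
    exact ⟨⟨ht.1.2, ht.2.1⟩, ht.2.2⟩
  · intro t _ s _ h
    simp only [Sigma.mk.injEq, heq_eq_eq] at h
    exact Prod.ext h.2 h.1

lemma prod_fact (n a : ℕ) : ((n + a)! : ℤ) = (n ! : ℤ) * ∏ i ∈ range a, ((n : ℤ) + ((i : ℤ) + 1)) := by
  induction a with
  | zero => simp
  | succ a ih =>
    rw [prod_range_succ, ← mul_assoc, ← ih, ← Nat.add_assoc, Nat.factorial_succ]
    push_cast
    ring

lemma dvd_of_eq_fact {p n a : ℕ} (hp : p.Prime) (hn : n < p) {lam : ℤ}
    (h1 : (p : ℤ) ∣ (n ! : ℤ) - lam) (h2 : (p : ℤ) ∣ ((n + a)! : ℤ) - lam) :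
    (p : ℤ) ∣ ∏ i ∈ range a, ((n : ℤ) + ((i : ℤ) + 1)) - 1 := by
  have h3 : (p : ℤ) ∣ (n ! : ℤ) * (∏ i ∈ range a, ((n : ℤ) + ((i : ℤ) + 1)) - 1) := by
    have : (n ! : ℤ) * (∏ i ∈ range a, ((n : ℤ) + ((i : ℤ) + 1)) - 1)
        = (((n + a)! : ℤ) - lam) - ((n ! : ℤ) - lam) := by
      rw [prod_fact]; ring
    rw [this]
    exact dvd_sub h2 h1
  rcases (Nat.prime_iff_prime_int.1 hp).dvd_or_dvd h3 with h | h
  · exfalso
    have h4 : p ∣ n ! := by exact_mod_cast h
    rw [hp.dvd_factorial] at h4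
    omega
  · exact h

/-- In a block of length `H` all but two of the solutions give rise to a triple. -/
lemma block_le {p H L : ℕ} (hp : p.Prime) {lam : ℤ} (B : Finset ℕ) (X : Finset (ℕ × ℕ × ℕ))
    (hB : ∀ n ∈ B, 1 ≤ n ∧ n < p ∧ L < n ∧ n ≤ L + H ∧ (p : ℤ) ∣ (n ! : ℤ) - lam)
    (hX : ∀ n ∈ B, ∀ a b, (n, a, b) ∈ Tr p H → (n, a, b) ∈ X) :
    B.card ≤ 2 + X.card := by
  classical
  by_cases hc : B.card ≤ 2
  · omega
  push Not at hc
  have hBne : B.Nonempty := card_pos.1 (by omega)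
  set n0 := B.min' hBne with hn0
  have hn0B : n0 ∈ B := min'_mem _ _
  have hc1 : (B.erase n0).card = B.card - 1 := card_erase_of_mem hn0B
  have hB1ne : (B.erase n0).Nonempty := card_pos.1 (by omega)
  set n1 := (B.erase n0).min' hB1ne with hn1
  have hn1B : n1 ∈ B.erase n0 := min'_mem _ _
  have hc2 : ((B.erase n0).erase n1).card = B.card - 2 := by
    rw [card_erase_of_mem hn1B, hc1]; omega
  have hn1B' : n1 ∈ B := mem_of_mem_erase hn1B
  have hlt01 : n0 < n1 := lt_of_le_of_ne (min'_le _ _ hn1B') (ne_of_mem_erase hn1B).symm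
  have hlt : ∀ l ∈ (B.erase n0).erase n1, n1 < l := by
    intro l hl
    exact lt_of_le_of_ne (min'_le _ _ (mem_of_mem_erase hl)) (ne_of_mem_erase hl).symm
  have key : ((B.erase n0).erase n1).card ≤ X.card := by
    apply card_le_card_of_injOn (fun l => (n0, n1 - n0, l - n1))
    · intro l hl
      have hl' := hlt l hl
      have hlB : l ∈ B := mem_of_mem_erase (mem_of_mem_erase hl)
      apply hX n0 hn0B
      obtain ⟨g1, g2, g3, g4, g5⟩ := hB n0 hn0B
      obtain ⟨i1, i2, i3, i4, i5⟩ := hB n1 hn1B'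
      obtain ⟨j1, j2, j3, j4, j5⟩ := hB l hlB
      simp only [Tr, croots, mem_filter, mem_product, Finset.mem_Ico]
      refine ⟨⟨⟨g1, g2⟩, ⟨by omega, by omega⟩, by omega, by omega⟩, by omega, ⟨g1, g2⟩, ?_, ?_⟩
      · apply dvd_of_eq_fact hp g2 g5
        rw [show n0 + (n1 - n0) = n1 by omega]
        exact i5
      · have h := dvd_of_eq_fact (a := l - n1) hp i2 i5
          (by rw [show n1 + (l - n1) = l by omega]; exact j5)
        have he : ((n0 : ℤ) + ((n1 - n0 : ℕ) : ℤ)) = (n1 : ℤ) := by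
          rw [Nat.cast_sub hlt01.le]; ring
        rw [he]
        exact h
    · intro l hl m hm h
      have := hlt l hl
      have := hlt m hm
      simp only [Prod.mk.injEq, true_and] at h
      omega
  omega

/-- The bound for one prime: at most two solutions per block of length `H`, up to the number of
triples. -/
theorem sols_le {p H : ℕ} (hp : p.Prime) (hH : 1 ≤ H) (lam : ℤ) (M N : ℕ) (hMN : M + N < p) :
    ((Finset.Ioc M (M + N)).filter fun n => (p : ℤ) ∣ (n ! : ℤ) - lam).card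
      ≤ 2 * ((N + H - 1) / H) + (Tr p H).card := by
  classical
  set S := (Finset.Ioc M (M + N)).filter fun n => (p : ℤ) ∣ (n ! : ℤ) - lam with hS
  let blk : ℕ → ℕ := fun n => (n - M - 1) / H
  set K := (N + H - 1) / H with hK
  have hmaps : ∀ n ∈ S, blk n ∈ range K := by
    intro n hn
    rw [hS, mem_filter, Finset.mem_Ioc] at hn
    rw [mem_range]
    simp only [blk, hK]
    rw [Nat.div_lt_iff_lt_mul hH]
    have h1 : N ≤ (N + H - 1) / H * H := by
      have := Nat.div_add_mod (N + H - 1) H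
      have h2 := Nat.mod_lt (N + H - 1) hH
      rw [mul_comm] at this
      omega
    omega
  have h1 : S.card = ∑ j ∈ range K, (S.filter fun n => blk n = j).card :=
    card_eq_sum_card_fiberwise hmaps
  have h2 : ∀ j ∈ range K, (S.filter fun n => blk n = j).card
      ≤ 2 + ((Tr p H).filter fun t => blk t.1 = j).card := by
    intro j _
    apply block_le (H := H) (L := M + j * H) (lam := lam) hp
    · intro n hn
      rw [mem_filter, hS, mem_filter, Finset.mem_Ioc] at hn
      obtain ⟨⟨⟨k1, k2⟩, k3⟩, k4⟩ := hn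
      simp only [blk] at k4
      have h3 : j * H + (n - M - 1) % H = n - M - 1 := by
        rw [← k4, mul_comm]
        exact Nat.div_add_mod _ _
      have h4 := Nat.mod_lt (n - M - 1) hH
      generalize j * H = jH at h3 ⊢
      refine ⟨by omega, by omega, by omega, by omega, k3⟩
    · intro n hn a b hab
      rw [mem_filter] at hn
      rw [mem_filter]
      exact ⟨hab, hn.2⟩
  have h3 : ∑ j ∈ range K, ((Tr p H).filter fun t => blk t.1 = j).card ≤ (Tr p H).card := by
    rw [← card_biUnion]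
    · apply card_le_card
      intro t ht
      rw [mem_biUnion] at ht
      obtain ⟨j, _, hj⟩ := ht
      exact (mem_filter.1 hj).1
    · intro i _ j _ hij
      simp only [Function.onFun]
      rw [disjoint_left]
      intro t ht1 ht2
      rw [mem_filter] at ht1 ht2
      exact hij (ht1.2.symm.trans ht2.2)
  calc S.card = ∑ j ∈ range K, (S.filter fun n => blk n = j).card := h1
    _ ≤ ∑ j ∈ range K, (2 + ((Tr p H).filter fun t => blk t.1 = j).card) := sum_le_sum h2
    _ = 2 * K + ∑ j ∈ range K, ((Tr p H).filter fun t => blk t.1 = j).card := by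
        rw [sum_add_distrib, sum_const, card_range, smul_eq_mul, mul_comm]
    _ ≤ _ := by omega

/-- The number of triples, summed over a set of primes that are at least `y`. -/
theorem sum_Tr (S : Finset ℕ) (hS : ∀ p ∈ S, p.Prime) {y : ℝ} (hy : 1 < y)
    (hSy : ∀ p ∈ S, y ≤ (p : ℝ)) (H : ℕ) (hH : 1 ≤ H) :
    (∑ p ∈ S, ((Tr p H).card : ℝ)) * Real.log y ≤ (H : ℝ) ^ 4 * Real.log (2 * H) := by
  have h1 : ∑ p ∈ S, ((Tr p H).card : ℝ) ≤
      ∑ ab ∈ (Finset.Ico 1 H ×ˢ Finset.Ico 1 H).filter (fun ab => ab.1 + ab.2 < H),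
        ∑ p ∈ S, ((croots ab.1 ab.2 p).card : ℝ) := by
    rw [sum_comm]
    apply sum_le_sum
    intro p _
    have := card_Tr_le p H
    exact_mod_cast this
  have hlog : 0 < Real.log y := Real.log_pos hy
  have hH2 : (1 : ℝ) ≤ H := by exact_mod_cast hH
  have hlH : 0 ≤ Real.log (2 * H) := Real.log_nonneg (by linarith)
  calc (∑ p ∈ S, ((Tr p H).card : ℝ)) * Real.log y
      ≤ (∑ ab ∈ (Finset.Ico 1 H ×ˢ Finset.Ico 1 H).filter (fun ab => ab.1 + ab.2 < H),
        ∑ p ∈ S, ((croots ab.1 ab.2 p).card : ℝ)) * Real.log y :=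
        mul_le_mul_of_nonneg_right h1 hlog.le
    _ = ∑ ab ∈ (Finset.Ico 1 H ×ˢ Finset.Ico 1 H).filter (fun ab => ab.1 + ab.2 < H),
        (∑ p ∈ S, ((croots ab.1 ab.2 p).card : ℝ)) * Real.log y := by rw [sum_mul]
    _ ≤ ∑ ab ∈ (Finset.Ico 1 H ×ˢ Finset.Ico 1 H).filter (fun ab => ab.1 + ab.2 < H),
        (H : ℝ) * H * Real.log (2 * H) := by
        apply sum_le_sum
        intro ab hab
        simp only [mem_filter, mem_product, Finset.mem_Ico] at hab
        obtain ⟨⟨⟨k1, k2⟩, k3, k4⟩, k5⟩ := hab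
        refine (sum_croots k1 k3 S hS hy hSy).trans ?_
        have e1 : (ab.1 : ℝ) ≤ H := by exact_mod_cast k2.le
        have e2 : (ab.2 : ℝ) ≤ H := by exact_mod_cast k4.le
        have e3 : (ab.1 : ℝ) + ab.2 + 1 ≤ H := by exact_mod_cast k5
        have e4 : (1 : ℝ) ≤ ab.2 := by exact_mod_cast k3
        have e5 : (2 * (ab.1 : ℝ) + ab.2 + 2) ≤ 2 * H := by linarith
        have e6 : Real.log (2 * (ab.1 : ℝ) + ab.2 + 2) ≤ Real.log (2 * H) :=
          Real.log_le_log (by positivity) e5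
        have e7 : 0 ≤ Real.log (2 * (ab.1 : ℝ) + ab.2 + 2) :=
          Real.log_nonneg (by
            have : (0 : ℝ) ≤ ab.1 := by positivity
            linarith)
        calc (ab.1 : ℝ) * ab.2 * Real.log (2 * ab.1 + ab.2 + 2)
            ≤ (H * H) * Real.log (2 * H) :=
              mul_le_mul (mul_le_mul e1 e2 (by positivity) (by positivity)) e6 e7 (by positivity)
          _ = _ := by ring
    _ ≤ (H : ℝ) ^ 4 * Real.log (2 * H) := by
        rw [sum_const, nsmul_eq_mul]
        have hc : (((Finset.Ico 1 H ×ˢ Finset.Ico 1 H).filter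
            (fun ab => ab.1 + ab.2 < H)).card : ℝ) ≤ (H : ℝ) * H := by
          have h3 := card_filter_le (Finset.Ico 1 H ×ˢ Finset.Ico 1 H)
            (fun ab => ab.1 + ab.2 < H)
          rw [card_product, Nat.card_Ico] at h3
          have h4 : (H - 1) * (H - 1) ≤ H * H := Nat.mul_le_mul (Nat.sub_le _ _) (Nat.sub_le _ _)
          exact_mod_cast h3.trans h4
        calc _ ≤ ((H : ℝ) * H) * (H * H * Real.log (2 * H)) :=
              mul_le_mul_of_nonneg_right hc (by positivity)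
          _ = _ := by ring

end Pool.Agent.Helper7.FR
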