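import Pool.Agent.Helper7.FR.A4

/-!
Factorial residues for almost all primes, part 5: the final bounds.
-/

set_option autoImplicit false

namespace Pool.Agent.Helper7.FR

open Finset
open scoped Nat

/-- The primes up to `x`. -/
def primesUpTo (x : ℕ) : Finset ℕ := (Finset.Icc 1 x).filter Nat.Prime

lemma mem_primesUpTo {x p : ℕ} : p ∈ primesUpTo x ↔ p.Prime ∧ p ≤ x := by
  simp only [primesUpTo, mem_filter, Finset.mem_Icc]
  constructor
  · rintro ⟨⟨_, h⟩, h'⟩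
    exact ⟨h', h⟩
  · rintro ⟨h, h'⟩
    exact ⟨⟨h.one_lt.le, h'⟩, h⟩

lemma card_primesUpTo (x : ℕ) : (primesUpTo x).card = Nat.primeCounting x := by
  rw [← Nat.primesLE_card_eq_primeCounting]
  congr 1
  ext p
  rw [mem_primesUpTo, Nat.mem_primesLE]
  tauto

/-- The number of `n` in `(M, M + N]` with `n! ≡ lam` modulo `p`. -/
def sols (p : ℕ) (lam : ℤ) (M N : ℕ) : ℕ :=
  ((Finset.Ioc M (M + N)).filter fun n => (p : ℤ) ∣ (n ! : ℤ) - lam).card

lemma sols_le_real {p H : ℕ} (hp : p.Prime) (hH : 1 ≤ H) (lam : ℤ) (M N : ℕ) (hMN : M + N < p) :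
    (sols p lam M N : ℝ) ≤ 2 * ((N : ℝ) / H + 1) + (Tr p H).card := by
  have h := sols_le hp hH lam M N hMN
  have h1 : (sols p lam M N : ℝ) ≤ 2 * (((N + H - 1) / H : ℕ) : ℝ) + (Tr p H).card := by
    exact_mod_cast h
  have h2 : (((N + H - 1) / H : ℕ) : ℝ) ≤ (N : ℝ) / H + 1 := by
    have h3 : (((N + H - 1) / H : ℕ) : ℝ) ≤ ((N + H - 1 : ℕ) : ℝ) / H := Nat.cast_div_le
    have hHr : (0 : ℝ) < H := by exact_mod_cast hH
    have h4 : ((N + H - 1 : ℕ) : ℝ) ≤ (N : ℝ) + H := by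
      have : N + H - 1 ≤ N + H := Nat.sub_le _ _
      exact_mod_cast this
    calc (((N + H - 1) / H : ℕ) : ℝ) ≤ ((N + H - 1 : ℕ) : ℝ) / H := h3
      _ ≤ ((N : ℝ) + H) / H := by gcongr
      _ = (N : ℝ) / H + 1 := by field_simp
  linarith

lemma sols_le_len (p : ℕ) (lam : ℤ) (M N : ℕ) : sols p lam M N ≤ N := by
  unfold sols
  refine (card_filter_le _ _).trans ?_
  rw [Nat.card_Ioc]
  omega

/-- The primes in `(√x, x]`. -/
noncomputable def bigPrimes (x : ℕ) : Finset ℕ := (primesUpTo x).filter fun p : ℕ => √(x : ℝ) < p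

lemma small_card (x : ℕ) :
    (((primesUpTo x).filter fun p : ℕ => ¬ √(x : ℝ) < (p : ℝ)).card : ℝ) ≤ √(x : ℝ) := by
  have h : ((primesUpTo x).filter fun p : ℕ => ¬ √(x : ℝ) < (p : ℝ)) ⊆ Finset.Icc 1 ⌊√(x : ℝ)⌋₊ := by
    intro p hp
    rw [mem_filter, mem_primesUpTo] at hp
    rw [Finset.mem_Icc]
    exact ⟨hp.1.1.one_lt.le, Nat.le_floor (not_lt.1 hp.2)⟩
  have h2 := card_le_card h
  rw [Nat.card_Icc, Nat.add_sub_cancel] at h2
  calc (((primesUpTo x).filter fun p : ℕ => ¬ √(x : ℝ) < (p : ℝ)).card : ℝ)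
      ≤ (⌊√(x : ℝ)⌋₊ : ℝ) := by exact_mod_cast h2
    _ ≤ √(x : ℝ) := Nat.floor_le (Real.sqrt_nonneg _)

lemma pi_bound {x : ℕ} (hx : 3 ≤ x) :
    ((primesUpTo x).card : ℝ) ≤ 5 * x / Real.log x := by
  have hxr : (3 : ℝ) ≤ x := by exact_mod_cast hx
  have hlog : 0 < Real.log x := Real.log_pos (by linarith)
  have h := Chebyshev.pi_le_log4_mul_div (x := (x : ℝ)) (by linarith)
  rw [Nat.floor_natCast, Real.log_sqrt (by positivity)] at h
  rw [card_primesUpTo]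
  have h1 : Real.log x ≤ 2 * √(x : ℝ) := by
    have h2 := Real.log_le_sub_one_of_pos (x := √(x : ℝ)) (Real.sqrt_pos.2 (by linarith))
    rw [Real.log_sqrt (by positivity)] at h2
    linarith
  have h3 : √(x : ℝ) ≤ 2 * x / Real.log x := by
    rw [le_div_iff₀ hlog]
    have h4 : √(x : ℝ) * √(x : ℝ) = x := Real.mul_self_sqrt (by positivity)
    nlinarith [Real.sqrt_nonneg (x : ℝ)]
  have h5 : Real.log 4 ≤ 1.4 := by
    have h6 : Real.log 4 = 2 * Real.log 2 := by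
      rw [show (4 : ℝ) = 2 ^ 2 by norm_num, Real.log_pow]; norm_num
    have := Real.log_two_lt_d9
    rw [h6]; linarith
  have h6 : Real.log 4 * x / (Real.log x / 2) = 2 * Real.log 4 * x / Real.log x := by
    field_simp
  rw [h6] at h
  calc ((Nat.primeCounting x : ℕ) : ℝ) ≤ 2 * Real.log 4 * x / Real.log x + √(x : ℝ) := h
    _ ≤ 2 * 1.4 * x / Real.log x + 2 * x / Real.log x := by
        gcongr
    _ ≤ 5 * x / Real.log x := by
        rw [← add_div]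
        apply div_le_div_of_nonneg_right _ hlog.le
        linarith

/-- The mean value bound. -/
theorem mean_bound {x : ℕ} (hx : 3 ≤ x) (lam : ℕ → ℤ) :
    ∑ p ∈ primesUpTo x, (sols p (lam p) 0 (p - 1) : ℝ)
      ≤ 50 * (x : ℝ) ^ (8 / 5 : ℝ) / Real.log x ^ (4 / 5 : ℝ) := by
  have hxr : (3 : ℝ) ≤ x := by exact_mod_cast hx
  have hx0 : (0 : ℝ) < x := by linarith
  set L := Real.log x with hL
  have hL1 : 1 ≤ L := by
    rw [hL, Real.le_log_iff_exp_le hx0]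
    linarith [Real.exp_one_lt_d9]
  have hL0 : 0 < L := by linarith
  have hLx : L ≤ x := (Real.log_le_sub_one_of_pos hx0).trans (by linarith)
  -- the window
  set z := (x : ℝ) ^ (2 / 5 : ℝ) / L ^ (1 / 5 : ℝ) with hz
  have hLp : (0 : ℝ) < L ^ (1 / 5 : ℝ) := Real.rpow_pos_of_pos hL0 _
  have hz1 : 1 ≤ z := by
    rw [hz, le_div_iff₀ hLp, one_mul]
    calc L ^ (1 / 5 : ℝ) ≤ (x : ℝ) ^ (1 / 5 : ℝ) := Real.rpow_le_rpow hL0.le hLx (by norm_num)
      _ ≤ (x : ℝ) ^ (2 / 5 : ℝ) := Real.rpow_le_rpow_of_exponent_le (by linarith) (by norm_num)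
  have hzx : z ≤ x := by
    rw [hz, div_le_iff₀ hLp]
    have h1 : (1 : ℝ) ≤ L ^ (1 / 5 : ℝ) := Real.one_le_rpow hL1 (by norm_num)
    calc (x : ℝ) ^ (2 / 5 : ℝ) ≤ (x : ℝ) ^ (1 : ℝ) :=
          Real.rpow_le_rpow_of_exponent_le (by linarith) (by norm_num)
      _ = x * 1 := by rw [Real.rpow_one, mul_one]
      _ ≤ x * L ^ (1 / 5 : ℝ) := by gcongr
  set H := ⌊z⌋₊ with hH
  have hH1 : 1 ≤ H := by
    rw [hH]; exact Nat.le_floor (by simpa using hz1)
  have hHz : (H : ℝ) ≤ z := Nat.floor_le (by linarith)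
  have hzH : z ≤ 2 * H := by
    have h1 := Nat.lt_floor_add_one z
    rw [← hH] at h1
    have h2 : (1 : ℝ) ≤ H := by exact_mod_cast hH1
    linarith
  have hH0 : (0 : ℝ) < H := by exact_mod_cast hH1
  set R := (x : ℝ) ^ (8 / 5 : ℝ) / L ^ (4 / 5 : ℝ) with hR
  have hL4 : (0 : ℝ) < L ^ (4 / 5 : ℝ) := Real.rpow_pos_of_pos hL0 _
  have hR0 : 0 < R := div_pos (Real.rpow_pos_of_pos hx0 _) hL4
  have hz4 : z ^ 4 = R := by
    rw [hz, hR, div_pow, ← Real.rpow_natCast, ← Real.rpow_mul hx0.le, ← Real.rpow_natCast,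
      ← Real.rpow_mul hL0.le]
    norm_num
  have hzR : (x : ℝ) / L * (x / z) = R := by
    have e1 : (x : ℝ) * x = (x : ℝ) ^ (8 / 5 : ℝ) * (x : ℝ) ^ (2 / 5 : ℝ) := by
      rw [← Real.rpow_add hx0, show (8 / 5 + 2 / 5 : ℝ) = 2 by norm_num, Real.rpow_two]
      ring
    have e2 : L = L ^ (4 / 5 : ℝ) * L ^ (1 / 5 : ℝ) := by
      rw [← Real.rpow_add hL0]
      norm_num
    have hx25 : (0 : ℝ) < (x : ℝ) ^ (2 / 5 : ℝ) := Real.rpow_pos_of_pos hx0 _
    have e3 : (x : ℝ) / L * (x / z) = (x : ℝ) * x * L ^ (1 / 5 : ℝ) / (L * (x : ℝ) ^ (2 / 5 : ℝ)) := by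
      rw [hz]; field_simp
    rw [e3, e1, hR]
    rw [div_eq_div_iff (by positivity) hL4.ne']
    calc (x : ℝ) ^ (8 / 5 : ℝ) * (x : ℝ) ^ (2 / 5 : ℝ) * L ^ (1 / 5 : ℝ) * L ^ (4 / 5 : ℝ)
        = (x : ℝ) ^ (8 / 5 : ℝ) * (x : ℝ) ^ (2 / 5 : ℝ) * (L ^ (4 / 5 : ℝ) * L ^ (1 / 5 : ℝ)) := by
          ring
      _ = (x : ℝ) ^ (8 / 5 : ℝ) * (L * (x : ℝ) ^ (2 / 5 : ℝ)) := by
          rw [← e2]
          ring
  -- splitting
  rw [← sum_filter_add_sum_filter_not (primesUpTo x) (fun p : ℕ => √(x : ℝ) < (p : ℝ))]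
  have hsqrt1 : 1 < √(x : ℝ) := by
    rw [Real.lt_sqrt (by norm_num)]; linarith
  have hsmall : ∑ p ∈ (primesUpTo x).filter (fun p : ℕ => ¬ √(x : ℝ) < (p : ℝ)),
      (sols p (lam p) 0 (p - 1) : ℝ) ≤ 2 * R := by
    have h1 : ∑ p ∈ (primesUpTo x).filter (fun p : ℕ => ¬ √(x : ℝ) < (p : ℝ)),
        (sols p (lam p) 0 (p - 1) : ℝ) ≤ ∑ p ∈ (primesUpTo x).filter
          (fun p : ℕ => ¬ √(x : ℝ) < (p : ℝ)), √(x : ℝ) := by
      apply sum_le_sum
      intro p hp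
      rw [mem_filter] at hp
      have h2 := sols_le_len p (lam p) 0 (p - 1)
      have h3 : sols p (lam p) 0 (p - 1) ≤ p := h2.trans (Nat.sub_le _ _)
      have h4 : (sols p (lam p) 0 (p - 1) : ℝ) ≤ p := by exact_mod_cast h3
      exact h4.trans (not_lt.1 hp.2)
    rw [sum_const, nsmul_eq_mul] at h1
    have h2 := small_card x
    have h3 : (((primesUpTo x).filter fun p : ℕ => ¬ √(x : ℝ) < (p : ℝ)).card : ℝ) * √(x : ℝ)
        ≤ √(x : ℝ) * √(x : ℝ) := by gcongr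
    rw [Real.mul_self_sqrt hx0.le] at h3
    have h4 : (x : ℝ) ≤ 2 * R := by
      rw [hR, ← mul_div_assoc, le_div_iff₀ hL4]
      have h5 : L ≤ (x : ℝ) ^ (3 / 4 : ℝ) / (3 / 4 : ℝ) :=
        Real.log_le_rpow_div hx0.le (by norm_num)
      have h6 : L ^ (4 / 5 : ℝ) ≤ 2 * (x : ℝ) ^ (3 / 5 : ℝ) := by
        calc L ^ (4 / 5 : ℝ) ≤ (2 * (x : ℝ) ^ (3 / 4 : ℝ)) ^ (4 / 5 : ℝ) := by
              apply Real.rpow_le_rpow hL0.le _ (by norm_num)
              have : 0 < (x : ℝ) ^ (3 / 4 : ℝ) := Real.rpow_pos_of_pos hx0 _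
              rw [div_eq_mul_inv] at h5
              nlinarith
          _ = (2 : ℝ) ^ (4 / 5 : ℝ) * (x : ℝ) ^ (3 / 5 : ℝ) := by
              rw [Real.mul_rpow (by norm_num) (Real.rpow_nonneg hx0.le _), ← Real.rpow_mul hx0.le]
              norm_num
          _ ≤ 2 * (x : ℝ) ^ (3 / 5 : ℝ) := by
              have : (2 : ℝ) ^ (4 / 5 : ℝ) ≤ 2 ^ (1 : ℝ) :=
                Real.rpow_le_rpow_of_exponent_le (by norm_num) (by norm_num)
              rw [Real.rpow_one] at this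
              have : 0 < (x : ℝ) ^ (3 / 5 : ℝ) := Real.rpow_pos_of_pos hx0 _
              nlinarith
      calc (x : ℝ) * L ^ (4 / 5 : ℝ) ≤ x * (2 * (x : ℝ) ^ (3 / 5 : ℝ)) := by gcongr
        _ = 2 * ((x : ℝ) ^ (1 : ℝ) * (x : ℝ) ^ (3 / 5 : ℝ)) := by rw [Real.rpow_one]; ring
        _ = 2 * (x : ℝ) ^ (8 / 5 : ℝ) := by rw [← Real.rpow_add hx0]; norm_num
    linarith
  have hbig : ∑ p ∈ (primesUpTo x).filter (fun p : ℕ => √(x : ℝ) < (p : ℝ)),
      (sols p (lam p) 0 (p - 1) : ℝ) ≤ 44 * R := by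
    set S := (primesUpTo x).filter (fun p : ℕ => √(x : ℝ) < (p : ℝ)) with hS
    have hSp : ∀ p ∈ S, p.Prime := fun p hp => (mem_primesUpTo.1 (mem_filter.1 hp).1).1
    have h1 : ∑ p ∈ S, (sols p (lam p) 0 (p - 1) : ℝ)
        ≤ ∑ p ∈ S, (4 * (x : ℝ) / H + (Tr p H).card) := by
      apply sum_le_sum
      intro p hp
      have hpp := hSp p hp
      have hpx : p ≤ x := (mem_primesUpTo.1 (mem_filter.1 hp).1).2
      have h2 := sols_le_real hpp hH1 (lam p) 0 (p - 1) (by have := hpp.one_lt; omega)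
      have h3 : ((p - 1 : ℕ) : ℝ) ≤ x := by
        have : p - 1 ≤ x := by omega
        exact_mod_cast this
      have h4 : ((p - 1 : ℕ) : ℝ) / H ≤ x / H := by gcongr
      have h5 : (1 : ℝ) ≤ x / H := by
        rw [le_div_iff₀ hH0]; linarith
      have h6 : 4 * (x : ℝ) / H = 4 * (x / H) := by ring
      rw [h6]
      linarith
    rw [sum_add_distrib, sum_const, nsmul_eq_mul] at h1
    have h2 := sum_Tr S hSp hsqrt1 (fun p hp => (mem_filter.1 hp).2.le) H hH1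
    rw [Real.log_sqrt hx0.le, ← hL] at h2
    have h3 : Real.log (2 * H) ≤ 2 * L := by
      calc Real.log (2 * H) ≤ Real.log (x * x) := by
            apply Real.log_le_log (by positivity)
            have : (H : ℝ) ≤ x := hHz.trans hzx
            nlinarith
        _ = 2 * L := by rw [Real.log_mul hx0.ne' hx0.ne', hL]; ring
    have h4 : ∑ p ∈ S, ((Tr p H).card : ℝ) ≤ 4 * R := by
      have h5 : (H : ℝ) ^ 4 * Real.log (2 * H) ≤ R * (2 * L) := by
        rw [← hz4]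
        have : (H : ℝ) ^ 4 ≤ z ^ 4 := pow_le_pow_left₀ hH0.le hHz 4
        have h0 : 0 ≤ Real.log (2 * H) := Real.log_nonneg (by
          have : (1 : ℝ) ≤ H := by exact_mod_cast hH1
          linarith)
        exact mul_le_mul this h3 h0 (by positivity)
      nlinarith
    have h5 : (S.card : ℝ) * (4 * (x : ℝ) / H) ≤ 40 * R := by
      have h6 : (S.card : ℝ) ≤ 5 * x / L := by
        refine le_trans ?_ (pi_bound hx)
        exact_mod_cast card_filter_le _ _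
      have h7 : 4 * (x : ℝ) / H ≤ 8 * (x / z) := by
        rw [mul_div_assoc']
        rw [div_le_div_iff₀ hH0 (by linarith)]
        nlinarith
      calc (S.card : ℝ) * (4 * (x : ℝ) / H) ≤ (5 * x / L) * (8 * (x / z)) := by
            gcongr
        _ = 40 * (x / L * (x / z)) := by ring
        _ = 40 * R := by rw [hzR]
    linarith
  have hfin : 50 * (x : ℝ) ^ (8 / 5 : ℝ) / L ^ (4 / 5 : ℝ) = 50 * R := by
    rw [hR]; ring
  rw [hfin]
  linarith

end Pool.Agent.Helper7.FR
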