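import Pool.Agent.Helper7.FR.A5

/-!
Factorial residues for almost all primes, part 6: short intervals, for almost all primes.
-/

set_option autoImplicit false

namespace Pool.Agent.Helper7.FR

open Finset
open scoped Nat

open scoped Classical in
/-- The primes up to `x` for which some interval of length `N` contains more than
`2 + (4 + K) (N ^ 4 / p) ^ (1/5)` solutions of `n! ≡ lam`. -/
noncomputable def exceptional (K : ℝ) (x : ℕ) : Finset ℕ :=
  (primesUpTo x).filter fun p => ∃ (lam : ℤ) (M N : ℕ), M + N < p ∧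
    2 + (4 + K) * ((N : ℝ) ^ 4 / p) ^ (1 / 5 : ℝ) < (sols p lam M N : ℝ)

open scoped Classical in
/-- Primes with many triples at scale `2 ^ j`. -/
noncomputable def bad (K : ℝ) (x j : ℕ) : Finset ℕ :=
  ((primesUpTo x).filter fun p : ℕ => √(x : ℝ) < (p : ℝ)).filter
    fun p => K * ((2 ^ j : ℕ) : ℝ) ^ 4 / p < ((Tr p (2 ^ j)).card : ℝ)

lemma bad_card {K : ℝ} (hK : 0 < K) {x j : ℕ} (hx : 4 ≤ x)
    (hj : ((2 ^ j : ℕ) : ℝ) ≤ (x : ℝ) ^ (2 / 5 : ℝ)) :
    ((bad K x j).card : ℝ) ≤ 2 * (x / K) := by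
  classical
  have hxr : (4 : ℝ) ≤ x := by exact_mod_cast hx
  have hx0 : (0 : ℝ) < x := by linarith
  have hL : 0 < Real.log x := Real.log_pos (by linarith)
  have hsqrt1 : 1 < √(x : ℝ) := by
    rw [Real.lt_sqrt (by norm_num)]; linarith
  set H := 2 ^ j with hH
  have hH1 : 1 ≤ H := Nat.one_le_two_pow
  have hH0 : (0 : ℝ) < H := by exact_mod_cast hH1
  have hS : ∀ p ∈ bad K x j, p.Prime := fun p hp =>
    (mem_primesUpTo.1 (mem_filter.1 (mem_filter.1 hp).1).1).1
  have hSy : ∀ p ∈ bad K x j, √(x : ℝ) ≤ (p : ℝ) := fun p hp =>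
    (mem_filter.1 (mem_filter.1 hp).1).2.le
  have h1 := sum_Tr (bad K x j) hS hsqrt1 hSy H hH1
  rw [Real.log_sqrt hx0.le] at h1
  have h2 : ((bad K x j).card : ℝ) * (K * (H : ℝ) ^ 4 / x) ≤
      ∑ p ∈ bad K x j, ((Tr p H).card : ℝ) := by
    rw [← nsmul_eq_mul, ← sum_const]
    apply sum_le_sum
    intro p hp
    have h3 := (mem_filter.1 hp).2
    have hpp := (hS p hp).pos
    have hp0 : (0 : ℝ) < p := by exact_mod_cast hpp
    have hpx : (p : ℝ) ≤ x := by
      exact_mod_cast (mem_primesUpTo.1 (mem_filter.1 (mem_filter.1 hp).1).1).2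
    have h4 : K * (H : ℝ) ^ 4 / x ≤ K * (H : ℝ) ^ 4 / p := by gcongr
    exact h4.trans h3.le
  have h5 : Real.log (2 * H) ≤ 0.9 * Real.log x := by
    rw [Real.log_mul (by norm_num) hH0.ne']
    have h6 : Real.log H ≤ 2 / 5 * Real.log x := by
      rw [← Real.log_rpow hx0]
      exact Real.log_le_log hH0 hj
    have h7 : Real.log 2 ≤ Real.log x / 2 := by
      have : Real.log 4 ≤ Real.log x := Real.log_le_log (by norm_num) hxr
      rw [show (4 : ℝ) = 2 ^ 2 by norm_num, Real.log_pow] at this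
      push_cast at this
      linarith
    linarith
  have h6 : ∑ p ∈ bad K x j, ((Tr p H).card : ℝ) ≤ 2 * (H : ℝ) ^ 4 := by
    have h7 : (∑ p ∈ bad K x j, ((Tr p H).card : ℝ)) * (Real.log x / 2)
        ≤ (H : ℝ) ^ 4 * (0.9 * Real.log x) :=
      h1.trans (mul_le_mul_of_nonneg_left h5 (by positivity))
    have h8 : 0 ≤ (H : ℝ) ^ 4 := by positivity
    have h9 : (∑ p ∈ bad K x j, ((Tr p H).card : ℝ)) * (Real.log x / 2)
        ≤ (2 * (H : ℝ) ^ 4) * (Real.log x / 2) := by nlinarith [mul_nonneg h8 hL.le]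
    exact le_of_mul_le_mul_right h9 (by positivity)
  have h7 := h2.trans h6
  have h8 : (0 : ℝ) < (H : ℝ) ^ 4 := by positivity
  have h9 : ((bad K x j).card : ℝ) * (K / x) ≤ 2 := by
    have e : ((bad K x j).card : ℝ) * (K * (H : ℝ) ^ 4 / x)
        = (((bad K x j).card : ℝ) * (K / x)) * (H : ℝ) ^ 4 := by ring
    rw [e] at h7
    exact le_of_mul_le_mul_right h7 h8
  have h10 : ((bad K x j).card : ℝ) = (((bad K x j).card : ℝ) * (K / x)) * (x / K) := by
    field_simp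
  rw [h10]
  exact mul_le_mul_of_nonneg_right h9 (by positivity)

/-- The pointwise bound for a prime without bad scale. -/
lemma good_bound {K : ℝ} (hK : 0 < K) {x p : ℕ} (hp : p.Prime) (hpx : p ≤ x)
    (hgood : ∀ j : ℕ, ((2 ^ j : ℕ) : ℝ) ≤ (x : ℝ) ^ (2 / 5 : ℝ) →
      ((Tr p (2 ^ j)).card : ℝ) ≤ K * ((2 ^ j : ℕ) : ℝ) ^ 4 / p)
    (lam : ℤ) (M N : ℕ) (hMN : M + N < p) :
    (sols p lam M N : ℝ) ≤ 2 + (4 + K) * ((N : ℝ) ^ 4 / p) ^ (1 / 5 : ℝ) := by
  have hp0 : (0 : ℝ) < p := by exact_mod_cast hp.pos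
  have hx0 : (0 : ℝ) < x := by
    have : 0 < x := lt_of_lt_of_le hp.pos hpx
    exact_mod_cast this
  rcases Nat.eq_zero_or_pos N with rfl | hN
  · have h1 := sols_le_len p lam M 0
    have h2 : (sols p lam M 0 : ℝ) ≤ 0 := by exact_mod_cast h1
    have h3 : 0 ≤ (4 + K) * (((0 : ℕ) : ℝ) ^ 4 / p) ^ (1 / 5 : ℝ) := by positivity
    linarith
  have hN0 : (0 : ℝ) < N := by exact_mod_cast hN
  have hN1 : (1 : ℝ) ≤ N := by exact_mod_cast hN
  have hp1 : (1 : ℝ) ≤ p := by exact_mod_cast hp.one_lt.le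
  set z := ((N : ℝ) * p) ^ (1 / 5 : ℝ) with hz
  set w := ((N : ℝ) ^ 4 / p) ^ (1 / 5 : ℝ) with hw
  have hz0 : 0 < z := Real.rpow_pos_of_pos (by positivity) _
  have hw0 : 0 < w := Real.rpow_pos_of_pos (by positivity) _
  have hz5 : z ^ 5 = N * p := by
    rw [hz, ← Real.rpow_natCast, ← Real.rpow_mul (by positivity)]
    norm_num
  have hw5 : w ^ 5 = (N : ℝ) ^ 4 / p := by
    rw [hw, ← Real.rpow_natCast, ← Real.rpow_mul (by positivity)]
    norm_num
  have hzw : z * w = N := by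
    have h1 : (z * w) ^ 5 = (N : ℝ) ^ 5 := by
      rw [mul_pow, hz5, hw5]
      field_simp
    exact (pow_left_inj₀ (by positivity) (by positivity) (by norm_num)).1 h1
  have hz4 : z ^ 4 = w * p := by
    have h1 : (z ^ 4) ^ 5 = (w * p) ^ 5 := by
      rw [mul_pow, hw5, ← pow_mul, mul_comm 4 5, pow_mul, hz5]
      field_simp
    exact (pow_left_inj₀ (by positivity) (by positivity) (by norm_num)).1 h1
  have hz1 : 1 ≤ z := Real.one_le_rpow (by nlinarith) (by norm_num)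
  obtain ⟨j, hj1, hj2⟩ := exists_nat_pow_near hz1 (by norm_num : (1 : ℝ) < 2)
  have hH : ((2 ^ j : ℕ) : ℝ) = (2 : ℝ) ^ j := by push_cast; rfl
  have hzx : z ≤ (x : ℝ) ^ (2 / 5 : ℝ) := by
    have h1 : (N : ℝ) * p ≤ (x : ℝ) ^ (2 : ℝ) := by
      have h2 : (N : ℝ) ≤ x := by
        have : N ≤ x := by omega
        exact_mod_cast this
      have h3 : (p : ℝ) ≤ x := by exact_mod_cast hpx
      rw [Real.rpow_two]
      nlinarith
    calc z ≤ ((x : ℝ) ^ (2 : ℝ)) ^ (1 / 5 : ℝ) :=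
          Real.rpow_le_rpow (by positivity) h1 (by norm_num)
      _ = (x : ℝ) ^ (2 / 5 : ℝ) := by
          rw [← Real.rpow_mul hx0.le]; norm_num
  have hT := hgood j (by rw [hH]; exact hj1.trans hzx)
  have h1 := sols_le_real hp (Nat.one_le_two_pow (n := j)) lam M N hMN
  rw [hH] at hT h1
  set H := (2 : ℝ) ^ j with hHdef
  have hH0 : 0 < H := by positivity
  have h2 : (N : ℝ) / H ≤ 2 * w := by
    rw [div_le_iff₀ hH0, ← hzw]
    have : z ≤ 2 * H := by rw [pow_succ] at hj2; linarith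
    nlinarith
  have h3 : K * H ^ 4 / p ≤ K * w := by
    rw [div_le_iff₀ hp0, mul_assoc, ← hz4]
    have : H ^ 4 ≤ z ^ 4 := pow_le_pow_left₀ hH0.le hj1 4
    gcongr
  linarith

/-- The number of exceptional primes up to `x`. -/
theorem exceptional_card {K : ℝ} (hK : 0 < K) {x : ℕ} (hx : 4 ≤ x) :
    ((exceptional K x).card : ℝ) ≤ √(x : ℝ) + 2 * (x / K) * (1 + Real.log x) := by
  classical
  have hxr : (4 : ℝ) ≤ x := by exact_mod_cast hx
  have hx0 : (0 : ℝ) < x := by linarith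
  have hL : 0 < Real.log x := Real.log_pos (by linarith)
  set J := (range (⌊Real.log x⌋₊ + 1)).filter
    (fun j : ℕ => ((2 ^ j : ℕ) : ℝ) ≤ (x : ℝ) ^ (2 / 5 : ℝ)) with hJ
  have hsub : exceptional K x ⊆ ((primesUpTo x).filter fun p : ℕ => ¬ √(x : ℝ) < (p : ℝ)) ∪
      J.biUnion (fun j => bad K x j) := by
    intro p hp
    by_contra hnot
    rw [mem_union, not_or] at hnot
    obtain ⟨n1, n2⟩ := hnot
    simp only [exceptional, mem_filter] at hp
    obtain ⟨hpp, lam, M, N, hMN, hviol⟩ := hp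
    have hbig : √(x : ℝ) < (p : ℝ) := by
      by_contra h
      exact n1 (mem_filter.2 ⟨hpp, h⟩)
    have hgood : ∀ j : ℕ, ((2 ^ j : ℕ) : ℝ) ≤ (x : ℝ) ^ (2 / 5 : ℝ) →
        ((Tr p (2 ^ j)).card : ℝ) ≤ K * ((2 ^ j : ℕ) : ℝ) ^ 4 / p := by
      intro j hj
      by_contra hlt
      push Not at hlt
      apply n2
      rw [mem_biUnion]
      refine ⟨j, ?_, ?_⟩
      · rw [hJ, mem_filter]
        refine ⟨?_, hj⟩
        rw [mem_range, Nat.lt_succ_iff]
        apply Nat.le_floor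
        have h1 : Real.log ((2 ^ j : ℕ) : ℝ) ≤ Real.log ((x : ℝ) ^ (2 / 5 : ℝ)) :=
          Real.log_le_log (by positivity) hj
        rw [Real.log_rpow hx0] at h1
        push_cast at h1
        rw [Real.log_pow] at h1
        have h2 := Real.log_two_gt_d9
        have h3 : (0 : ℝ) ≤ j := by positivity
        nlinarith
      · simp only [bad, mem_filter]
        exact ⟨⟨hpp, hbig⟩, hlt⟩
    have := good_bound hK (mem_primesUpTo.1 hpp).1 (mem_primesUpTo.1 hpp).2 hgood lam M N hMN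
    linarith
  have h1 : ((exceptional K x).card : ℝ) ≤
      (((primesUpTo x).filter fun p : ℕ => ¬ √(x : ℝ) < (p : ℝ)).card : ℝ)
        + ∑ j ∈ J, ((bad K x j).card : ℝ) := by
    have h2 := (card_le_card hsub).trans (card_union_le _ _)
    have h3 : (J.biUnion (fun j => bad K x j)).card ≤ ∑ j ∈ J, (bad K x j).card :=
      card_biUnion_le
    have h4 := h2.trans (Nat.add_le_add_left h3 _)
    exact_mod_cast h4
  have h2 := small_card x
  have h3 : ∑ j ∈ J, ((bad K x j).card : ℝ) ≤ (J.card : ℝ) * (2 * (x / K)) := by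
    rw [← nsmul_eq_mul, ← sum_const]
    apply sum_le_sum
    intro j hj
    rw [hJ, mem_filter] at hj
    exact bad_card hK hx hj.2
  have h4 : (J.card : ℝ) ≤ 1 + Real.log x := by
    have h5 : J.card ≤ ⌊Real.log x⌋₊ + 1 := by
      have := card_filter_le (range (⌊Real.log x⌋₊ + 1))
        (fun j : ℕ => ((2 ^ j : ℕ) : ℝ) ≤ (x : ℝ) ^ (2 / 5 : ℝ))
      rwa [card_range] at this
    have h6 : (J.card : ℝ) ≤ (⌊Real.log x⌋₊ : ℝ) + 1 := by exact_mod_cast h5
    have h7 := Nat.floor_le hL.le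
    linarith
  have h5 : (J.card : ℝ) * (2 * (x / K)) ≤ (1 + Real.log x) * (2 * (x / K)) :=
    mul_le_mul_of_nonneg_right h4 (by positivity)
  linarith

end Pool.Agent.Helper7.FR
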