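import Mathlib

/-!
# Fraenkel's conjecture: the Fourier inequality for rational rates

`f i j = Int.fract (j * r i + θ i)`; if the family is an exact cover then `∑ i, f i j` does not
depend on `j`.
-/

open Finset Complex

namespace Pool.Agent.Helper7.FR

/-- `e(x) = exp(2πi x)`. -/
noncomputable def ee (x : ℝ) : ℂ := Complex.exp (2 * Real.pi * x * I)

lemma ee_add (x y : ℝ) : ee (x + y) = ee x * ee y := by
  unfold ee
  rw [← Complex.exp_add]
  congr 1
  push_cast
  ring

lemma ee_zero : ee 0 = 1 := by simp [ee]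

lemma ee_neg (x : ℝ) : ee (-x) * ee x = 1 := by
  rw [← ee_add, neg_add_cancel, ee_zero]

lemma ee_ne_zero (x : ℝ) : ee x ≠ 0 := Complex.exp_ne_zero _

lemma ee_eq_one_iff (x : ℝ) : ee x = 1 ↔ ∃ n : ℤ, x = n := by
  unfold ee
  rw [Complex.exp_eq_one_iff]
  constructor
  · rintro ⟨n, hn⟩
    refine ⟨n, ?_⟩
    have h2 : (2 * (Real.pi : ℂ) * I) ≠ 0 := by
      simp [Real.pi_ne_zero]
    have h1 : (2 * (Real.pi : ℂ) * I) * x = (2 * (Real.pi : ℂ) * I) * n := by
      linear_combination hn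
    have h3 := mul_left_cancel₀ h2 h1
    exact_mod_cast h3
  · rintro ⟨n, rfl⟩
    exact ⟨n, by push_cast; ring⟩

lemma ee_int (n : ℤ) : ee n = 1 := (ee_eq_one_iff _).2 ⟨n, rfl⟩

lemma ee_add_int (x : ℝ) (n : ℤ) : ee (x + n) = ee x := by
  rw [ee_add, ee_int, mul_one]

lemma norm_ee (x : ℝ) : ‖ee x‖ = 1 := by
  unfold ee
  rw [Complex.norm_exp]
  simp

lemma norm_ee_sub_one (x : ℝ) : ‖ee x - 1‖ = 2 * |Real.sin (Real.pi * x)| := by
  have h : ee x - 1 = ee (x/2) * (2 * I * Complex.sin (Real.pi * x)) := by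
    have h1 : ee x = ee (x/2) * ee (x/2) := by rw [← ee_add]; ring_nf
    have h2 : (1 : ℂ) = ee (x/2) * ee (-(x/2)) := by rw [← ee_add]; simp [ee_zero]
    have h3 : 2 * I * Complex.sin (Real.pi * x) = ee (x/2) - ee (-(x/2)) := by
      unfold ee
      rw [Complex.sin]
      have e1 : (2 * (Real.pi:ℂ) * ((x/2 : ℝ) : ℂ) * I) = Real.pi * x * I := by push_cast; ring
      have e2 : (2 * (Real.pi:ℂ) * ((-(x/2) : ℝ) : ℂ) * I) = -(Real.pi * x) * I := by
        push_cast; ring
      rw [e1, e2]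
      have : I * I = -1 := Complex.I_mul_I
      linear_combination (Complex.exp (-(Real.pi * x) * I) - Complex.exp (Real.pi * x * I)) * this
    rw [h3, mul_sub, ← h1, ← h2]
  rw [h, norm_mul, norm_ee, one_mul, norm_mul, norm_mul]
  have : (Complex.sin (Real.pi * x)) = ((Real.sin (Real.pi * x) : ℝ) : ℂ) := by push_cast; rfl
  rw [this, Complex.norm_real, Real.norm_eq_abs, Complex.norm_I]
  norm_num

/-- the sum over one period. -/
noncomputable def per (L : ℕ) (G : ℤ → ℂ) : ℂ := ∑ j ∈ Finset.range L, G j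

lemma per_shift_one {L : ℕ} {G : ℤ → ℂ} (hG : ∀ j, G (j + L) = G j) :
    per L (fun j => G (j + 1)) = per L G := by
  unfold per
  have h1 := Finset.sum_range_succ (fun j : ℕ => G j) L
  have h2 := Finset.sum_range_succ' (fun j : ℕ => G j) L
  have h3 := hG 0
  simp only [zero_add] at h3
  have h4 : (∑ k ∈ Finset.range L, G ((k + 1 : ℕ) : ℤ)) = ∑ j ∈ Finset.range L, G ((j:ℤ) + 1) := by
    refine Finset.sum_congr rfl fun j _ => ?_
    push_cast
    rfl
  rw [← h4]
  have h5 : (∑ k ∈ Finset.range L, G ((k + 1 : ℕ) : ℤ)) + G ((0:ℕ):ℤ) =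
      (∑ k ∈ Finset.range L, G (k : ℤ)) + G (L : ℤ) := by rw [← h1, ← h2]
  rw [h3] at h5
  simpa using h5

lemma per_shift {L : ℕ} {G : ℤ → ℂ} (hG : ∀ j, G (j + L) = G j) (s : ℕ) :
    per L (fun j => G (j + s)) = per L G := by
  induction s with
  | zero => simp
  | succ s ih =>
    rw [← ih]
    have := per_shift_one (L := L) (G := fun j => G (j + s)) (fun j => by
      have := hG (j + s)
      rw [← this]; ring_nf)
    rw [← this]
    congr 1
    funext j
    push_cast
    ring_nf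

lemma per_add (L : ℕ) (G H : ℤ → ℂ) : per L (fun j => G j + H j) = per L G + per L H := by
  unfold per; exact Finset.sum_add_distrib

lemma per_sub (L : ℕ) (G H : ℤ → ℂ) : per L (fun j => G j - H j) = per L G - per L H := by
  unfold per; exact Finset.sum_sub_distrib _ _

lemma per_mul_left (L : ℕ) (c : ℂ) (G : ℤ → ℂ) : per L (fun j => c * G j) = c * per L G := by
  unfold per; exact (Finset.mul_sum _ _ _).symm

lemma per_sum {ι : Type*} (s : Finset ι) (L : ℕ) (G : ι → ℤ → ℂ) :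
    per L (fun j => ∑ i ∈ s, G i j) = ∑ i ∈ s, per L (G i) := by
  unfold per; exact Finset.sum_comm

/-- a non trivial character has sum zero over a period. -/
lemma per_char {L : ℕ} {α : ℝ} (hL : ∃ m : ℤ, α * L = m) (hα : ¬ ∃ m : ℤ, α = m) :
    per L (fun j => ee (-(α * j))) = 0 := by
  obtain ⟨m, hm⟩ := hL
  have hG : ∀ j : ℤ, ee (-(α * ((j + L : ℤ) : ℝ))) = ee (-(α * (j:ℝ))) := by
    intro j
    have : -(α * ((j + L : ℤ) : ℝ)) = -(α * (j:ℝ)) + ((-m : ℤ) : ℝ) := by
      push_cast; rw [← hm]; ring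
    rw [this, ee_add_int]
  have h := per_shift_one (L := L) (G := fun j : ℤ => ee (-(α * (j:ℝ)))) hG
  have h2 : per L (fun j => ee (-(α * ((j + 1 : ℤ) : ℝ)))) = ee (-α) * per L (fun j => ee (-(α * j))) := by
    rw [← per_mul_left]
    congr 1
    funext j
    rw [← ee_add]
    congr 1
    push_cast
    ring
  rw [h2] at h
  have h3 : ee (-α) ≠ 1 := by
    intro h4
    obtain ⟨k, hk⟩ := (ee_eq_one_iff _).1 h4
    exact hα ⟨-k, by push_cast; linarith⟩
  have h5 : (ee (-α) - 1) * per L (fun j => ee (-(α * j))) = 0 := by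
    rw [sub_mul, one_mul, h, sub_self]
  rcases mul_eq_zero.1 h5 with h6 | h6
  · exact absurd (sub_eq_zero.1 h6) h3
  · exact h6

end Pool.Agent.Helper7.FR
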