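import Pool.Agent.Helper22.Weyl
import Pool.Agent.Helper7.FR.Cover

/-!
# Graham's theorem: in an exact cover with at least three distinct rates all rates are rational
-/

open Filter Topology Finset
open Pool.Agent.Helper22

namespace Pool.Agent.Helper7.FR

/-- mean value zero. -/
def Zc (h : ℕ → ℂ) : Prop :=
  Tendsto (fun N : ℕ => (∑ n ∈ range N, h n) / (N : ℂ)) atTop (𝓝 0)

lemma Zc_of_bdd {h : ℕ → ℂ} {C : ℝ} (hb : ∀ N, ‖∑ n ∈ range N, h n‖ ≤ C) : Zc h := by
  have h1 : Tendsto (fun N : ℕ => C / (N : ℝ)) atTop (𝓝 0) :=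
    tendsto_const_div_atTop_nhds_zero_nat C
  refine squeeze_zero_norm (fun N => ?_) h1
  rw [norm_div, Complex.norm_natCast]
  exact div_le_div_of_nonneg_right (hb N) (Nat.cast_nonneg N)

lemma Zc_mul_const {h : ℕ → ℂ} (hh : Zc h) (c : ℂ) : Zc (fun n => c * h n) := by
  have h1 := hh.const_mul c
  rw [mul_zero] at h1
  refine h1.congr fun N => ?_
  rw [← Finset.mul_sum, mul_div_assoc]

lemma Zc_add {h g : ℕ → ℂ} (hh : Zc h) (hg : Zc g) : Zc (fun n => h n + g n) := by
  have h1 := hh.add hg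
  rw [add_zero] at h1
  refine h1.congr fun N => ?_
  rw [Finset.sum_add_distrib, add_div]

lemma Zc_sum {ι : Type*} (s : Finset ι) {h : ι → ℕ → ℂ} (hh : ∀ i ∈ s, Zc (h i)) :
    Zc (fun n => ∑ i ∈ s, h i n) := by
  classical
  induction s using Finset.induction_on with
  | empty =>
    have : (fun n : ℕ => ∑ i ∈ (∅ : Finset ι), h i n) = fun _ => 0 := by funext n; simp
    rw [this]
    exact Zc_of_bdd (C := 0) (fun N => by simp)
  | insert a s ha ih =>
    have : (fun n : ℕ => ∑ i ∈ insert a s, h i n) = fun n => h a n + ∑ i ∈ s, h i n := by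
      funext n; rw [Finset.sum_insert ha]
    rw [this]
    exact Zc_add (hh a (Finset.mem_insert_self a s))
      (ih fun i hi => hh i (Finset.mem_insert_of_mem hi))

lemma ee_eq_one_iff' (x : ℝ) : Helper22.ee x = 1 ↔ ∃ n : ℤ, x = n := by
  constructor
  · intro h
    rw [Helper22.ee, Complex.exp_eq_one_iff] at h
    obtain ⟨n, hn⟩ := h
    refine ⟨n, ?_⟩
    have h2 : (2 * (Real.pi : ℂ) * Complex.I) ≠ 0 := by
      simp [Real.pi_ne_zero]
    have h1 : (2 * (Real.pi : ℂ) * Complex.I) * x = (2 * (Real.pi : ℂ) * Complex.I) * n := by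
      linear_combination hn
    have h3 := mul_left_cancel₀ h2 h1
    exact_mod_cast h3
  · rintro ⟨n, rfl⟩
    exact Helper22.ee_int n

lemma Zc_ee {β : ℝ} (hβ : ¬ ∃ m : ℤ, β = m) : Zc (fun n => Helper22.ee (β * n)) := by
  have h1 : Helper22.ee β - 1 ≠ 0 := by
    intro h
    exact hβ ((ee_eq_one_iff' β).1 (sub_eq_zero.1 h))
  refine Zc_of_bdd (C := 2 / ‖Helper22.ee β - 1‖) fun N => ?_
  rw [le_div_iff₀ (norm_pos_iff.2 h1), ← norm_mul]
  have h2 : ∑ n ∈ range N, Helper22.ee (β * n) = ∑ n ∈ range N, Helper22.ee β ^ n := by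
    refine Finset.sum_congr rfl fun n _ => ?_
    rw [mul_comm, Helper22.ee_nat_mul]
  rw [h2, geom_sum_mul]
  calc ‖Helper22.ee β ^ N - 1‖ ≤ ‖Helper22.ee β ^ N‖ + ‖(1:ℂ)‖ := norm_sub_le _ _
    _ = 2 := by rw [norm_pow, Helper22.norm_ee]; norm_num

/-- twisted averages of continuous functions. -/
lemma Zc_cont {r α θ : ℝ} (h : ∀ k : ℤ, ¬ ∃ m : ℤ, k * r + α = m) (f : C(UnitAddCircle, ℂ)) :
    Zc (fun n => f ((n * r + θ : ℝ) : UnitAddCircle) * Helper22.ee (α * n)) := by
  have hspan : ∀ g ∈ Submodule.span ℂ (Set.range (@fourier (1:ℝ))),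
      Zc (fun n => g ((n * r + θ : ℝ) : UnitAddCircle) * Helper22.ee (α * n)) := by
    intro g hg
    induction hg using Submodule.span_induction with
    | mem x hx =>
      obtain ⟨k, rfl⟩ := hx
      have h1 := Zc_mul_const (Zc_ee (h k)) (Helper22.ee (k * θ))
      have e : (fun n : ℕ => (fourier k : C(UnitAddCircle, ℂ)) ((n * r + θ : ℝ) : UnitAddCircle) *
          Helper22.ee (α * n)) =
          fun n : ℕ => Helper22.ee (k * θ) * Helper22.ee ((k * r + α) * n) := by
        funext n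
        rw [fourier_coe_eq, ← Helper22.ee_add, ← Helper22.ee_add]
        congr 1
        ring
      rw [e]
      exact h1
    | zero => exact Zc_of_bdd (C := 0) (fun N => by simp)
    | add x y _ _ hx hy =>
      have h1 := Zc_add hx hy
      refine h1.congr fun N => ?_
      congr 1
      refine Finset.sum_congr rfl fun n _ => ?_
      simp only [ContinuousMap.add_apply]; ring
    | smul c x _ hx =>
      have h1 := Zc_mul_const hx c
      refine h1.congr fun N => ?_
      congr 1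
      refine Finset.sum_congr rfl fun n _ => ?_
      simp only [ContinuousMap.smul_apply, smul_eq_mul]; ring
  unfold Zc
  rw [Metric.tendsto_atTop]
  intro ε hε
  have hf : f ∈ (Submodule.span ℂ (Set.range (@fourier (1:ℝ)))).topologicalClosure := by
    rw [span_fourier_closure_eq_top]; trivial
  have hf' : f ∈ closure ((Submodule.span ℂ (Set.range (@fourier (1:ℝ))) :
      Submodule ℂ C(UnitAddCircle, ℂ)) : Set C(UnitAddCircle, ℂ)) := hf
  rw [Metric.mem_closure_iff] at hf'
  obtain ⟨g, hg, hfg⟩ := hf' (ε / 2) (by positivity)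
  have hg2 := hspan g hg
  unfold Zc at hg2
  rw [Metric.tendsto_atTop] at hg2
  obtain ⟨N0, hN0⟩ := hg2 (ε / 2) (by positivity)
  refine ⟨N0 + 1, fun N hN => ?_⟩
  have h1 := hN0 N (by omega)
  rw [dist_eq_norm] at h1 hfg ⊢
  rw [sub_zero] at h1 ⊢
  have hNpos : (0:ℝ) < N := by
    have : 0 < N := by omega
    exact_mod_cast this
  have h2 : ‖(∑ n ∈ range N, f ((n * r + θ : ℝ) : UnitAddCircle) * Helper22.ee (α * n)) / (N:ℂ) -
      (∑ n ∈ range N, g ((n * r + θ : ℝ) : UnitAddCircle) * Helper22.ee (α * n)) / (N:ℂ)‖ ≤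
      ‖f - g‖ := by
    rw [← sub_div, ← Finset.sum_sub_distrib, norm_div, Complex.norm_natCast,
      div_le_iff₀ hNpos]
    calc _ ≤ ∑ n ∈ range N, ‖f ((n * r + θ : ℝ) : UnitAddCircle) * Helper22.ee (α * n) -
          g ((n * r + θ : ℝ) : UnitAddCircle) * Helper22.ee (α * n)‖ := norm_sum_le _ _
      _ ≤ ∑ n ∈ range N, ‖f - g‖ := by
          refine Finset.sum_le_sum fun n _ => ?_
          rw [← sub_mul, norm_mul, Helper22.norm_ee, mul_one]
          exact (f - g).norm_coe_le_norm _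
      _ = ‖f - g‖ * N := by simp [mul_comm]
  calc _ = ‖((∑ n ∈ range N, f ((n * r + θ : ℝ) : UnitAddCircle) * Helper22.ee (α * n)) / (N:ℂ) -
      (∑ n ∈ range N, g ((n * r + θ : ℝ) : UnitAddCircle) * Helper22.ee (α * n)) / (N:ℂ)) +
      (∑ n ∈ range N, g ((n * r + θ : ℝ) : UnitAddCircle) * Helper22.ee (α * n)) / (N:ℂ)‖ := by
        congr 1; ring
    _ ≤ _ := norm_add_le _ _
    _ < ε := by linarith

/-- `x ↦ x · tent(x)` on the circle. -/
noncomputable def sawC (η : ℝ) (hη : 0 < η) : C(UnitAddCircle, ℂ) where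
  toFun := AddCircle.liftIco 1 0 (fun x => ((x * tent 0 1 η x : ℝ) : ℂ))
  continuous_toFun := by
    apply AddCircle.liftIco_zero_continuous
    · rw [tent_eq_zero hη (Or.inl le_rfl), tent_eq_zero hη (Or.inr le_rfl)]
      simp
    · exact (Complex.continuous_ofReal.comp
        (continuous_id.mul (continuous_tent 0 1 η))).continuousOn

lemma sawC_apply (η : ℝ) (hη : 0 < η) (x : ℝ) :
    sawC η hη (x : UnitAddCircle) = ((Int.fract x * tent 0 1 η (Int.fract x) : ℝ) : ℂ) := by
  have h1 : (x : UnitAddCircle) = ((Int.fract x : ℝ) : UnitAddCircle) := by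
    rw [Int.fract, AddCircle.coe_sub]
    have : ((⌊x⌋ : ℝ) : UnitAddCircle) = 0 := by
      rw [AddCircle.coe_eq_zero_iff]; exact ⟨⌊x⌋, by simp⟩
    rw [this, sub_zero]
  rw [h1]
  show AddCircle.liftIco 1 0 (fun x => ((x * tent 0 1 η x : ℝ) : ℂ)) _ = _
  rw [AddCircle.liftIco_zero_coe_apply ⟨Int.fract_nonneg x, Int.fract_lt_one x⟩]

lemma weylCond_of_irrational {r : ℝ} (hr : Irrational r) (θ : ℝ) :
    WeylCond (fun n => n * r + θ) := by
  intro h hh
  have h1 : ¬ ∃ m : ℤ, (h:ℝ) * r = m := by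
    rintro ⟨m, hm⟩
    have h2 := hr.natCast_mul hh.ne'
    exact (h2.ne_int m) hm
  have h3 := Zc_mul_const (Zc_ee h1) (Helper22.ee (h * θ))
  refine h3.congr fun N => ?_
  congr 1
  refine Finset.sum_congr rfl fun n _ => ?_
  show Helper22.ee (h * θ) * Helper22.ee (h * r * n) = Helper22.ee (h * (n * r + θ))
  rw [← Helper22.ee_add]
  congr 1
  ring

/-- irrational rate, frequency outside of `ℤ r + ℤ`. -/
lemma Zc_fract_irr {r α θ : ℝ} (hr : Irrational r) (h : ∀ k : ℤ, ¬ ∃ m : ℤ, k * r + α = m) :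
    Zc (fun n => ((Int.fract (n * r + θ) : ℝ) : ℂ) * Helper22.ee (α * n)) := by
  unfold Zc
  rw [Metric.tendsto_atTop]
  intro ε hε
  have hη : 0 < ε / 8 := by positivity
  -- the approximation
  have h1 := Zc_cont (θ := θ) h (sawC (ε / 8) hη)
  unfold Zc at h1
  rw [Metric.tendsto_atTop] at h1
  obtain ⟨N1, hN1⟩ := h1 (ε / 4) (by positivity)
  have hW := weylCond_of_irrational hr θ
  have h2 := avg_tendsto hW (tentC 0 1 (ε / 8) le_rfl le_rfl hη)
  rw [integral_tentC] at h2
  have h3 := (Complex.continuous_re.tendsto _).comp h2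
  rw [Complex.ofReal_re] at h3
  have h4 : 1 - ε / 2 < ∫ x in (0:ℝ)..1, tent 0 1 (ε / 8) x := by
    by_cases hε2 : ε / 8 ≤ 1 - ε / 8
    · have h5 := integral_tent_ge 0 1 (ε / 8) le_rfl le_rfl hη (by linarith)
      linarith
    · have h5 : 0 ≤ ∫ x in (0:ℝ)..1, tent 0 1 (ε / 8) x :=
        intervalIntegral.integral_nonneg (by norm_num) fun x _ => tent_nonneg _ _ _ _
      linarith
  have h5 := h3.eventually (lt_mem_nhds h4)
  obtain ⟨N2, hN2⟩ := eventually_atTop.1 h5
  refine ⟨max N1 (max N2 1), fun N hN => ?_⟩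
  have hNa : N1 ≤ N := le_trans (le_max_left _ _) hN
  have hNb : N2 ≤ N := le_trans (le_trans (le_max_left _ _) (le_max_right _ _)) hN
  have hNc : 1 ≤ N := le_trans (le_trans (le_max_right _ _) (le_max_right _ _)) hN
  have hNpos : (0:ℝ) < N := by exact_mod_cast hNc
  have g1 := hN1 N hNa
  have g2 := hN2 N hNb
  rw [dist_eq_norm, sub_zero] at g1 ⊢
  -- average of the tent
  have g3 : (avg (fun n => n * r + θ) (tentC 0 1 (ε / 8) le_rfl le_rfl hη) N).re =
      (∑ n ∈ range N, tent 0 1 (ε / 8) (Int.fract (n * r + θ))) / N := by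
    rw [avg]
    simp only [tentC_apply]
    rw [← Complex.ofReal_sum, ← Complex.ofReal_natCast, ← Complex.ofReal_div, Complex.ofReal_re]
  have g4 : ‖(∑ n ∈ range N, ((Int.fract (n * r + θ) : ℝ) : ℂ) * Helper22.ee (α * n)) / (N:ℂ) -
      (∑ n ∈ range N, sawC (ε / 8) hη ((n * r + θ : ℝ) : UnitAddCircle) * Helper22.ee (α * n)) /
        (N:ℂ)‖ ≤ 1 - (∑ n ∈ range N, tent 0 1 (ε / 8) (Int.fract (n * r + θ))) / N := by
    rw [← sub_div, ← Finset.sum_sub_distrib, norm_div, Complex.norm_natCast,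
      div_le_iff₀ hNpos, sub_mul, one_mul, div_mul_cancel₀ _ hNpos.ne']
    have e : (N:ℝ) - ∑ n ∈ range N, tent 0 1 (ε / 8) (Int.fract (n * r + θ)) =
        ∑ n ∈ range N, (1 - tent 0 1 (ε / 8) (Int.fract (n * r + θ))) := by
      rw [Finset.sum_sub_distrib]; simp
    rw [e]
    refine (norm_sum_le _ _).trans (Finset.sum_le_sum fun n _ => ?_)
    rw [← sub_mul, norm_mul, Helper22.norm_ee, mul_one, sawC_apply, ← Complex.ofReal_sub,
      Complex.norm_real, Real.norm_eq_abs]
    have i1 := tent_nonneg 0 1 (ε / 8) (Int.fract (n * r + θ))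
    have i2 := tent_le_one 0 1 (ε / 8) (Int.fract (n * r + θ))
    have i3 := Int.fract_nonneg (n * r + θ)
    have i4 := Int.fract_lt_one (n * r + θ)
    have i5 : Int.fract (n * r + θ) - Int.fract (n * r + θ) * tent 0 1 (ε / 8) (Int.fract (n * r + θ))
        = Int.fract (n * r + θ) * (1 - tent 0 1 (ε / 8) (Int.fract (n * r + θ))) := by ring
    rw [i5, abs_of_nonneg (mul_nonneg i3 (by linarith))]
    calc _ ≤ 1 * (1 - tent 0 1 (ε / 8) (Int.fract (n * r + θ))) :=
          mul_le_mul_of_nonneg_right i4.le (by linarith)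
      _ = _ := one_mul _
  have g5 : 1 - ε / 2 < (avg (fun n => n * r + θ) (tentC 0 1 (ε / 8) le_rfl le_rfl hη) N).re := g2
  rw [g3] at g5
  calc _ = ‖((∑ n ∈ range N, ((Int.fract (n * r + θ) : ℝ) : ℂ) * Helper22.ee (α * n)) / (N:ℂ) -
      (∑ n ∈ range N, sawC (ε / 8) hη ((n * r + θ : ℝ) : UnitAddCircle) * Helper22.ee (α * n)) /
        (N:ℂ)) + (∑ n ∈ range N, sawC (ε / 8) hη ((n * r + θ : ℝ) : UnitAddCircle) *
          Helper22.ee (α * n)) / (N:ℂ)‖ := by congr 1; ring
    _ ≤ _ := norm_add_le _ _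
    _ < ε := by linarith

/-- rational rate, irrational frequency. -/
lemma Zc_fract_rat {r α θ : ℝ} {q : ℕ} (hq : 0 < q) (hqr : ∃ m : ℤ, (q:ℝ) * r = m)
    (hα : Irrational α) :
    Zc (fun n => ((Int.fract (n * r + θ) : ℝ) : ℂ) * Helper22.ee (α * n)) := by
  set G : ℕ → ℂ := fun n => ((Int.fract (n * r + θ) : ℝ) : ℂ) * Helper22.ee (α * n) with hG
  have hGn : ∀ n, ‖G n‖ ≤ 1 := by
    intro n
    rw [hG]
    simp only
    rw [norm_mul, Helper22.norm_ee, mul_one, Complex.norm_real, Real.norm_eq_abs,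
      abs_of_nonneg (Int.fract_nonneg _)]
    exact (Int.fract_lt_one _).le
  have hshift : ∀ n, G (n + q) = Helper22.ee (α * q) * G n := by
    intro n
    obtain ⟨m, hm⟩ := hqr
    have h1 : (((n + q : ℕ) : ℝ)) * r + θ = (n * r + θ) + (m : ℤ) := by
      push_cast; rw [← hm]; ring
    show ((Int.fract (((n + q : ℕ) : ℝ) * r + θ) : ℝ) : ℂ) * Helper22.ee (α * ((n + q : ℕ) : ℝ)) = _
    rw [h1, Int.fract_add_intCast]
    have h2 : Helper22.ee (α * ((n + q : ℕ) : ℝ)) = Helper22.ee (α * q) * Helper22.ee (α * n) := by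
      rw [← Helper22.ee_add]; congr 1; push_cast; ring
    rw [h2]
    ring
  have h1 : Helper22.ee (α * q) - 1 ≠ 0 := by
    intro h
    obtain ⟨m, hm⟩ := (ee_eq_one_iff' _).1 (sub_eq_zero.1 h)
    have h2 := hα.mul_natCast hq.ne'
    exact (h2.ne_int m) hm
  refine Zc_of_bdd (C := (2 * q) / ‖Helper22.ee (α * q) - 1‖) fun N => ?_
  rw [le_div_iff₀ (norm_pos_iff.2 h1), ← norm_mul, mul_comm, sub_mul, one_mul, Finset.mul_sum,
    Finset.sum_congr rfl fun n _ => (hshift n).symm]
  have h2 := Finset.sum_range_add G q N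
  have h3 := Finset.sum_range_add G N q
  rw [add_comm q N, h3] at h2
  have h4 : ∑ n ∈ range N, G (n + q) - ∑ n ∈ range N, G n =
      ∑ n ∈ range q, G (N + n) - ∑ n ∈ range q, G n := by
    have h5 : ∑ n ∈ range N, G (n + q) = ∑ n ∈ range N, G (q + n) :=
      Finset.sum_congr rfl fun n _ => by rw [add_comm]
    rw [h5]
    linear_combination (-1 : ℂ) * h2
  rw [h4]
  have h6 : ∀ H : ℕ → ℂ, (∀ n, ‖H n‖ ≤ 1) → ‖∑ n ∈ range q, H n‖ ≤ q := by
    intro H hH
    calc ‖∑ n ∈ range q, H n‖ ≤ ∑ n ∈ range q, ‖H n‖ := norm_sum_le _ _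
      _ ≤ ∑ n ∈ range q, (1:ℝ) := Finset.sum_le_sum fun n _ => hH n
      _ = q := by simp
  calc _ ≤ ‖∑ n ∈ range q, G (N + n)‖ + ‖∑ n ∈ range q, G n‖ := norm_sub_le _ _
    _ ≤ q + q := add_le_add (h6 _ fun n => hGn _) (h6 _ hGn)
    _ = 2 * q := by ring

/-- the correlation of `1/2 - x` with `sin (2πx)` does not vanish. -/
lemma corr_pos {r θ : ℝ} (hr : Irrational r) :
    ∃ N0 : ℕ, ∀ N ≥ N0, (1:ℝ) / 64 ≤ (∑ n ∈ range N, (1 / 2 - Int.fract (n * r + θ)) *
      Real.sin (2 * Real.pi * (n * r + θ))) / N := by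
  have hW := weylCond_of_irrational hr θ
  have h1 := freq_lower hW (a := 1/8) (b := 3/8) (by norm_num) (by norm_num) (by norm_num)
    (ε := 1/16) (by norm_num)
  obtain ⟨N0, hN0⟩ := eventually_atTop.1 h1
  refine ⟨max N0 1, fun N hN => ?_⟩
  have hNa : N0 ≤ N := le_trans (le_max_left _ _) hN
  have hNc : 1 ≤ N := le_trans (le_max_right _ _) hN
  have hNpos : (0:ℝ) < N := by exact_mod_cast hNc
  have h2 := hN0 N hNa
  have h3 : 3 / 16 < freq (fun n => n * r + θ) (1/8) (3/8) N := by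
    refine lt_of_le_of_lt ?_ h2
    norm_num
  rw [freq, lt_div_iff₀ hNpos] at h3
  rw [le_div_iff₀ hNpos]
  have hsin : ∀ x : ℝ, Real.sin (2 * Real.pi * x) = Real.sin (2 * Real.pi * Int.fract x) := by
    intro x
    have : 2 * Real.pi * x = 2 * Real.pi * Int.fract x + (⌊x⌋ : ℤ) * (2 * Real.pi) := by
      have := Int.floor_add_fract x
      nlinarith [Real.pi_pos]
    rw [this, Real.sin_add_int_mul_two_pi]
  have hterm : ∀ n : ℕ, (if 1 / 8 ≤ Int.fract ((n:ℝ) * r + θ) ∧ Int.fract ((n:ℝ) * r + θ) < 3 / 8 then (1:ℝ)/12 else 0) ≤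
      (1 / 2 - Int.fract ((n:ℝ) * r + θ)) * Real.sin (2 * Real.pi * (n * r + θ)) := by
    intro n
    rw [hsin]
    set x := Int.fract ((n:ℝ) * r + θ) with hx
    have hx0 : 0 ≤ x := Int.fract_nonneg _
    have hx1 : x < 1 := Int.fract_lt_one _
    have hpi := Real.pi_pos
    split_ifs with h
    · have h4 : (2:ℝ)/3 ≤ Real.sin (2 * Real.pi * x) := by
        have h5 : Real.sin (Real.pi / 4) ≤ Real.sin (2 * Real.pi * x) := by
          by_cases hx4 : x ≤ 1/4
          · apply Real.sin_le_sin_of_le_of_le_pi_div_two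
            · linarith
            · nlinarith
            · nlinarith [h.1]
          · have : Real.sin (2 * Real.pi * x) = Real.sin (Real.pi - 2 * Real.pi * x) := by
              rw [Real.sin_pi_sub]
            rw [this]
            apply Real.sin_le_sin_of_le_of_le_pi_div_two
            · linarith
            · push Not at hx4
              nlinarith
            · nlinarith [h.2]
        rw [Real.sin_pi_div_four] at h5
        have h6 : (4:ℝ)/3 ≤ Real.sqrt 2 := by
          apply Real.le_sqrt_of_sq_le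
          norm_num
        linarith
      nlinarith [h.2]
    · by_cases hx2 : x ≤ 1/2
      · apply mul_nonneg (by linarith)
        apply Real.sin_nonneg_of_nonneg_of_le_pi
        · positivity
        · nlinarith
      · push Not at hx2
        have h7 : Real.sin (2 * Real.pi * x) ≤ 0 := by
          have : Real.sin (2 * Real.pi * x) = - Real.sin (2 * Real.pi * x - Real.pi) := by
            rw [Real.sin_sub_pi, neg_neg]
          rw [this, neg_nonpos]
          apply Real.sin_nonneg_of_nonneg_of_le_pi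
          · nlinarith
          · nlinarith
        nlinarith
  calc (1:ℝ)/64 * N ≤ (1/12) * (((Finset.range N).filter (fun n : ℕ => 1 / 8 ≤ Int.fract ((n:ℝ) * r + θ) ∧
          Int.fract ((n:ℝ) * r + θ) < 3 / 8)).card : ℝ) := by
        have h3' : (3:ℝ) / 16 * N < (((Finset.range N).filter (fun n : ℕ => 1 / 8 ≤ Int.fract ((n:ℝ) * r + θ) ∧
          Int.fract ((n:ℝ) * r + θ) < 3 / 8)).card : ℝ) := h3
        linarith
    _ = ∑ n ∈ range N, (if 1 / 8 ≤ Int.fract ((n:ℝ) * r + θ) ∧ Int.fract ((n:ℝ) * r + θ) < 3 / 8 then (1:ℝ)/12 else 0) := by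
        rw [← Finset.sum_filter, Finset.sum_const, nsmul_eq_mul]
        ring
    _ ≤ _ := Finset.sum_le_sum fun n _ => hterm n

/-- `r j` divides `r i`: `r i ∈ ℤ r j + ℤ`, `j ≠ i`, `r i` irrational. -/
def Dv {ι : Type*} (r : ι → ℝ) (j i : ι) : Prop :=
  Irrational (r i) ∧ j ≠ i ∧ ∃ m k : ℤ, r i = m * r j + k

/-- in a family of at least three distinct rates with sum one, `r i = m r j + k` forces `|m| ≥ 2`. -/
lemma dv_abs {ι : Type*} [Fintype ι] {r : ι → ℝ} (h0 : ∀ i, 0 < r i)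
    (hinj : ∀ i j, Irrational (r i) → r i = r j → i = j) (hs : ∑ i, r i = 1) (h3 : 3 ≤ Fintype.card ι) {i j : ι} (hir : Irrational (r i)) (hij : j ≠ i)
    {m k : ℤ} (h : r i = m * r j + k) : m ≠ 0 ∧ m ≠ 1 ∧ m ≠ -1 := by
  classical
  have hlt : ∀ i, r i < 1 := by
    intro i
    obtain ⟨l, hl⟩ : ∃ l, l ≠ i := by
      have : 1 < Fintype.card ι := by omega
      have := Fintype.one_lt_card_iff_nontrivial.1 this
      exact exists_ne i
    have h1 : r i + r l ≤ ∑ i, r i := by
      rw [← Finset.add_sum_erase Finset.univ r (Finset.mem_univ i)]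
      have := Finset.single_le_sum (f := r) (s := Finset.univ.erase i) (fun x _ => (h0 x).le)
        (Finset.mem_erase.2 ⟨hl, Finset.mem_univ l⟩)
      linarith
    have := h0 l
    linarith
  refine ⟨?_, ?_, ?_⟩
  · rintro rfl
    apply hir
    exact ⟨(k : ℚ), by push_cast; rw [h]; simp⟩
  · rintro rfl
    have h1 : r i - r j = k := by rw [h]; push_cast; ring
    have h2 : (-1 : ℝ) < k := by rw [← h1]; linarith [h0 i, hlt j]
    have h4 : (k:ℝ) < 1 := by rw [← h1]; linarith [h0 j, hlt i]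
    have h5 : -1 < k := by exact_mod_cast h2
    have h6 : k < 1 := by exact_mod_cast h4
    have h7 : k = 0 := by omega
    rw [h7] at h1
    apply hij
    simp only [Int.cast_zero] at h1
    exact (hinj i j hir (by linarith)).symm
  · rintro rfl
    have h1 : r i + r j = k := by rw [h]; push_cast; ring
    have h2 : (0 : ℝ) < k := by rw [← h1]; linarith [h0 i, h0 j]
    have h4 : (k:ℝ) < 2 := by rw [← h1]; linarith [hlt j, hlt i]
    have h5 : 0 < k := by exact_mod_cast h2
    have h6 : k < 2 := by exact_mod_cast h4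
    have h7 : k = 1 := by omega
    rw [h7] at h1
    obtain ⟨l, hl⟩ : ∃ l, l ∉ ({i, j} : Finset ι) := by
      by_contra hcon
      push Not at hcon
      have h8 : (Finset.univ : Finset ι) ⊆ {i, j} := fun x _ => hcon x
      have h9 := Finset.card_le_card h8
      rw [Finset.card_univ] at h9
      have h10 := Finset.card_le_two (a := i) (b := j)
      omega
    have h11 : r i + r j + r l ≤ ∑ i, r i := by
      have h12 : ∑ x ∈ ({i, j, l} : Finset ι), r x ≤ ∑ i, r i :=
        Finset.sum_le_sum_of_subset_of_nonneg (Finset.subset_univ _) (fun x _ _ => (h0 x).le)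
      simp only [Finset.mem_insert, Finset.mem_singleton, not_or] at hl
      rw [Finset.sum_insert (by
        simp only [Finset.mem_insert, Finset.mem_singleton, not_or]
        exact ⟨Ne.symm hij, Ne.symm hl.1⟩), Finset.sum_insert (by
        simp only [Finset.mem_singleton]
        exact Ne.symm hl.2), Finset.sum_singleton] at h12
      linarith
    have := h0 l
    push_cast at h1
    linarith

/-- **Graham's theorem**: in an exact cover with at least three rates, if the irrational rates are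
pairwise distinct then every rate is rational. -/
theorem graham {ι : Type*} [Fintype ι] {r θ : ι → ℝ} (h0 : ∀ i, 0 < r i)
    (hinj : ∀ i j, Irrational (r i) → r i = r j → i = j) (hs : ∑ i, r i = 1) (h3 : 3 ≤ Fintype.card ι)
    (hc : ∃ c : ℝ, ∀ j : ℤ, ∑ i, Int.fract ((j:ℝ) * r i + θ i) = c) (i : ι) :
    ¬ Irrational (r i) := by
  classical
  intro hi
  -- a minimal element
  have htrans : IsTrans ι (Dv r) := ⟨by
    rintro a b c ⟨ha1, ha2, m, k, hmk⟩ ⟨hb1, hb2, m', k', hmk'⟩
    refine ⟨hb1, ?_, m' * m, m' * k + k', by rw [hmk', hmk]; push_cast; ring⟩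
    rintro rfl
    have g1 := dv_abs h0 hinj hs h3 ha1 ha2 hmk
    have g2 := dv_abs h0 hinj hs h3 hb1 hb2 hmk'
    have g3 : (1 - (m * m' : ℤ) : ℝ) * r b = ((m * k' + k : ℤ) : ℝ) := by
      have : r b = m * (m' * r b + k') + k := by rw [← hmk', ← hmk]
      push_cast
      linear_combination this
    have g4 : m * m' ≠ 1 := by
      intro h
      rcases Int.mul_eq_one_iff_eq_one_or_neg_one.1 h with ⟨h5, _⟩ | ⟨h5, _⟩
      · exact g1.2.1 h5
      · exact g1.2.2 h5
    apply ha1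
    refine ⟨((m * k' + k : ℤ) : ℚ) / ((1 - m * m' : ℤ) : ℚ), ?_⟩
    have g5 : ((1 - (m * m' : ℤ) : ℤ) : ℝ) ≠ 0 := by
      rw [Int.cast_ne_zero]
      omega
    push_cast at g3 g5 ⊢
    rw [div_eq_iff g5]
    linarith⟩
  have hirr : IsIrrefl ι (Dv r) := ⟨fun a h => h.2.1 rfl⟩
  have hwf := Finite.wellFounded_of_trans_of_irrefl (Dv r)
  obtain ⟨a, ha, hamin⟩ := hwf.has_min {x | Irrational (r x)} ⟨i, hi⟩
  simp only [Set.mem_setOf_eq] at ha hamin
  have hfree : ∀ j, j ≠ a → ∀ m : ℤ, ¬ ∃ k : ℤ, (m:ℝ) * r j + r a = k := by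
    rintro j hja m ⟨k, hk⟩
    have hm : Irrational (r j) := by
      by_contra hcon
      rw [irrational_iff_ne_rational] at ha
      rw [Irrational, not_not] at hcon
      obtain ⟨q, hq⟩ := hcon
      apply irrational_iff_ne_rational (r a) |>.2 ha
      exact ⟨k - m * q, by push_cast; rw [hq]; linarith⟩
    exact hamin j hm ⟨ha, hja, -m, k, by push_cast; linarith⟩
  -- all the other terms have mean zero
  have hZ : ∀ j, j ≠ a → Zc (fun n => ((Int.fract (n * r j + θ j) : ℝ) : ℂ) *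
      Helper22.ee (r a * n)) := by
    intro j hj
    by_cases hjr : Irrational (r j)
    · exact Zc_fract_irr hjr (hfree j hj)
    · rw [Irrational, not_not] at hjr
      obtain ⟨q, hq⟩ := hjr
      refine Zc_fract_rat (q := q.den) q.den_pos ⟨q.num, ?_⟩ ha
      rw [← hq]
      have := Rat.mul_den_eq_num q
      have h4 : ((q * q.den : ℚ) : ℝ) = ((q.num : ℚ) : ℝ) := by rw [this]
      push_cast at h4
      linarith
  obtain ⟨c, hc⟩ := hc
  have hna : ¬ ∃ m : ℤ, r a = m := by
    rintro ⟨m, hm⟩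
    exact ha.ne_int m hm
  have hZ1 : Zc (fun n => ∑ j ∈ Finset.univ.erase a, ((Int.fract (n * r j + θ j) : ℝ) : ℂ) *
      Helper22.ee (r a * n)) := Zc_sum _ fun j hj => hZ j (Finset.ne_of_mem_erase hj)
  have hZ2 := Zc_mul_const (Zc_ee hna) ((1/2 - c : ℝ) : ℂ)
  have hZ3 := Zc_mul_const (Zc_add hZ1 hZ2) (Helper22.ee (θ a))
  -- the sum is `1/2 - fract`
  have hkey : ∀ n : ℕ, Helper22.ee (θ a) * (∑ j ∈ Finset.univ.erase a,
      ((Int.fract (n * r j + θ j) : ℝ) : ℂ) * Helper22.ee (r a * n) +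
      ((1/2 - c : ℝ) : ℂ) * Helper22.ee (r a * n)) =
      ((1 / 2 - Int.fract (n * r a + θ a) : ℝ) : ℂ) * Helper22.ee (n * r a + θ a) := by
    intro n
    have h5 := hc (n : ℤ)
    rw [← Finset.add_sum_erase Finset.univ _ (Finset.mem_univ a)] at h5
    have h6 : ∑ j ∈ Finset.univ.erase a, Int.fract ((n:ℝ) * r j + θ j) =
        c - Int.fract ((n:ℝ) * r a + θ a) := by
      push_cast at h5
      linarith
    have h7 : Helper22.ee (n * r a + θ a) = Helper22.ee (θ a) * Helper22.ee (r a * n) := by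
      rw [← Helper22.ee_add]; congr 1; ring
    rw [← Finset.sum_mul, ← Complex.ofReal_sum, h6, h7]
    push_cast
    ring
  obtain ⟨N0, hN0⟩ := corr_pos (θ := θ a) ha
  unfold Zc at hZ3
  rw [Metric.tendsto_atTop] at hZ3
  obtain ⟨N1, hN1⟩ := hZ3 (1/64) (by norm_num)
  set N := max N0 N1 with hN
  have h8 := hN0 N (le_max_left _ _)
  have h9 := hN1 N (le_max_right _ _)
  rw [dist_eq_norm, sub_zero, Finset.sum_congr rfl fun n _ => hkey n] at h9
  have h10 : ((∑ n ∈ range N, ((1 / 2 - Int.fract (n * r a + θ a) : ℝ) : ℂ) *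
      Helper22.ee (n * r a + θ a)) / (N:ℂ)).im =
      (∑ n ∈ range N, (1 / 2 - Int.fract (n * r a + θ a)) *
      Real.sin (2 * Real.pi * (n * r a + θ a))) / N := by
    rw [← Complex.ofReal_natCast, Complex.div_ofReal_im, Complex.im_sum]
    congr 1
    refine Finset.sum_congr rfl fun n _ => ?_
    rw [Complex.im_ofReal_mul, Helper22.ee_eq, mul_comm Complex.I, Complex.exp_ofReal_mul_I_im]
  have h11 := Complex.abs_im_le_norm ((∑ n ∈ range N, ((1 / 2 - Int.fract (n * r a + θ a) : ℝ) : ℂ) *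
      Helper22.ee (n * r a + θ a)) / (N:ℂ))
  rw [h10] at h11
  have h12 := le_abs_self ((∑ n ∈ range N, (1 / 2 - Int.fract (n * r a + θ a)) *
      Real.sin (2 * Real.pi * (n * r a + θ a))) / N)
  linarith

end Pool.Agent.Helper7.FR
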