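import Pool.Agent.Helper7.FR.Rat
import Pool.Agent.Helper7.FR.Irr
import Pool.Agent.Helper27.FK.Basic

/-!
# From exact covers to the cosecant systems
-/

open Finset
open Pool.Agent.Helper27.FK

namespace Pool.Agent.Helper7.FR

/-- the cosecant inequalities of an exact cover with rational rates. -/
theorem sys_of_const {ι : Type*} [Fintype ι] [DecidableEq ι] {r θ : ι → ℝ}
    (hs : ∑ i, r i = 1) (P q : ι → ℕ)
    (hq : ∀ i, 0 < q i) (hP : ∀ i, 0 < P i) (hcop : ∀ i, Nat.Coprime (P i) (q i))
    (hr : ∀ i, r i = (P i : ℝ) / q i) {D : ℕ} (hD : ∀ i, q i ≤ D) (hD2 : 2 ≤ D)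
    (hinj : ∀ i j, q i = D → q j = D → r i = r j → i = j)
    (hc : ∃ c : ℝ, ∀ j : ℤ, ∑ i, Int.fract ((j:ℝ) * r i + θ i) = c) :
    Sys D ((Finset.univ.filter fun i => q i = D).image P) := by
  have hD' : (0:ℝ) < D := by exact_mod_cast (by omega : 0 < D)
  have hPinj : ∀ i ∈ Finset.univ.filter (fun i => q i = D), ∀ j ∈ Finset.univ.filter
      (fun i => q i = D), P i = P j → i = j := by
    intro i hi j hj h
    rw [Finset.mem_filter] at hi hj
    apply hinj i j hi.2 hj.2
    rw [hr, hr, hi.2, hj.2, h]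
  refine ⟨?_, ?_, ?_, ?_⟩
  · intro a ha
    rw [Finset.mem_image] at ha
    obtain ⟨i, _, rfl⟩ := ha
    exact hP i
  · intro a ha
    rw [Finset.mem_image] at ha
    obtain ⟨i, hi, rfl⟩ := ha
    rw [Finset.mem_filter] at hi
    rw [← hi.2]
    exact hcop i
  · rw [Finset.sum_image hPinj]
    have h1 : (∑ i ∈ Finset.univ.filter (fun i => q i = D), (P i : ℝ)) / D ≤ 1 := by
      rw [← hs, Finset.sum_div]
      calc ∑ i ∈ Finset.univ.filter (fun i => q i = D), (P i : ℝ) / D
          = ∑ i ∈ Finset.univ.filter (fun i => q i = D), r i := by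
            refine Finset.sum_congr rfl fun i hi => ?_
            rw [Finset.mem_filter] at hi
            rw [hr, hi.2]
        _ ≤ ∑ i, r i := Finset.sum_le_sum_of_subset_of_nonneg (Finset.subset_univ _) (by
            intro i _ _
            rw [hr]
            positivity)
    rw [div_le_one hD'] at h1
    exact_mod_cast h1
  · intro a ha
    rw [Finset.mem_image] at ha
    obtain ⟨i, hi, rfl⟩ := ha
    rw [Finset.mem_filter] at hi
    have hiD := hi.2
    have hcopD : ∀ k, q k = D → (P k).Coprime D := fun k hk => by rw [← hk]; exact hcop k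
    set x : ι → ℤ := fun k => if (D:ℤ) ∣ (P k : ℤ) * (xd D (P i) (P k) : ℤ) - P i then
      (xd D (P i) (P k) : ℤ) else - (xd D (P i) (P k) : ℤ) with hx
    have hxdvd : ∀ k, q k = D → (D:ℤ) ∣ P k * x k - P i := by
      intro k hk
      simp only [hx]
      split_ifs with h
      · exact h
      · rcases mul_xd_cast (a := P i) (hcopD k hk) with h1 | h1
        · exfalso
          apply h
          rw [← ZMod.intCast_zmod_eq_zero_iff_dvd]
          push_cast at h1 ⊢
          rw [h1, sub_self]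
        · rw [← ZMod.intCast_zmod_eq_zero_iff_dvd]
          push_cast at h1 ⊢
          linear_combination (-1 : ZMod D) * h1
    have hxpos : ∀ k, q k = D → 0 < xd D (P i) (P k) := fun k hk =>
      xd_pos (by omega) (hcopD i hiD) (hcopD k hk)
    have hxlt : ∀ k, xd D (P i) (P k) < D := fun k => by
      have := two_mul_xd_le (D := D) (by omega) (P i) (P k)
      omega
    have hsin : ∀ k, q k = D → |Real.sin (Real.pi * x k / D)| =
        Real.sin (Real.pi * (xd D (P i) (P k) : ℝ) / D) := by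
      intro k hk
      have h1 := sin_pos_of (D := D) (hxpos k hk) (hxlt k)
      simp only [hx]
      split_ifs with h
      · push_cast
        exact abs_of_pos h1
      · push_cast
        rw [mul_neg, neg_div, Real.sin_neg, abs_neg]
        exact abs_of_pos h1
    have hF := fourier_ineq P q θ hq hcop hD (by
      obtain ⟨c, hc⟩ := hc
      refine ⟨c, fun j => ?_⟩
      rw [← hc j]
      refine Finset.sum_congr rfl fun k _ => ?_
      rw [hr k]) i hiD hD2 x hxdvd
    have hs1 : 0 < Real.sin (Real.pi / D) := by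
      have := sin_pos_of (D := D) (x := 1) one_pos (by omega)
      simpa using this
    have e : ((Finset.univ.filter fun i => q i = D).image P).erase (P i) =
        (((Finset.univ.erase i).filter fun k => q k = D)).image P := by
      ext b
      simp only [Finset.mem_erase, Finset.mem_image, Finset.mem_filter, Finset.mem_univ, true_and,
        and_true]
      constructor
      · rintro ⟨h1, k, hk, rfl⟩
        exact ⟨k, ⟨fun h => h1 (by rw [h]), hk⟩, rfl⟩
      · rintro ⟨k, ⟨h1, hk⟩, rfl⟩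
        refine ⟨fun h => h1 ?_, k, hk, rfl⟩
        exact hPinj k (Finset.mem_filter.2 ⟨Finset.mem_univ _, hk⟩) i
          (Finset.mem_filter.2 ⟨Finset.mem_univ _, hiD⟩) h
    rw [e, Finset.sum_image (by
      intro k hk l hl h
      simp only [Finset.coe_filter, Finset.mem_erase, Finset.mem_univ, and_true,
        Set.mem_setOf_eq] at hk hl
      exact hPinj k (Finset.mem_filter.2 ⟨Finset.mem_univ _, hk.2⟩) l
          (Finset.mem_filter.2 ⟨Finset.mem_univ _, hl.2⟩) h)]
    have h2 : ∑ k ∈ (Finset.univ.erase i).filter (fun k => q k = D), f D (xd D (P i) (P k)) =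
        Real.sin (Real.pi / D) * ∑ k ∈ (Finset.univ.erase i).filter (fun k => q k = D),
          1 / |Real.sin (Real.pi * x k / D)| := by
      rw [Finset.mul_sum]
      refine Finset.sum_congr rfl fun k hk => ?_
      rw [Finset.mem_filter] at hk
      rw [hsin k hk.2]
      unfold f
      rw [mul_one_div]
    rw [h2]
    calc (1:ℝ) = Real.sin (Real.pi / D) * (1 / Real.sin (Real.pi / D)) := by
          field_simp
      _ ≤ _ := mul_le_mul_of_nonneg_left hF hs1.le

/-- **the bridge** for rational rates: only the rates with the largest denominator `D` have to be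
pairwise distinct. -/
theorem bridge_rat {ι : Type*} [Fintype ι] {s : ι → ℚ} {θ : ι → ℝ} (h0 : ∀ i, 0 < s i)
    (h1 : ∀ i, s i < 1) (hs : ∑ i, s i = 1) (hc : IsExactCover (fun i => (s i : ℝ)) θ)
    {i₀ : ι} (hmax : ∀ i, (s i).den ≤ (s i₀).den)
    (hinj : ∀ i j, (s i).den = (s i₀).den → s i = s j → i = j) :
    ∃ I : Finset ℕ, 2 ≤ (s i₀).den ∧ Sys (s i₀).den I ∧ I.Nonempty ∧
      (∀ a ∈ I, ∃ i, (s i).den = (s i₀).den ∧ (s i : ℝ) = (a:ℝ) / (s i₀).den) ∧
      (∀ i, (s i).den = (s i₀).den → ∃ a ∈ I, (s i : ℝ) = (a:ℝ) / (s i₀).den) ∧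
      (∀ i, (1:ℝ) / (s i).den ≤ (s i : ℝ)) := by
  classical
  have h0' : ∀ i, (0:ℝ) < s i := fun i => by exact_mod_cast h0 i
  have h1' : ∀ i, (s i : ℝ) < 1 := fun i => by exact_mod_cast h1 i
  have hs' : ∑ i, (s i : ℝ) = 1 := by exact_mod_cast hs
  have hconst := sum_fract_const h0' h1' hs' hc
  set P : ι → ℕ := fun i => (s i).num.natAbs with hP
  set q : ι → ℕ := fun i => (s i).den with hq
  have hnum : ∀ i, ((s i).num : ℝ) = (P i : ℝ) := by
    intro i
    have h4 : 0 < (s i).num := Rat.num_pos.2 (h0 i)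
    have h5 : (((s i).num.natAbs : ℕ) : ℤ) = (s i).num := Int.natAbs_of_nonneg h4.le
    have h6 : (((s i).num.natAbs : ℕ) : ℝ) = ((((s i).num.natAbs : ℕ) : ℤ) : ℝ) :=
      (Int.cast_natCast _).symm
    rw [hP]
    simp only
    rw [h6, h5]
  have hr : ∀ i, (s i : ℝ) = (P i : ℝ) / q i := by
    intro i
    rw [← hnum i, hq]
    have := Rat.num_div_den (s i)
    have h4 : (((s i).num / (s i).den : ℚ) : ℝ) = (s i : ℝ) := by rw [this]
    push_cast at h4
    exact h4.symm
  have hq0 : ∀ i, 0 < q i := fun i => (s i).den_pos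
  have hP0 : ∀ i, 0 < P i := fun i => Int.natAbs_pos.2 (Rat.num_pos.2 (h0 i)).ne'
  have hcop : ∀ i, Nat.Coprime (P i) (q i) := fun i => (s i).reduced
  have hD2 : 2 ≤ q i₀ := by
    by_contra hcon
    have h4 : q i₀ = 1 := by have := hq0 i₀; omega
    have h5 := h1' i₀
    rw [hr, h4, Nat.cast_one, div_one] at h5
    have h6 : P i₀ < 1 := by exact_mod_cast h5
    have := hP0 i₀
    omega
  have hsys := sys_of_const (r := fun i => (s i : ℝ)) (θ := θ) hs' P q hq0 hP0 hcop hr hmax hD2
    (fun i j hi _ h => hinj i j hi (by exact_mod_cast h)) hconst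
  refine ⟨_, hD2, hsys, ⟨P i₀, Finset.mem_image_of_mem _
    (Finset.mem_filter.2 ⟨Finset.mem_univ _, rfl⟩)⟩, ?_, ?_, ?_⟩
  · intro a ha
    rw [Finset.mem_image] at ha
    obtain ⟨i, hi, rfl⟩ := ha
    rw [Finset.mem_filter] at hi
    refine ⟨i, hi.2, ?_⟩
    have h4 : q i = (s i₀).den := hi.2
    rw [hr, h4]
  · intro i h
    refine ⟨P i, Finset.mem_image_of_mem _ (Finset.mem_filter.2 ⟨Finset.mem_univ _, h⟩), ?_⟩
    have h4 : q i = (s i₀).den := h
    rw [hr, h4]
  · intro i
    rw [hr i]
    have h4 : (1:ℝ) ≤ P i := by exact_mod_cast hP0 i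
    have h5 : (0:ℝ) < q i := by exact_mod_cast hq0 i
    exact div_le_div_of_nonneg_right h4 h5.le

end Pool.Agent.Helper7.FR
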