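import Pool.Agent.Helper7.FR.Iff

/-!
# The classification of the admissible tuples with pairwise distinct rates, and the strong form
-/

open Finset

namespace Pool.Agent.Helper7.FR

lemma fract_add_fract_neg {x : ℝ} (hx : ¬ ∃ m : ℤ, x = m) : Int.fract x + Int.fract (-x) = 1 := by
  have h1 : Int.fract x ≠ 0 := by
    intro h
    rw [Int.fract_eq_zero_iff] at h
    obtain ⟨m, hm⟩ := h
    exact hx ⟨m, hm.symm⟩
  rw [Int.fract_neg h1]
  ring

/-- every pair of rates with sum one is admissible. -/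
theorem admissible_two {r : Fin 2 → ℝ} (h0 : ∀ i, 0 < r i ∧ r i < 1) (hs : ∑ i, r i = 1) :
    Admissible r := by
  rw [Fin.sum_univ_two] at hs
  -- a phase such that `j r + x` is never an integer
  have hcount : (Set.range fun p : ℤ × ℤ => (p.1 : ℝ) - (p.2 : ℝ) * r 0).Countable :=
    Set.countable_range _
  obtain ⟨x, hx1, hx2⟩ := hcount.dense_compl ℝ |>.exists_mem_open isOpen_Ioo
    (Set.nonempty_Ioo.2 (zero_lt_one (α := ℝ)))
  have hx : ∀ j : ℤ, ¬ ∃ m : ℤ, (j:ℝ) * r 0 + x = m := by
    rintro j ⟨m, hm⟩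
    apply hx1
    exact ⟨(m, j), by simp only; linarith⟩
  refine ⟨![x, 1 - x], ?_, ?_⟩
  · intro i
    fin_cases i
    · simp only [Fin.zero_eta, Matrix.cons_val_zero]
      exact ⟨hx2.1.le, hx2.2⟩
    · simp only [Fin.mk_one, Matrix.cons_val_one, Matrix.cons_val_fin_one]
      exact ⟨by linarith [hx2.2], by linarith [hx2.1]⟩
  · have key : ∀ m : ℤ, ∑ i, Int.fract ((m:ℝ) * r i + (![x, 1 - x] : Fin 2 → ℝ) i) = 1 := by
      intro m
      rw [Fin.sum_univ_two]
      simp only [Matrix.cons_val_zero, Matrix.cons_val_one, Matrix.cons_val_fin_one]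
      have h1 : (m:ℝ) * r 1 + (1 - x) = -((m:ℝ) * r 0 + x) + ((m + 1 : ℤ) : ℝ) := by
        have : r 1 = 1 - r 0 := by linarith
        rw [this]; push_cast; ring
      rw [h1, Int.fract_add_intCast]
      exact fract_add_fract_neg (hx m)
    refine isExactCover_of_const (fun i => (h0 i).1) (fun i => (h0 i).2)
      (by rw [Fin.sum_univ_two]; exact hs) fun m => ?_
    rw [key m, key (m - 1)]

/-- **Classification of the admissible tuples with pairwise distinct rates.** -/
theorem classification_of (hT : CosecThm) (hF : ∀ n : ℕ, 3 ≤ n → Admissible (fra n)) {n : ℕ}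
    {r : Fin n → ℝ} (h0 : ∀ i, 0 < r i ∧ r i < 1) (hs : ∑ i, r i = 1)
    (hinj : Function.Injective r) :
    Admissible r ↔
      n = 2 ∨ (3 ≤ n ∧ Set.range r = {x : ℝ | ∃ i : ℕ, i < n ∧ x = 2 ^ i / (2 ^ n - 1)}) := by
  rcases Nat.lt_or_ge n 3 with hn | hn
  · have h2 : n = 2 := by
      rcases (by omega : n = 0 ∨ n = 1 ∨ n = 2) with rfl | rfl | rfl
      · simp at hs
      · rw [Fin.sum_univ_one] at hs
        have := (h0 0).2
        linarith
      · rfl
    subst h2
    exact ⟨fun _ => Or.inl rfl, fun _ => admissible_two h0 hs⟩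
  · rw [fraenkel_iff hT hF hn h0 hs hinj]
    constructor
    · intro h
      exact Or.inr ⟨hn, h⟩
    · rintro (h | h)
      · omega
      · exact h.2

/-- **Strong form, including repeated rates**: an admissible tuple of length at least three is
Fraenkel's, or repeats an irrational rate, or has only rational rates and repeats a rate of the
largest denominator. -/
theorem repeated_of (hT : CosecThm) {n : ℕ} (hn : 3 ≤ n) {r : Fin n → ℝ}
    (h0 : ∀ i, 0 < r i ∧ r i < 1) (hs : ∑ i, r i = 1) (hadm : Admissible r) :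
    (Function.Injective r ∧ Set.range r = {x : ℝ | ∃ i : ℕ, i < n ∧ x = 2 ^ i / (2 ^ n - 1)}) ∨
    (∃ i j, i ≠ j ∧ r i = r j ∧ Irrational (r i)) ∨
    (∃ s : Fin n → ℚ, (∀ i, (s i : ℝ) = r i) ∧
      ∃ i j, i ≠ j ∧ s i = s j ∧ ∀ k, (s k).den ≤ (s i).den) := by
  obtain ⟨θ, -, hc⟩ := hadm
  have hcard : 3 ≤ Fintype.card (Fin n) := by rw [Fintype.card_fin]; exact hn
  by_cases hirr : ∃ i, Irrational (r i)
  · obtain ⟨i, hi⟩ := hirr
    obtain ⟨j, k, hjk, h1, h2⟩ := irrational_repeated (fun i => (h0 i).1) (fun i => (h0 i).2) hs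
      hcard hc hi
    exact Or.inr (Or.inl ⟨j, k, hjk, h1, h2⟩)
  · push Not at hirr
    have hrat : ∀ i, ∃ s : ℚ, (s : ℝ) = r i := by
      intro i
      have := hirr i
      rw [Irrational, not_not] at this
      exact this
    choose s hsr using hrat
    by_cases hrep : ∃ i j, i ≠ j ∧ s i = s j ∧ ∀ k, (s k).den ≤ (s i).den
    · exact Or.inr (Or.inr ⟨s, hsr, hrep⟩)
    · left
      push Not at hrep
      have hrs : (fun i => (s i : ℝ)) = r := funext fun i => hsr i
      have g0 : ∀ i, 0 < s i := fun i => by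
        have := (h0 i).1
        rw [← hsr i] at this
        exact_mod_cast this
      have g1 : ∀ i, s i < 1 := fun i => by
        have := (h0 i).2
        rw [← hsr i] at this
        exact_mod_cast this
      have gs : ∑ i, s i = 1 := by
        have h5 : ∑ i, (s i : ℝ) = 1 := by rw [← hs]; exact Finset.sum_congr rfl fun i _ => hsr i
        exact_mod_cast h5
      obtain ⟨hinj, hrange⟩ := strong_of (s := s) (θ := θ) hT g0 g1 gs hcard (by rw [hrs]; exact hc)
        hrep
      rw [Fintype.card_fin] at hrange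
      refine ⟨fun i j hij => hinj (by
        have : (s i : ℝ) = s j := by rw [hsr, hsr, hij]
        exact_mod_cast this), ?_⟩
      ext x
      constructor
      · rintro ⟨i, rfl⟩
        have h5 : s i ∈ Set.range s := ⟨i, rfl⟩
        rw [hrange] at h5
        obtain ⟨l, hl, hx⟩ := h5
        exact ⟨l, hl, by rw [← hsr i, hx]; push_cast; rfl⟩
      · rintro ⟨l, hl, rfl⟩
        have h5 : (2 ^ l / (2 ^ n - 1) : ℚ) ∈ Set.range s := by
          rw [hrange]; exact ⟨l, hl, rfl⟩
        obtain ⟨i, hi⟩ := h5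
        exact ⟨i, by rw [← hsr i, hi]; push_cast; rfl⟩

end Pool.Agent.Helper7.FR
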