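import Pool.Agent.Helper7.FR.Exact

/-!
# The strong form of Fraenkel's conjecture: a denominator which is maximal for divisibility
-/

open Finset Complex
open Pool.Agent.Helper27.FK

namespace Pool.Agent.Helper7.FR

/-- The Fourier coefficients at the frequency `a / D`, where `D` is maximal for divisibility. -/
theorem fourier_setup {ι : Type*} [Fintype ι] (P q : ι → ℕ) (θ : ι → ℝ)
    (hq : ∀ i, 0 < q i) (hcop : ∀ i, Nat.Coprime (P i) (q i)) {D : ℕ} (hD2 : 2 ≤ D)
    (hD : ∀ i, D ∣ q i → q i = D)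
    (hconst : ∃ c : ℝ, ∀ j : ℤ, ∑ i, Int.fract ((j:ℝ) * ((P i : ℝ) / q i) + θ i) = c)
    {a : ℤ} (hacop : IsCoprime a (D:ℤ)) :
    ∃ (K : ℝ) (F : ι → ℂ), 0 < K ∧ ∑ i ∈ Finset.univ.filter (fun i => q i = D), F i = 0 ∧
      ∀ i, q i = D → ∀ y : ℤ, (D:ℤ) ∣ P i * y - a →
        (ee ((y:ℝ) / D) - 1) * F i =
          -(ee ((y:ℝ) / D * ((1 + ⌊(D:ℝ) * θ i⌋ : ℤ) : ℝ)) * (K : ℂ)) := by
  obtain ⟨c, hc⟩ := hconst
  have hD0 : 0 < D := by omega
  have hD' : (0:ℝ) < D := by exact_mod_cast hD0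
  set L : ℕ := D * ∏ i, q i with hLdef
  have hL0 : 0 < L := Nat.mul_pos hD0 (Finset.prod_pos fun i _ => hq i)
  have hL' : (0:ℝ) < L := by exact_mod_cast hL0
  have hLq : ∀ i, q i ∣ L := fun i => (Finset.dvd_prod_of_mem q (Finset.mem_univ i)).mul_left _
  have hLD : D ∣ L := dvd_mul_right _ _
  have hnd : ¬ (D:ℤ) ∣ a := by
    intro h
    have h1 : IsUnit (D:ℤ) := hacop.isUnit_of_dvd' h dvd_rfl
    rw [Int.isUnit_iff] at h1
    omega
  set F : ι → ℂ := fun i => per L (fun j =>
    ((Int.fract ((j:ℝ) * ((P i:ℝ) / q i) + θ i) : ℝ) : ℂ) * ee (-((a:ℝ) / D * j))) with hF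
  have hsum : ∑ i, F i = 0 := by
    rw [hF]
    simp only
    rw [← per_sum Finset.univ L (fun i j =>
      ((Int.fract ((j:ℝ) * ((P i:ℝ) / q i) + θ i) : ℝ) : ℂ) * ee (-((a:ℝ) / D * j)))]
    have h1 : (fun j : ℤ => ∑ i, ((Int.fract ((j:ℝ) * ((P i:ℝ) / q i) + θ i) : ℝ) : ℂ) *
        ee (-((a:ℝ) / D * j))) = fun j : ℤ => (c:ℂ) * ee (-((a:ℝ) / D * j)) := by
      funext j
      rw [← Finset.sum_mul, ← hc j]
      push_cast
      rfl
    rw [h1, per_mul_left]
    have h2 : per L (fun j => ee (-((a:ℝ) / D * j))) = 0 := by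
      apply per_char
      · obtain ⟨k, hk⟩ := hLD
        refine ⟨a * k, ?_⟩
        rw [hk]; push_cast; field_simp
      · rintro ⟨m, hm⟩
        apply hnd
        refine ⟨m, ?_⟩
        have : (a:ℝ) = D * m := by rw [← hm]; field_simp
        exact_mod_cast this
    rw [h2, mul_zero]
  have hF0 : ∀ i, q i ≠ D → F i = 0 := by
    intro i hi
    exact per_fract_zero' (hq i) hD0 (fun h => hi (hD i h)) (hLq i) hLD (θ i) hacop
  refine ⟨(L:ℝ) / D, F, by positivity, ?_, ?_⟩
  · rw [Finset.sum_filter]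
    refine Eq.trans (Finset.sum_congr rfl fun k _ => ?_) hsum
    split_ifs with h
    · rfl
    · exact (hF0 k h).symm
  · intro i hi y hy
    have h1 := per_fract_exact (P := P i) (q := D) (L := L) hD0 (by rw [← hi]; exact hcop i) hLD
      (θ i) (a := a) (x := y) hy hnd
    have h2 : F i = per L (fun j =>
      ((Int.fract ((j:ℝ) * ((P i:ℝ) / D) + θ i) : ℝ) : ℂ) * ee (-((a:ℝ) / D * j))) := by
      rw [hF]
      simp only
      rw [hi]
    rw [h2]
    exact h1

/-- the absolute values. -/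
lemma norm_of_exact {D : ℕ} {K : ℝ} (hK : 0 < K) {F : ℂ} {y : ℤ} {w : ℝ}
    (h : (ee ((y:ℝ) / D) - 1) * F = -(ee w * (K : ℂ))) :
    ‖F‖ = (K / 2) * (1 / |Real.sin (Real.pi * y / D)|) := by
  have h1 : ‖ee ((y:ℝ) / D) - 1‖ * ‖F‖ = K := by
    rw [← norm_mul, h, norm_neg, norm_mul, norm_ee, one_mul, Complex.norm_real, Real.norm_eq_abs,
      abs_of_pos hK]
  rw [norm_ee_sub_one] at h1
  have h2 : Real.pi * y / D = Real.pi * ((y:ℝ) / D) := by ring
  rw [h2]
  have h3 : |Real.sin (Real.pi * ((y:ℝ) / D))| ≠ 0 := by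
    intro h4
    rw [h4] at h1
    simp at h1
    linarith
  generalize |Real.sin (Real.pi * ((y:ℝ) / D))| = S at h1 h3
  have h5 : ‖F‖ = K / (2 * S) := by
    rw [eq_div_iff (by simpa using h3)]
    linarith
  rw [h5]
  field_simp

/-! ### a representative of `a / P` -/

/-- a signed representative. -/
lemma exists_rep {D a b : ℕ} (hb : b.Coprime D) :
    ∃ x : ℤ, (D:ℤ) ∣ (b:ℤ) * x - a ∧ (x = xd D a b ∨ x = -(xd D a b : ℤ)) := by
  rcases mul_xd_cast (a := a) hb with h1 | h1
  · refine ⟨xd D a b, ?_, Or.inl rfl⟩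
    rw [← ZMod.intCast_zmod_eq_zero_iff_dvd]
    push_cast at h1 ⊢
    rw [h1, sub_self]
  · refine ⟨-(xd D a b : ℤ), ?_, Or.inr rfl⟩
    rw [← ZMod.intCast_zmod_eq_zero_iff_dvd]
    push_cast at h1 ⊢
    linear_combination (-1 : ZMod D) * h1

/-- the norms of the Fourier coefficients in terms of `f`. -/
lemma norm_eq_f {D a b : ℕ} (hD : 2 ≤ D) (ha : a.Coprime D) (hb : b.Coprime D) {K : ℝ}
    (hK : 0 < K) {F : ℂ} {w : ℤ → ℝ}
    (h : ∀ y : ℤ, (D:ℤ) ∣ (b:ℤ) * y - a → (ee ((y:ℝ) / D) - 1) * F = -(ee (w y) * (K : ℂ))) :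
    ‖F‖ = (K / 2) * (1 / Real.sin (Real.pi / D)) * f D (xd D a b) := by
  obtain ⟨x, hx, hxe⟩ := exists_rep (a := a) hb
  have h1 := norm_of_exact hK (h x hx)
  have hxp := xd_pos (D := D) (by omega) ha hb
  have hx2 := two_mul_xd_le (D := D) (by omega) a b
  have hs := sin_pos_of (D := D) hxp (by omega)
  have hs1 : 0 < Real.sin (Real.pi / D) := by
    have := sin_pos_of (D := D) (x := 1) one_pos (by omega)
    simpa using this
  have h2 : |Real.sin (Real.pi * x / D)| = Real.sin (Real.pi * (xd D a b : ℝ) / D) := by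
    rcases hxe with h3 | h3
    · rw [h3]
      push_cast
      exact abs_of_pos hs
    · rw [h3]
      push_cast
      rw [mul_neg, neg_div, Real.sin_neg, abs_neg]
      exact abs_of_pos hs
  rw [h1, h2]
  unfold f
  field_simp

/-! ### the cosecant system -/

/-- the cosecant inequalities, for a denominator maximal for divisibility. -/
theorem sys_of_const' {ι : Type*} [Fintype ι] [DecidableEq ι] {r θ : ι → ℝ}
    (hs : ∑ i, r i = 1) (P q : ι → ℕ)
    (hq : ∀ i, 0 < q i) (hP : ∀ i, 0 < P i) (hcop : ∀ i, Nat.Coprime (P i) (q i))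
    (hr : ∀ i, r i = (P i : ℝ) / q i) {D : ℕ} (hD : ∀ i, D ∣ q i → q i = D) (hD2 : 2 ≤ D)
    (hinj : ∀ i j, q i = D → q j = D → r i = r j → i = j)
    (hc : ∃ c : ℝ, ∀ j : ℤ, ∑ i, Int.fract ((j:ℝ) * r i + θ i) = c) :
    Sys D ((Finset.univ.filter fun i => q i = D).image P) := by
  have hD' : (0:ℝ) < D := by exact_mod_cast (by omega : 0 < D)
  have hPinj : ∀ i ∈ Finset.univ.filter (fun i => q i = D), ∀ j ∈ Finset.univ.filter
      (fun i => q i = D), P i = P j → i = j := by
    intro i hi j hj h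
    rw [Finset.mem_filter] at hi hj
    apply hinj i j hi.2 hj.2
    rw [hr, hr, hi.2, hj.2, h]
  refine ⟨?_, ?_, ?_, ?_⟩
  · intro a ha
    rw [Finset.mem_image] at ha
    obtain ⟨i, _, rfl⟩ := ha
    exact hP i
  · intro a ha
    rw [Finset.mem_image] at ha
    obtain ⟨i, hi, rfl⟩ := ha
    rw [Finset.mem_filter] at hi
    rw [← hi.2]
    exact hcop i
  · rw [Finset.sum_image hPinj]
    have h1 : (∑ i ∈ Finset.univ.filter (fun i => q i = D), (P i : ℝ)) / D ≤ 1 := by
      rw [← hs, Finset.sum_div]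
      calc ∑ i ∈ Finset.univ.filter (fun i => q i = D), (P i : ℝ) / D
          = ∑ i ∈ Finset.univ.filter (fun i => q i = D), r i := by
            refine Finset.sum_congr rfl fun i hi => ?_
            rw [Finset.mem_filter] at hi
            rw [hr, hi.2]
        _ ≤ ∑ i, r i := Finset.sum_le_sum_of_subset_of_nonneg (Finset.subset_univ _) (by
            intro i _ _
            rw [hr]
            positivity)
    rw [div_le_one hD'] at h1
    exact_mod_cast h1
  · intro a ha
    rw [Finset.mem_image] at ha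
    obtain ⟨i, hi, rfl⟩ := ha
    have hi' := hi
    rw [Finset.mem_filter] at hi
    have hiD := hi.2
    have hcopD : ∀ k, q k = D → (P k).Coprime D := fun k hk => by rw [← hk]; exact hcop k
    obtain ⟨K, F, hK, hF, hFe⟩ := fourier_setup P q θ hq hcop hD2 hD (by
      obtain ⟨c, hc⟩ := hc
      refine ⟨c, fun j => ?_⟩
      rw [← hc j]
      refine Finset.sum_congr rfl fun k _ => ?_
      rw [hr k]) (a := (P i : ℤ)) (Nat.isCoprime_iff_coprime.2 (hcopD i hiD))
    have hs1 : 0 < Real.sin (Real.pi / D) := by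
      have := sin_pos_of (D := D) (x := 1) one_pos (by omega)
      simpa using this
    have hnorm : ∀ k, q k = D → ‖F k‖ =
        (K / 2) * (1 / Real.sin (Real.pi / D)) * f D (xd D (P i) (P k)) := fun k hk =>
      norm_eq_f hD2 (hcopD i hiD) (hcopD k hk) hK (fun y hy => hFe k hk y hy)
    have hself : xd D (P i) (P i) = 1 := by
      apply xd_eq_of (by omega) (hcopD i hiD) (by omega)
      left
      exact ⟨0, by push_cast; ring⟩
    have h0 : ‖F i‖ = (K / 2) * (1 / Real.sin (Real.pi / D)) := by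
      rw [hnorm i hiD, hself, f_one hD2, mul_one]
    have hpoly : ‖F i‖ ≤ ∑ k ∈ (Finset.univ.filter (fun k => q k = D)).erase i, ‖F k‖ := by
      have h1 : F i = - ∑ k ∈ (Finset.univ.filter (fun k => q k = D)).erase i, F k := by
        rw [← Finset.add_sum_erase _ F hi'] at hF
        linear_combination hF
      rw [h1, norm_neg]
      exact norm_sum_le _ _
    have e : ((Finset.univ.filter fun i => q i = D).image P).erase (P i) =
        ((Finset.univ.filter fun k => q k = D).erase i).image P := by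
      ext b
      simp only [Finset.mem_erase, Finset.mem_image, Finset.mem_filter, Finset.mem_univ, true_and]
      constructor
      · rintro ⟨h1, k, hk, rfl⟩
        exact ⟨k, ⟨fun h => h1 (by rw [h]), hk⟩, rfl⟩
      · rintro ⟨k, ⟨h1, hk⟩, rfl⟩
        refine ⟨fun h => h1 ?_, k, hk, rfl⟩
        exact hPinj k (Finset.mem_filter.2 ⟨Finset.mem_univ _, hk⟩) i hi' h
    rw [e, Finset.sum_image (by
      intro k hk l hl h
      exact hPinj k (Finset.mem_of_mem_erase hk) l (Finset.mem_of_mem_erase hl) h)]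
    have h3 : ∑ k ∈ (Finset.univ.filter (fun k => q k = D)).erase i, ‖F k‖ =
        (K / 2) * (1 / Real.sin (Real.pi / D)) *
          ∑ k ∈ (Finset.univ.filter (fun k => q k = D)).erase i, f D (xd D (P i) (P k)) := by
      rw [Finset.mul_sum]
      refine Finset.sum_congr rfl fun k hk => ?_
      rw [Finset.mem_erase, Finset.mem_filter] at hk
      exact hnorm k hk.2.2
    rw [h0, h3] at hpoly
    have h4 : 0 < (K / 2) * (1 / Real.sin (Real.pi / D)) := by positivity
    have h5 : (K / 2) * (1 / Real.sin (Real.pi / D)) * 1 ≤ (K / 2) * (1 / Real.sin (Real.pi / D)) *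
          ∑ k ∈ (Finset.univ.filter (fun k => q k = D)).erase i, f D (xd D (P i) (P k)) := by
      rw [mul_one]; exact hpoly
    exact le_of_mul_le_mul_left h5 h4

end Pool.Agent.Helper7.FR
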