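import Pool.Agent.Helper7.FR.DivMax

/-!
# The strong form of Fraenkel's conjecture: the case of equality
-/

open Finset Complex
open Pool.Agent.Helper27.FK

namespace Pool.Agent.Helper7.FR

/-- equality in the triangle inequality -/
lemma eq_norm_of_sum {ι : Type*} {s : Finset ι} {w : ι → ℂ} (h1 : ∑ k ∈ s, w k = 1)
    (h2 : ∑ k ∈ s, ‖w k‖ ≤ 1) : ∀ k ∈ s, w k = (‖w k‖ : ℂ) := by
  have hre : ∑ k ∈ s, (w k).re = 1 := by
    rw [← Complex.re_sum, h1, Complex.one_re]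
  have h3 : ∑ k ∈ s, (‖w k‖ - (w k).re) ≤ 0 := by
    rw [Finset.sum_sub_distrib, hre]
    linarith
  have h4 : ∀ k ∈ s, 0 ≤ ‖w k‖ - (w k).re := fun k _ => sub_nonneg.2 (Complex.re_le_norm _)
  have h5 : ∑ k ∈ s, (‖w k‖ - (w k).re) = 0 := le_antisymm h3 (Finset.sum_nonneg h4)
  intro k hk
  have h6 := (Finset.sum_eq_zero_iff_of_nonneg h4).1 h5 k hk
  have h7 : (w k).re = ‖w k‖ := by linarith
  exact Complex.eq_coe_norm_of_nonneg (Complex.re_eq_norm.1 h7)

/-! ### the sum of cosecants -/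

lemma csc_step {z : ℝ} (h1 : Real.sin z ≠ 0) (h2 : Real.sin (2 * z) ≠ 0) :
    Real.cos z / Real.sin z - Real.cos (2 * z) / Real.sin (2 * z) = 1 / Real.sin (2 * z) := by
  rw [Real.sin_two_mul] at h2 ⊢
  have h3 : Real.cos z ≠ 0 := fun h => h2 (by rw [h, mul_zero])
  rw [Real.cos_two_mul]
  field_simp
  ring

lemma csc_telescope {y : ℝ} : ∀ n : ℕ, (∀ m ≤ n, Real.sin (2 ^ m * y) ≠ 0) →
    ∑ m ∈ Finset.range n, 1 / Real.sin (2 ^ (m + 1) * y) =
      Real.cos y / Real.sin y - Real.cos (2 ^ n * y) / Real.sin (2 ^ n * y) := by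
  intro n
  induction n with
  | zero => intro _; simp
  | succ n ih =>
    intro h
    rw [Finset.sum_range_succ, ih (fun m hm => h m (by omega))]
    have h1 := h n (by omega)
    have h2 := h (n + 1) le_rfl
    have e : (2:ℝ) ^ (n + 1) * y = 2 * (2 ^ n * y) := by ring
    rw [e] at h2 ⊢
    have := csc_step h1 h2
    linarith

/-- the cosecant identity for `D = 2^k - 1` -/
lemma f_sum {k D : ℕ} (hk : 3 ≤ k) (hD : D + 1 = 2 ^ k) :
    ∑ m ∈ Finset.range (k - 1), f D (2 ^ (m + 1)) = 1 := by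
  have hk2 : 2 ^ k = 2 * 2 ^ (k - 1) := by
    rw [← pow_succ']
    congr 1
    omega
  have hk4 : 4 ≤ 2 ^ (k - 1) := by
    calc 4 = 2 ^ 2 := by norm_num
      _ ≤ 2 ^ (k - 1) := Nat.pow_le_pow_right (by norm_num) (by omega)
  have hD7 : 7 ≤ D := by omega
  have hD' : (0:ℝ) < D := by exact_mod_cast (by omega : 0 < D)
  set y : ℝ := Real.pi / D with hy
  have hpi := Real.pi_pos
  have hDy : (D:ℝ) * y = Real.pi := by rw [hy]; field_simp
  have hsin : ∀ m ≤ k - 1, Real.sin (2 ^ m * y) ≠ 0 := by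
    intro m hm
    have h1 : 2 ^ m ≤ 2 ^ (k - 1) := Nat.pow_le_pow_right (by norm_num) hm
    have h2 := sin_pos_of (D := D) (x := 2 ^ m) (by positivity) (by omega)
    have e : Real.pi * ((2 ^ m : ℕ) : ℝ) / D = 2 ^ m * y := by
      rw [hy]; push_cast; ring
    rw [e] at h2
    exact h2.ne'
  have hsum := csc_telescope (y := y) (k - 1) hsin
  have e1 : ∀ m, f D (2 ^ (m + 1)) = Real.sin y * (1 / Real.sin (2 ^ (m + 1) * y)) := by
    intro m
    unfold f
    have e : Real.pi * ((2 ^ (m + 1) : ℕ) : ℝ) / D = 2 ^ (m + 1) * y := by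
      rw [hy]; push_cast; ring
    rw [e, mul_one_div]
  have hDk : (2:ℝ) ^ (k - 1) * 2 = D + 1 := by
    have : ((2 ^ (k - 1) * 2 : ℕ) : ℝ) = ((D + 1 : ℕ) : ℝ) := by
      congr 1
      omega
    push_cast at this
    exact this
  have e2 : (2:ℝ) ^ (k - 1) * y = y / 2 + Real.pi / 2 := by
    have : (2:ℝ) ^ (k - 1) * 2 * y = (D + 1) * y := by rw [hDk]
    linarith
  rw [e2, Real.cos_add_pi_div_two, Real.sin_add_pi_div_two] at hsum
  have hy1 : Real.sin y ≠ 0 := by simpa using hsin 0 (Nat.zero_le _)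
  have e3 : y = 2 * (y / 2) := by ring
  have hs2 : Real.sin y = 2 * Real.sin (y / 2) * Real.cos (y / 2) := by
    rw [← Real.sin_two_mul, ← e3]
  have hc2 : Real.cos y = 2 * Real.cos (y / 2) ^ 2 - 1 := by
    rw [← Real.cos_two_mul, ← e3]
  have hsq := Real.sin_sq_add_cos_sq (y / 2)
  calc ∑ m ∈ Finset.range (k - 1), f D (2 ^ (m + 1))
      = Real.sin y * ∑ m ∈ Finset.range (k - 1), 1 / Real.sin (2 ^ (m + 1) * y) := by
        rw [Finset.mul_sum]
        exact Finset.sum_congr rfl fun m _ => e1 m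
    _ = 1 := by
        rw [hsum]
        have h1 : Real.sin (y / 2) ≠ 0 := by
          intro h; apply hy1; rw [hs2, h]; ring
        have h2 : Real.cos (y / 2) ≠ 0 := by
          intro h; apply hy1; rw [hs2, h]; ring
        rw [hs2, hc2]
        field_simp
        nlinarith

/-- the distances in the variant -/
lemma f_xd_pow {k D i : ℕ} (hk : 3 ≤ k) (hD : D + 1 = 2 ^ k) (hi1 : 1 ≤ i) (hi : i + 1 ≤ k) :
    f D (xd D 1 (2 ^ i)) = f D (2 ^ (k - i)) := by
  have hk2 : 2 ^ k = 2 * 2 ^ (k - 1) := by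
    rw [← pow_succ']
    congr 1
    omega
  have hk4 : 4 ≤ 2 ^ (k - 1) := by
    calc 4 = 2 ^ 2 := by norm_num
      _ ≤ 2 ^ (k - 1) := Nat.pow_le_pow_right (by norm_num) (by omega)
  have hD7 : 7 ≤ D := by omega
  have hodd : D % 2 = 1 := by omega
  have hcop : Nat.Coprime (2 ^ i) D := by
    apply Nat.Coprime.pow_left
    rw [Nat.coprime_two_left]
    exact Nat.odd_iff.2 hodd
  rcases (by omega : i = 1 ∨ 2 ≤ i) with rfl | hi2
  · have hx : xd D 1 (2 ^ 1) = D - 2 ^ (k - 1) := by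
      apply xd_eq_of (by omega) hcop (by omega)
      right
      refine ⟨1, ?_⟩
      have : ((D - 2 ^ (k - 1) : ℕ) : ℤ) = D - 2 ^ (k - 1) := by
        rw [Nat.cast_sub (by omega)]
        push_cast
        rfl
      rw [this]
      have h5 : (D:ℤ) + 1 = 2 * 2 ^ (k - 1) := by
        have : ((D + 1 : ℕ) : ℤ) = ((2 * 2 ^ (k - 1) : ℕ) : ℤ) := by
          congr 1; omega
        push_cast at this
        exact this
      push_cast
      linarith
    rw [hx]
    unfold f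
    congr 1
    have hD' : (0:ℝ) < D := by exact_mod_cast (by omega : 0 < D)
    have e : Real.pi * ((D - 2 ^ (k - 1) : ℕ) : ℝ) / D =
        Real.pi - Real.pi * ((2 ^ (k - 1) : ℕ) : ℝ) / D := by
      rw [Nat.cast_sub (by omega)]
      field_simp
    rw [e, Real.sin_pi_sub]
  · have hx : xd D 1 (2 ^ i) = 2 ^ (k - i) := by
      apply xd_eq_of (by omega) hcop
      · have h1 : 2 * 2 ^ (k - i) = 2 ^ (k - i + 1) := by rw [pow_succ']
        have h2 : 2 ^ (k - i + 1) ≤ 2 ^ (k - 1) := Nat.pow_le_pow_right (by norm_num) (by omega)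
        omega
      · left
        refine ⟨1, ?_⟩
        have h1 : (2:ℤ) ^ i * 2 ^ (k - i) = 2 ^ k := by
          rw [← pow_add]
          congr 1
          omega
        have h5 : (D:ℤ) + 1 = 2 ^ k := by exact_mod_cast hD
        push_cast
        rw [h1]
        linarith
    rw [hx]

lemma xd_last {k D : ℕ} (hk : 3 ≤ k) (hD : D + 1 = 2 ^ k) : xd D 1 (2 ^ (k - 1) - 1) = 2 := by
  have hk2 : 2 ^ k = 2 * 2 ^ (k - 1) := by
    rw [← pow_succ']
    congr 1
    omega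
  have hk4 : 4 ≤ 2 ^ (k - 1) := by
    calc 4 = 2 ^ 2 := by norm_num
      _ ≤ 2 ^ (k - 1) := Nat.pow_le_pow_right (by norm_num) (by omega)
  have hcop : Nat.Coprime (2 ^ (k - 1) - 1) D := by
    have h1 : D = 2 * (2 ^ (k - 1) - 1) + 1 := by omega
    rw [h1]
    simp
  apply xd_eq_of (by omega) hcop (by omega)
  right
  refine ⟨1, ?_⟩
  have : ((2 ^ (k - 1) - 1 : ℕ) : ℤ) = 2 ^ (k - 1) - 1 := by
    rw [Nat.cast_sub (by omega)]
    push_cast
    rfl
  rw [this]
  have h5 : (D:ℤ) + 1 = 2 * 2 ^ (k - 1) := by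
    have : ((D + 1 : ℕ) : ℤ) = ((2 * 2 ^ (k - 1) : ℕ) : ℤ) := by
      congr 1; omega
    push_cast at this
    exact this
  push_cast
  linarith

/-- the variant has equality in the inequality at the numerator one -/
lemma variant_sum {k D : ℕ} (hk : 3 ≤ k) (hD : D + 1 = 2 ^ k) {I : Finset ℕ}
    (hI : I = insert (2 ^ (k - 1) - 1) ((Finset.range (k - 1)).image (fun i => 2 ^ i))) :
    ∑ b ∈ I.erase 1, f D (xd D 1 b) = 1 := by
  have hk4 : 4 ≤ 2 ^ (k - 1) := by
    calc 4 = 2 ^ 2 := by norm_num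
      _ ≤ 2 ^ (k - 1) := Nat.pow_le_pow_right (by norm_num) (by omega)
  have hnot : ∀ i, 2 ^ (k - 1) - 1 ≠ 2 ^ i := by
    intro i hi
    rcases Nat.eq_zero_or_pos i with rfl | hip
    · rw [pow_zero] at hi
      omega
    · have h8 : 2 ^ i = 2 * 2 ^ (i - 1) := by rw [← pow_succ']; congr 1; omega
      have h9 : 2 ^ (k - 1) = 2 * 2 ^ (k - 1 - 1) := by rw [← pow_succ']; congr 1; omega
      omega
  have e : I.erase 1 =
      insert (2 ^ (k - 1) - 1) ((Finset.range (k - 2)).image (fun i => 2 ^ (i + 1))) := by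
    rw [hI]
    ext b
    simp only [Finset.mem_erase, Finset.mem_insert, Finset.mem_image, Finset.mem_range]
    constructor
    · rintro ⟨h1, h2 | ⟨i, hi, rfl⟩⟩
      · exact Or.inl h2
      · right
        have hi0 : i ≠ 0 := by
          rintro rfl
          exact h1 (by norm_num)
        exact ⟨i - 1, by omega, by congr 1; omega⟩
    · rintro (h1 | ⟨i, hi, rfl⟩)
      · refine ⟨?_, Or.inl h1⟩
        rw [h1]; omega
      · refine ⟨?_, Or.inr ⟨i + 1, by omega, rfl⟩⟩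
        have : 2 ^ 1 ≤ 2 ^ (i + 1) := Nat.pow_le_pow_right (by norm_num) (by omega)
        omega
  have hni : 2 ^ (k - 1) - 1 ∉ (Finset.range (k - 2)).image (fun i => 2 ^ (i + 1)) := by
    intro h
    rw [Finset.mem_image] at h
    obtain ⟨i, _, hi⟩ := h
    exact hnot _ hi.symm
  rw [e, Finset.sum_insert hni, xd_last hk hD, Finset.sum_image (by
    intro i _ j _ h
    have := Nat.pow_right_injective le_rfl h
    omega)]
  have h1 : ∑ i ∈ Finset.range (k - 2), f D (xd D 1 (2 ^ (i + 1))) =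
      ∑ i ∈ Finset.range (k - 2), f D (2 ^ (i + 2)) := by
    rw [← Finset.sum_range_reflect (fun i => f D (2 ^ (i + 2))) (k - 2)]
    refine Finset.sum_congr rfl fun i hi => ?_
    rw [Finset.mem_range] at hi
    rw [f_xd_pow hk hD (by omega) (by omega)]
    congr 2
    omega
  rw [h1]
  have h2 := f_sum hk hD
  have h3 : k - 1 = (k - 2) + 1 := by omega
  rw [h3, Finset.sum_range_succ' (fun m => f D (2 ^ (m + 1)))] at h2
  simp only [zero_add, pow_one] at h2
  rw [add_comm]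
  exact h2

/-! ### the phases -/

lemma ee_add_ee_neg (t : ℝ) : ee t + ee (-t) = ((2 * Real.cos (2 * Real.pi * t) : ℝ) : ℂ) := by
  unfold ee
  have e1 : (2 * (Real.pi:ℂ) * (t:ℂ) * I) = ((2 * Real.pi * t : ℝ) : ℂ) * I := by push_cast; ring
  have e2 : (2 * (Real.pi:ℂ) * ((-t : ℝ):ℂ) * I) = -((2 * Real.pi * t : ℝ) : ℂ) * I := by
    push_cast; ring
  rw [e1, e2]
  push_cast
  rw [Complex.cos]
  ring

/-- the parity contradiction -/
lemma parity_false {D : ℕ} (hD : 3 ≤ D) {K : ℝ} (hK : 0 < K) {F₀ F₁ : ℂ} {c₀ c₁ : ℤ}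
    (h0 : (ee (1 / D) - 1) * F₀ = -(ee ((1:ℝ) / D * ((1 + c₀ : ℤ) : ℝ)) * (K : ℂ)))
    (h1 : (ee (-2 / D) - 1) * F₁ = -(ee ((-2:ℝ) / D * ((1 + c₁ : ℤ) : ℝ)) * (K : ℂ)))
    {t : ℝ} (ht : 0 ≤ t) (hF : -F₁ = t * F₀) : False := by
  have hD' : (0:ℝ) < D := by exact_mod_cast (by omega : 0 < D)
  have hD3 : (3:ℝ) ≤ D := by exact_mod_cast hD
  have hKc : (K:ℂ) ≠ 0 := by exact_mod_cast hK.ne'
  set u : ℂ := ee (1 / D) with hu
  set X : ℂ := ee ((1:ℝ) / D * ((1 + c₀ : ℤ) : ℝ)) with hX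
  set Y : ℂ := ee ((-2:ℝ) / D * ((1 + c₁ : ℤ) : ℝ)) with hY
  have hu0 : u ≠ 0 := ee_ne_zero _
  have hX0 : X ≠ 0 := ee_ne_zero _
  have hu1 : u - 1 ≠ 0 := by
    intro h
    rw [sub_eq_zero] at h
    obtain ⟨n, hn⟩ := (ee_eq_one_iff _).1 h
    have h2 : (1:ℝ) = n * D := by
      rw [← hn]; field_simp
    have h3 : (1:ℤ) = n * D := by exact_mod_cast h2
    have h4 : (D:ℤ) ∣ 1 := ⟨n, by rw [h3]; ring⟩
    have h5 := Int.le_of_dvd one_pos h4
    omega
  have hu2 : ee (-2 / D) * u ^ 2 = 1 := by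
    rw [hu, sq, ← ee_add, ← ee_add]
    have : (-2:ℝ) / D + (1 / D + 1 / D) = 0 := by ring
    rw [this, ee_zero]
  -- the relation
  have key : t * X * (u + 1) = Y * u ^ 2 := by
    have e1 : (t:ℂ) * F₀ * (ee (-2 / D) - 1) = Y * K := by
      rw [← hF]
      linear_combination (-1 : ℂ) * h1
    have e2 : (t:ℂ) * F₀ * (1 - u ^ 2) = Y * K * u ^ 2 := by
      have : (t:ℂ) * F₀ * (ee (-2 / D) - 1) * u ^ 2 = Y * K * u ^ 2 := by rw [e1]
      linear_combination this - (t:ℂ) * F₀ * hu2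
    have e3 : (K:ℂ) * (u - 1) * (t * X * (u + 1)) = (K:ℂ) * (u - 1) * (Y * u ^ 2) := by
      linear_combination (u - 1) * e2 + (-(t:ℂ) * (1 - u ^ 2)) * h0
    exact mul_left_cancel₀ (mul_ne_zero hKc hu1) e3
  -- the half angle
  set h : ℝ := 1 / (2 * D) with hh
  have hv : u + 1 = ee h * ((2 * Real.cos (2 * Real.pi * h) : ℝ) : ℂ) := by
    rw [← ee_add_ee_neg, mul_add, ← ee_add, ← ee_add]
    have h3 : h + h = 1 / D := by rw [hh]; field_simp; norm_num
    rw [h3, add_neg_cancel, ee_zero]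
  have hcos : 0 ≤ Real.cos (2 * Real.pi * h) := by
    have h4 : 2 * Real.pi * h = Real.pi / D := by rw [hh]; field_simp
    rw [h4]
    apply Real.cos_nonneg_of_neg_pi_div_two_le_of_le
    · have : 0 ≤ Real.pi / D := by positivity
      have := Real.pi_pos
      linarith
    · apply div_le_div_of_nonneg_left Real.pi_pos.le (by norm_num)
      linarith
  set S : ℝ := t * (2 * Real.cos (2 * Real.pi * h)) with hS
  have hS0 : 0 ≤ S := by positivity
  -- everything in terms of `ee`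
  have h5 : ((S : ℝ) : ℂ) = ee (((-4 * c₁ - 2 * c₀ - 3 : ℤ) : ℝ) / (2 * D)) := by
    have e4 : (S:ℂ) * (X * ee h) = Y * u ^ 2 := by
      rw [← key, hv, hS]
      push_cast
      ring
    have e5 : ee (((-4 * c₁ - 2 * c₀ - 3 : ℤ) : ℝ) / (2 * D)) * (X * ee h) = Y * u ^ 2 := by
      rw [hX, hY, hu, sq, ← ee_add, ← ee_add, ← ee_add, ← ee_add]
      congr 1
      rw [hh]
      push_cast
      field_simp
      ring
    exact mul_right_cancel₀ (mul_ne_zero hX0 (ee_ne_zero _)) (e4.trans e5.symm)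
  have h6 : S = 1 := by
    have := congrArg norm h5
    rw [norm_ee, Complex.norm_real, Real.norm_eq_abs, abs_of_nonneg hS0] at this
    exact this
  rw [h6, Complex.ofReal_one] at h5
  obtain ⟨n, hn⟩ := (ee_eq_one_iff _).1 h5.symm
  have h7 : ((-4 * c₁ - 2 * c₀ - 3 : ℤ) : ℝ) = ((2 * (n * D) : ℤ) : ℝ) := by
    rw [div_eq_iff (by positivity)] at hn
    rw [hn]
    push_cast
    ring
  have h8 : (-4 * c₁ - 2 * c₀ - 3 : ℤ) = 2 * (n * D) := by exact_mod_cast h7
  omega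

end Pool.Agent.Helper7.FR
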