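import Pool.Agent.Helper7.FR.DivMax2
import Pool.Agent.Helper7.FR.Class

/-!
# The strong form of Fraenkel's conjecture: repetition at every denominator which is maximal for
divisibility
-/

open Finset Complex
open Pool.Agent.Helper27.FK

namespace Pool.Agent.Helper7.FR

/-- The variant of the cosecant theorem does not come from an exact cover. -/
theorem variant_false {ι : Type*} [Fintype ι] [DecidableEq ι] {θ : ι → ℝ} (P q : ι → ℕ)
    (hq : ∀ i, 0 < q i) (hcop : ∀ i, Nat.Coprime (P i) (q i)) {D k : ℕ}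
    (hD : ∀ i, D ∣ q i → q i = D) (hk : 3 ≤ k) (hDk : D + 1 = 2 ^ k)
    (hPinj : ∀ i j, q i = D → q j = D → P i = P j → i = j)
    (hI : (Finset.univ.filter fun i => q i = D).image P =
      insert (2 ^ (k - 1) - 1) ((Finset.range (k - 1)).image (fun i => 2 ^ i)))
    (hc : ∃ c : ℝ, ∀ j : ℤ, ∑ i, Int.fract ((j:ℝ) * ((P i : ℝ) / q i) + θ i) = c) : False := by
  have hk2 : 2 ^ k = 2 * 2 ^ (k - 1) := by
    rw [← pow_succ']
    congr 1
    omega
  have hk4 : 4 ≤ 2 ^ (k - 1) := by
    calc 4 = 2 ^ 2 := by norm_num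
      _ ≤ 2 ^ (k - 1) := Nat.pow_le_pow_right (by norm_num) (by omega)
  have hD7 : 7 ≤ D := by omega
  -- the index with numerator one
  obtain ⟨i₀, hi₀q, hi₀P⟩ : ∃ i, q i = D ∧ P i = 1 := by
    have : 1 ∈ (Finset.univ.filter fun i => q i = D).image P := by
      rw [hI]
      apply Finset.mem_insert_of_mem
      rw [Finset.mem_image]
      exact ⟨0, Finset.mem_range.2 (by omega), by norm_num⟩
    rw [Finset.mem_image] at this
    obtain ⟨i, hi, hP⟩ := this
    rw [Finset.mem_filter] at hi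
    exact ⟨i, hi.2, hP⟩
  obtain ⟨i₁, hi₁q, hi₁P⟩ : ∃ i, q i = D ∧ P i = 2 ^ (k - 1) - 1 := by
    have : 2 ^ (k - 1) - 1 ∈ (Finset.univ.filter fun i => q i = D).image P := by
      rw [hI]
      exact Finset.mem_insert_self _ _
    rw [Finset.mem_image] at this
    obtain ⟨i, hi, hP⟩ := this
    rw [Finset.mem_filter] at hi
    exact ⟨i, hi.2, hP⟩
  have hne : i₁ ≠ i₀ := by
    intro h
    rw [h, hi₀P] at hi₁P
    omega
  have hcopD : ∀ k, q k = D → (P k).Coprime D := fun k hk => by rw [← hk]; exact hcop k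
  obtain ⟨K, F, hK, hF, hFe⟩ := fourier_setup P q θ hq hcop (by omega) hD hc (a := (1:ℤ))
    isCoprime_one_left
  have hs1 : 0 < Real.sin (Real.pi / D) := by
    have := sin_pos_of (D := D) (x := 1) one_pos (by omega)
    simpa using this
  have hnorm : ∀ k, q k = D → ‖F k‖ =
      (K / 2) * (1 / Real.sin (Real.pi / D)) * f D (xd D 1 (P k)) := fun k hk =>
    norm_eq_f (by omega) (by simp) (hcopD k hk) hK (fun y hy => hFe k hk y (by simpa using hy))
  have hself : xd D 1 1 = 1 := by
    apply xd_eq_of (by omega) (by simp) (by omega)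
    left
    exact ⟨0, by push_cast; ring⟩
  set A : Finset ι := Finset.univ.filter fun i => q i = D with hA
  have hi₀A : i₀ ∈ A := by rw [hA, Finset.mem_filter]; exact ⟨Finset.mem_univ _, hi₀q⟩
  have hi₁A : i₁ ∈ A.erase i₀ := by
    rw [Finset.mem_erase, hA, Finset.mem_filter]; exact ⟨hne, Finset.mem_univ _, hi₁q⟩
  set κ : ℝ := (K / 2) * (1 / Real.sin (Real.pi / D)) with hκ
  have hκ0 : 0 < κ := by positivity
  have h0 : ‖F i₀‖ = κ := by
    rw [hnorm i₀ hi₀q, hi₀P, hself, f_one (by omega), mul_one]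
  have hF0 : F i₀ ≠ 0 := by
    intro h
    rw [h, norm_zero] at h0
    linarith
  -- the sum of the other norms
  have hother : ∑ k ∈ A.erase i₀, ‖F k‖ = κ := by
    have e : (A.image P).erase 1 = (A.erase i₀).image P := by
      ext b
      simp only [hA, Finset.mem_erase, Finset.mem_image, Finset.mem_filter, Finset.mem_univ,
        true_and]
      constructor
      · rintro ⟨h1, k, hk, rfl⟩
        exact ⟨k, ⟨fun h => h1 (by rw [h, hi₀P]), hk⟩, rfl⟩
      · rintro ⟨k, ⟨h1, hk⟩, rfl⟩
        refine ⟨fun h => h1 ?_, k, hk, rfl⟩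
        exact hPinj k i₀ hk hi₀q (by rw [h, hi₀P])
    have h2 : ∑ k ∈ A.erase i₀, f D (xd D 1 (P k)) = 1 := by
      rw [← variant_sum hk hDk hI, e, Finset.sum_image]
      intro k hk l hl h
      have hk' := Finset.mem_of_mem_erase hk
      have hl' := Finset.mem_of_mem_erase hl
      rw [hA, Finset.mem_filter] at hk' hl'
      exact hPinj k l hk'.2 hl'.2 h
    calc ∑ k ∈ A.erase i₀, ‖F k‖ = ∑ k ∈ A.erase i₀, κ * f D (xd D 1 (P k)) := by
          refine Finset.sum_congr rfl fun k hk => ?_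
          have hk' := Finset.mem_of_mem_erase hk
          rw [hA, Finset.mem_filter] at hk'
          exact hnorm k hk'.2
      _ = κ := by rw [← Finset.mul_sum, h2, mul_one]
  -- the normalised vectors
  have hw1 : ∑ k ∈ A.erase i₀, (-F k / F i₀) = 1 := by
    have h1 : F i₀ + ∑ k ∈ A.erase i₀, F k = 0 := by
      rw [Finset.add_sum_erase _ F hi₀A]
      exact hF
    have h2 : ∑ k ∈ A.erase i₀, (-F k / F i₀) = -(∑ k ∈ A.erase i₀, F k) / F i₀ := by
      rw [← Finset.sum_div, Finset.sum_neg_distrib]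
    rw [h2, div_eq_one_iff_eq hF0]
    linear_combination (-1 : ℂ) * h1
  have hw2 : ∑ k ∈ A.erase i₀, ‖-F k / F i₀‖ ≤ 1 := by
    have h2 : ∑ k ∈ A.erase i₀, ‖-F k / F i₀‖ = (∑ k ∈ A.erase i₀, ‖F k‖) / ‖F i₀‖ := by
      rw [Finset.sum_div]
      refine Finset.sum_congr rfl fun k _ => ?_
      rw [norm_div, norm_neg]
    rw [h2, hother, h0, div_self hκ0.ne']
  have hw := eq_norm_of_sum hw1 hw2 i₁ hi₁A
  -- the two exact values
  have g0 := hFe i₀ hi₀q 1 ⟨0, by rw [hi₀P]; ring⟩
  have g1 := hFe i₁ hi₁q (-2) ⟨-1, by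
    rw [hi₁P, Nat.cast_sub (by omega)]
    have h5 : (D:ℤ) + 1 = 2 * 2 ^ (k - 1) := by
      have : ((D + 1 : ℕ) : ℤ) = ((2 * 2 ^ (k - 1) : ℕ) : ℤ) := by
        congr 1; omega
      push_cast at this
      exact this
    push_cast
    linarith⟩
  refine parity_false (D := D) (by omega) hK (F₀ := F i₀) (F₁ := F i₁) (c₀ := ⌊(D:ℝ) * θ i₀⌋)
    (c₁ := ⌊(D:ℝ) * θ i₁⌋) (by simpa using g0) (by simpa using g1)
    (t := ‖-F i₁ / F i₀‖) (norm_nonneg _) ?_
  rw [← hw]
  field_simp

/-- **The strong form of Fraenkel's conjecture**, given the theorem on cosecant systems: if, in an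
exact cover with at least three rational rates, the rates with some denominator `D` which is
maximal for divisibility are pairwise distinct, then the rates are `2^i / (2^n - 1)`. -/
theorem strong_div_of {ι : Type*} [Fintype ι] (hT : CosecThm) {s : ι → ℚ} {θ : ι → ℝ}
    (h0 : ∀ i, 0 < s i) (h1 : ∀ i, s i < 1) (hs : ∑ i, s i = 1) (h3 : 3 ≤ Fintype.card ι)
    (hc : IsExactCover (fun i => (s i : ℝ)) θ) {i₀ : ι}
    (hmax : ∀ k, (s i₀).den ∣ (s k).den → (s k).den = (s i₀).den)
    (hinj : ∀ i j, (s i).den = (s i₀).den → s i = s j → i = j) :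
    Function.Injective s ∧ Set.range s =
      {x : ℚ | ∃ i : ℕ, i < Fintype.card ι ∧ x = 2 ^ i / (2 ^ (Fintype.card ι) - 1)} := by
  classical
  have h0' : ∀ i, (0:ℝ) < s i := fun i => by exact_mod_cast h0 i
  have h1' : ∀ i, (s i : ℝ) < 1 := fun i => by exact_mod_cast h1 i
  have hs' : ∑ i, (s i : ℝ) = 1 := by exact_mod_cast hs
  have hconst := sum_fract_const h0' h1' hs' hc
  set P : ι → ℕ := fun i => (s i).num.natAbs with hP
  set q : ι → ℕ := fun i => (s i).den with hq
  have hnum : ∀ i, ((s i).num : ℝ) = (P i : ℝ) := by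
    intro i
    have h4 : 0 < (s i).num := Rat.num_pos.2 (h0 i)
    have h5 : (((s i).num.natAbs : ℕ) : ℤ) = (s i).num := Int.natAbs_of_nonneg h4.le
    have h6 : (((s i).num.natAbs : ℕ) : ℝ) = ((((s i).num.natAbs : ℕ) : ℤ) : ℝ) :=
      (Int.cast_natCast _).symm
    rw [hP]
    simp only
    rw [h6, h5]
  have hr : ∀ i, (s i : ℝ) = (P i : ℝ) / q i := by
    intro i
    rw [← hnum i, hq]
    have := Rat.num_div_den (s i)
    have h4 : (((s i).num / (s i).den : ℚ) : ℝ) = (s i : ℝ) := by rw [this]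
    push_cast at h4
    exact h4.symm
  have hq0 : ∀ i, 0 < q i := fun i => (s i).den_pos
  have hP0 : ∀ i, 0 < P i := fun i => Int.natAbs_pos.2 (Rat.num_pos.2 (h0 i)).ne'
  have hcop : ∀ i, Nat.Coprime (P i) (q i) := fun i => (s i).reduced
  have hD2 : 2 ≤ q i₀ := by
    by_contra hcon
    have h4 : q i₀ = 1 := by have := hq0 i₀; omega
    have h5 := h1' i₀
    rw [hr, h4, Nat.cast_one, div_one] at h5
    have h6 : P i₀ < 1 := by exact_mod_cast h5
    have := hP0 i₀
    omega
  have hmax' : ∀ i, q i₀ ∣ q i → q i = q i₀ := fun i => hmax i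
  have hinj' : ∀ i j, q i = q i₀ → s i = s j → i = j := fun i j => hinj i j
  have hsys := sys_of_const' (r := fun i => (s i : ℝ)) (θ := θ) hs' P q hq0 hP0 hcop hr hmax' hD2
    (fun i j hi _ h => hinj' i j hi (by exact_mod_cast h)) hconst
  generalize hDdef : q i₀ = D at *
  have hD' : (0:ℝ) < D := by exact_mod_cast (by omega : 0 < D)
  -- the indices with denominator `D`
  set A : Finset ι := Finset.univ.filter fun i => q i = D with hA
  set I : Finset ℕ := A.image P with hI
  have hne : I.Nonempty := ⟨P i₀, Finset.mem_image_of_mem _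
    (Finset.mem_filter.2 ⟨Finset.mem_univ _, hDdef⟩)⟩
  have hPinj : ∀ i j, q i = D → q j = D → P i = P j → i = j := by
    intro i j hi hj h
    apply hinj' i j hi
    have : (s i : ℝ) = s j := by rw [hr, hr, hi, hj, h]
    exact_mod_cast this
  have hAinj : ∀ i ∈ A, ∀ j ∈ A, P i = P j → i = j := by
    intro i hi j hj h
    rw [hA, Finset.mem_filter] at hi hj
    exact hPinj i j hi.2 hj.2 h
  have hsumA : ∑ i ∈ A, (s i : ℝ) = ((∑ a ∈ I, a : ℕ) : ℝ) / D := by
    rw [hI, Finset.sum_image hAinj, Nat.cast_sum, Finset.sum_div]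
    refine Finset.sum_congr rfl fun i hi => ?_
    rw [hA, Finset.mem_filter] at hi
    rw [hr i, hi.2]
  have hcardA : A.card = I.card := by
    rw [hI, Finset.card_image_of_injOn hAinj]
  have hAc : ∑ i ∈ A, (s i : ℝ) + ∑ i ∈ Finset.univ \ A, (s i : ℝ) = 1 := by
    rw [add_comm, Finset.sum_sdiff (Finset.subset_univ A), hs']
  -- full mass means `A` is everything
  have hfull : ∑ a ∈ I, a = D → A = Finset.univ := by
    intro h
    rw [hsumA, h, div_self hD'.ne'] at hAc
    have h4 : ∑ i ∈ Finset.univ \ A, (s i : ℝ) = 0 := by linarith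
    by_contra hne'
    have h5 : (Finset.univ \ A).Nonempty := by
      rw [Finset.sdiff_nonempty]
      intro h6
      exact hne' (Finset.eq_univ_of_forall fun i => h6 (Finset.mem_univ i))
    have h6 := Finset.sum_pos (fun i (_ : i ∈ Finset.univ \ A) => h0' i) h5
    linarith
  have hcard : 3 ≤ I.card := card_ge_three hD2 hsys hne (fun h => by
    rw [← hcardA, hfull h, Finset.card_univ]
    exact h3)
  obtain ⟨k, hk3, hDk, hIk⟩ := hT D I hsys hcard
  have hDcast : (D:ℝ) = 2 ^ k - 1 := by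
    rw [hDk, Nat.cast_sub Nat.one_le_two_pow]
    push_cast
    rfl
  have hDk' : D + 1 = 2 ^ k := by
    have : 0 < 2 ^ k := by positivity
    omega
  rcases hIk with hI' | hI'
  · -- the Fraenkel case
    have hsum : ∑ a ∈ I, a = D := by rw [hI', sum_pow_two, hDk]
    have hAu := hfull hsum
    have hcardk : Fintype.card ι = k := by
      rw [← Finset.card_univ, ← hAu, hcardA, hI',
        Finset.card_image_of_injective _ (Nat.pow_right_injective le_rfl), Finset.card_range]
    rw [hcardk]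
    have hqD : ∀ i, q i = D := fun i => by
      have : i ∈ A := by rw [hAu]; exact Finset.mem_univ _
      rw [hA, Finset.mem_filter] at this
      exact this.2
    refine ⟨fun i j h => hinj' i j (hqD i) h, ?_⟩
    have hmem : ∀ x : ℝ, (∃ i, (s i : ℝ) = x) ↔ ∃ i : ℕ, i < k ∧ x = 2 ^ i / (2 ^ k - 1) := by
      intro x
      rw [← hDcast]
      constructor
      · rintro ⟨i, rfl⟩
        have h7 : P i ∈ I := by
          rw [hI]
          exact Finset.mem_image_of_mem _ (by rw [hAu]; exact Finset.mem_univ _)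
        rw [hI', Finset.mem_image] at h7
        obtain ⟨l, hl, hlP⟩ := h7
        rw [Finset.mem_range] at hl
        refine ⟨l, hl, ?_⟩
        rw [hr i, hqD i, ← hlP]
        push_cast
        rfl
      · rintro ⟨l, hl, rfl⟩
        have h7 : 2 ^ l ∈ I := by
          rw [hI']
          exact Finset.mem_image_of_mem _ (Finset.mem_range.2 hl)
        rw [hI, Finset.mem_image] at h7
        obtain ⟨i, _, hiP⟩ := h7
        refine ⟨i, ?_⟩
        rw [hr i, hqD i, hiP]
        push_cast
        rfl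
    ext x
    have h8 := hmem x
    constructor
    · rintro ⟨i, rfl⟩
      obtain ⟨l, hl, hx⟩ := h8.1 ⟨i, rfl⟩
      exact ⟨l, hl, by exact_mod_cast hx⟩
    · rintro ⟨l, hl, rfl⟩
      obtain ⟨i, hi⟩ := h8.2 ⟨l, hl, by push_cast; rfl⟩
      exact ⟨i, by exact_mod_cast hi⟩
  · -- the variant
    exfalso
    refine variant_false (θ := θ) P q hq0 hcop hmax' hk3 hDk' hPinj hI' ?_
    obtain ⟨c, hc⟩ := hconst
    refine ⟨c, fun j => ?_⟩
    rw [← hc j]
    refine Finset.sum_congr rfl fun k _ => ?_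
    rw [hr k]

/-- **All admissible tuples.** An admissible tuple of length at least three is Fraenkel's, or
repeats an irrational rate, or has only rational rates and, for every denominator `D` of a rate
which is maximal for divisibility among the denominators, has two equal rates with denominator
`D`. -/
theorem repeated_div_of (hT : CosecThm) {n : ℕ} (hn : 3 ≤ n) {r : Fin n → ℝ}
    (h0 : ∀ i, 0 < r i ∧ r i < 1) (hs : ∑ i, r i = 1) (hadm : Admissible r) :
    (Function.Injective r ∧ Set.range r = {x : ℝ | ∃ i : ℕ, i < n ∧ x = 2 ^ i / (2 ^ n - 1)}) ∨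
    (∃ i j, i ≠ j ∧ r i = r j ∧ Irrational (r i)) ∨
    (∃ s : Fin n → ℚ, (∀ i, (s i : ℝ) = r i) ∧
      ∀ k, (∀ l, (s k).den ∣ (s l).den → (s l).den = (s k).den) →
        ∃ i j, i ≠ j ∧ s i = s j ∧ (s i).den = (s k).den) := by
  obtain ⟨θ, -, hc⟩ := hadm
  have hcard : 3 ≤ Fintype.card (Fin n) := by rw [Fintype.card_fin]; exact hn
  by_cases hirr : ∃ i, Irrational (r i)
  · obtain ⟨i, hi⟩ := hirr
    obtain ⟨j, k, hjk, h1, h2⟩ := irrational_repeated (fun i => (h0 i).1) (fun i => (h0 i).2) hs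
      hcard hc hi
    exact Or.inr (Or.inl ⟨j, k, hjk, h1, h2⟩)
  · push Not at hirr
    have hrat : ∀ i, ∃ s : ℚ, (s : ℝ) = r i := by
      intro i
      have := hirr i
      rw [Irrational, not_not] at this
      exact this
    choose s hsr using hrat
    by_cases hrep : ∀ k, (∀ l, (s k).den ∣ (s l).den → (s l).den = (s k).den) →
        ∃ i j, i ≠ j ∧ s i = s j ∧ (s i).den = (s k).den
    · exact Or.inr (Or.inr ⟨s, hsr, hrep⟩)
    · left
      push Not at hrep
      obtain ⟨k, hk1, hk2⟩ := hrep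
      have hrs : (fun i => (s i : ℝ)) = r := funext fun i => hsr i
      have g0 : ∀ i, 0 < s i := fun i => by
        have := (h0 i).1
        rw [← hsr i] at this
        exact_mod_cast this
      have g1 : ∀ i, s i < 1 := fun i => by
        have := (h0 i).2
        rw [← hsr i] at this
        exact_mod_cast this
      have gs : ∑ i, s i = 1 := by
        have h5 : ∑ i, (s i : ℝ) = 1 := by rw [← hs]; exact Finset.sum_congr rfl fun i _ => hsr i
        exact_mod_cast h5
      obtain ⟨hinj, hrange⟩ := strong_div_of (s := s) (θ := θ) hT g0 g1 gs hcard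
        (by rw [hrs]; exact hc) hk1 (fun i j hi hij => by
          by_contra hne
          exact hk2 i j hne hij hi)
      rw [Fintype.card_fin] at hrange
      refine ⟨fun i j hij => hinj (by
        have : (s i : ℝ) = s j := by rw [hsr, hsr, hij]
        exact_mod_cast this), ?_⟩
      ext x
      constructor
      · rintro ⟨i, rfl⟩
        have h5 : s i ∈ Set.range s := ⟨i, rfl⟩
        rw [hrange] at h5
        obtain ⟨l, hl, hx⟩ := h5
        exact ⟨l, hl, by rw [← hsr i, hx]; push_cast; rfl⟩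
      · rintro ⟨l, hl, rfl⟩
        have h5 : (2 ^ l / (2 ^ n - 1) : ℚ) ∈ Set.range s := by
          rw [hrange]; exact ⟨l, hl, rfl⟩
        obtain ⟨i, hi⟩ := h5
        exact ⟨i, by rw [← hsr i, hi]; push_cast; rfl⟩

end Pool.Agent.Helper7.FR
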