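import Pool.Agent.Helper7.FR.Final

/-!
# The divisibility maximal version: exact Fourier coefficients
-/

open Finset Complex

namespace Pool.Agent.Helper7.FR

/-- The exact value of the Fourier coefficient. -/
theorem per_fract_exact {P q L : ℕ} (hq : 0 < q) (hP : Nat.Coprime P q) (hL : q ∣ L) (θ : ℝ)
    {a x : ℤ} (hx : (q:ℤ) ∣ P * x - a) (ha : ¬ (q:ℤ) ∣ a) :
    (ee ((x:ℝ) / q) - 1) *
      per L (fun j => ((Int.fract ((j:ℝ) * ((P:ℝ) / q) + θ) : ℝ) : ℂ) * ee (-((a:ℝ) / q * j))) =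
      -(ee ((x:ℝ) / q * ((1 + ⌊(q:ℝ) * θ⌋ : ℤ) : ℝ)) * ((L / q : ℝ) : ℂ)) := by
  have hq' : (0:ℝ) < q := by exact_mod_cast hq
  have hqz : (0:ℤ) < q := by exact_mod_cast hq
  -- the inverse of `P`
  obtain ⟨s, hs⟩ : ∃ s : ℕ, (q:ℤ) ∣ P * s - 1 := by
    have h1 : IsCoprime (P:ℤ) (q:ℤ) := Nat.isCoprime_iff_coprime.2 hP
    obtain ⟨u, v, huv⟩ := h1
    refine ⟨(u % (q:ℤ)).toNat, ?_⟩
    have h2 : ((u % (q:ℤ)).toNat : ℤ) = u % (q:ℤ) := Int.toNat_of_nonneg (Int.emod_nonneg _ hqz.ne')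
    rw [h2]
    have h3 : u = q * (u / q) + u % q := (Int.mul_ediv_add_emod _ _).symm
    refine ⟨-v - P * (u / q), ?_⟩
    have h4 : (P:ℤ) * (u % q) = P * u - P * (q * (u / q)) := by
      rw [← mul_sub]; congr 1; linarith
    rw [h4]
    linear_combination huv
  set f : ℤ → ℝ := fun j => Int.fract ((j:ℝ) * ((P:ℝ) / q) + θ) with hf
  set α : ℝ := (a:ℝ) / q with hα
  set G : ℤ → ℂ := fun j => ((f j : ℝ) : ℂ) * ee (-(α * j)) with hG
  have hα1 : ¬ ∃ m : ℤ, α = m := by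
    rintro ⟨m, hm⟩
    apply ha
    refine ⟨m, ?_⟩
    have : (a:ℝ) = q * m := by rw [← hm, hα]; field_simp
    exact_mod_cast this
  have hαL : ∃ m : ℤ, α * L = m := by
    obtain ⟨k, rfl⟩ := hL
    refine ⟨a * k, ?_⟩
    rw [hα]; push_cast; field_simp
  have hchar := per_char hαL hα1
  have hGper : ∀ j, G (j + L) = G j := by
    intro j
    have h1 : f (j + L) = f j := fract_periodic hq hL θ j
    obtain ⟨m, hm⟩ := hαL
    have h2 : ee (-(α * ((j + L : ℤ) : ℝ))) = ee (-(α * (j:ℝ))) := by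
      have : -(α * ((j + L : ℤ) : ℝ)) = -(α * (j:ℝ)) + ((-m : ℤ) : ℝ) := by
        push_cast; rw [← hm]; ring
      rw [this, ee_add_int]
    show ((f (j + L) : ℝ) : ℂ) * ee (-(α * ((j + L : ℤ) : ℝ))) = _
    rw [h1, h2]
  have hsh := per_shift hGper s
  have e1 : ee (α * s) * per L (fun j => G (j + s)) =
      per L (fun j => ((f (j + s) : ℝ) : ℂ) * ee (-(α * j))) := by
    rw [← per_mul_left]
    congr 1
    funext j
    show ee (α * s) * (((f (j + s) : ℝ) : ℂ) * ee (-(α * ((j + s : ℤ) : ℝ)))) = _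
    have : ee (-(α * (j:ℝ))) = ee (α * s) * ee (-(α * ((j + s : ℤ) : ℝ))) := by
      rw [← ee_add]; congr 1; push_cast; ring
    rw [this]
    ring
  -- the difference
  set χ : ℤ → ℝ := fun j => if (q:ℤ) ∣ j * P + ⌊(q:ℝ) * θ⌋ + 1 then 1 else 0 with hχ
  have e2 : (ee (α * s) - 1) * per L G = - per L (fun j => ((χ j : ℝ) : ℂ) * ee (-(α * j))) := by
    have h1 : (ee (α * s) - 1) * per L G =
        per L (fun j => ((f (j + s) : ℝ) : ℂ) * ee (-(α * j)) - ((f j : ℝ) : ℂ) * ee (-(α * j))) := by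
      rw [per_sub, ← e1, hsh, sub_mul, one_mul]
    have h2 : (fun j : ℤ => ((f (j + s) : ℝ) : ℂ) * ee (-(α * j)) - ((f j : ℝ) : ℂ) * ee (-(α * j)))
        = fun j : ℤ => (1 / (q:ℂ)) * ee (-(α * j)) - ((χ j : ℝ) : ℂ) * ee (-(α * j)) := by
      funext j
      rw [← sub_mul, ← sub_mul, ← Complex.ofReal_sub]
      have h3 : f (j + s) - f j = 1 / q - χ j := fract_shift hq hs θ j
      rw [h3]
      push_cast
      ring
    rw [h1, h2, per_sub, per_mul_left, hchar, mul_zero, zero_sub]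
  -- the point mass
  set j0 : ℤ := - s * (1 + ⌊(q:ℝ) * θ⌋) with hj0
  have e3 : (fun j : ℤ => ((χ j : ℝ) : ℂ) * ee (-(α * j))) =
      fun j : ℤ => ee (-(α * j0)) * ((χ j : ℝ) : ℂ) := by
    funext j
    simp only [hχ]
    split_ifs with hd
    · have h1 : (q:ℤ) ∣ j - j0 := by
        have h2 : j - j0 = s * (j * P + ⌊(q:ℝ) * θ⌋ + 1) - j * (P * s - 1) := by
          rw [hj0]; ring
        rw [h2]
        exact dvd_sub (hd.mul_left _) (hs.mul_left _)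
      obtain ⟨t, ht⟩ := h1
      have h3 : -(α * (j:ℝ)) = -(α * (j0:ℝ)) + ((-(a * t) : ℤ) : ℝ) := by
        have h4 : (j:ℝ) = j0 + q * t := by exact_mod_cast (by linarith : j = j0 + q * t)
        rw [h4, hα]
        push_cast
        field_simp
        ring
      rw [h3, ee_add_int]
      ring
    · simp
  have e4 : per L (fun j => ((χ j : ℝ) : ℂ)) = ((L / q : ℝ) : ℂ) := by
    have h1 : per L (fun j => ((f (j + s) : ℝ) : ℂ) - ((f j : ℝ) : ℂ)) = 0 := by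
      rw [per_sub]
      have h2 : ∀ j, ((f (j + L) : ℝ) : ℂ) = ((f j : ℝ) : ℂ) := by
        intro j
        have : f (j + L) = f j := fract_periodic hq hL θ j
        rw [this]
      rw [per_shift (G := fun j => ((f j : ℝ) : ℂ)) h2 s, sub_self]
    have h3 : (fun j : ℤ => ((f (j + s) : ℝ) : ℂ) - ((f j : ℝ) : ℂ)) =
        fun j : ℤ => (1 / (q:ℂ)) - ((χ j : ℝ) : ℂ) := by
      funext j
      rw [← Complex.ofReal_sub]
      have h3 : f (j + s) - f j = 1 / q - χ j := fract_shift hq hs θ j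
      rw [h3]
      push_cast
      ring
    rw [h3, per_sub, sub_eq_zero] at h1
    rw [← h1]
    unfold per
    simp
    ring
  have e5 : (ee (α * s) - 1) * per L G = - (ee (-(α * j0)) * ((L / q : ℝ) : ℂ)) := by
    rw [e2, e3, per_mul_left, e4]
  have e7 : ∃ m : ℤ, α * s = (x:ℝ) / q + (m : ℝ) := by
    obtain ⟨t, ht⟩ := hx
    obtain ⟨t', ht'⟩ := hs
    have h1 : (a * s - x : ℤ) = q * (t' * x - t * s) := by
      linear_combination (-(s:ℤ)) * ht + x * ht'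
    refine ⟨t' * x - t * s, ?_⟩
    have h3 : (a:ℝ) * s - x = q * ((t' * x - t * s : ℤ) : ℝ) := by exact_mod_cast h1
    rw [hα]
    field_simp
    linarith
  obtain ⟨m, hm⟩ := e7
  have e8 : ee (α * s) = ee ((x:ℝ) / q) := by rw [hm, ee_add_int]
  have e9 : ee (-(α * j0)) = ee ((x:ℝ) / q * ((1 + ⌊(q:ℝ) * θ⌋ : ℤ) : ℝ)) := by
    have : -(α * (j0:ℝ)) = (x:ℝ) / q * ((1 + ⌊(q:ℝ) * θ⌋ : ℤ) : ℝ) +
        ((m * (1 + ⌊(q:ℝ) * θ⌋) : ℤ) : ℝ) := by
      have h4 : (j0:ℝ) = -(s:ℝ) * ((1 + ⌊(q:ℝ) * θ⌋ : ℤ) : ℝ) := by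
        rw [hj0]; push_cast; ring
      rw [h4]
      have h5 : -(α * (-(s:ℝ) * ((1 + ⌊(q:ℝ) * θ⌋ : ℤ) : ℝ))) =
          (α * s) * ((1 + ⌊(q:ℝ) * θ⌋ : ℤ) : ℝ) := by ring
      rw [h5, hm]
      push_cast
      ring
    rw [this, ee_add_int]
  rw [e8, e9] at e5
  exact e5

/-- rates whose denominator is not a multiple of `D` do not see the frequency `a / D`. -/
theorem per_fract_zero' {P q L D : ℕ} (hq : 0 < q) (hD : 0 < D) (hqD : ¬ D ∣ q) (hL : q ∣ L)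
    (hLD : D ∣ L) (θ : ℝ)
    {a : ℤ} (ha : IsCoprime a (D:ℤ)) :
    per L (fun j => ((Int.fract ((j:ℝ) * ((P:ℝ) / q) + θ) : ℝ) : ℂ) * ee (-((a:ℝ) / D * j))) = 0 := by
  have hD' : (D:ℝ) ≠ 0 := by exact_mod_cast hD.ne'
  set f : ℤ → ℝ := fun j => Int.fract ((j:ℝ) * ((P:ℝ) / q) + θ) with hf
  set α : ℝ := (a:ℝ) / D with hα
  set G : ℤ → ℂ := fun j => ((f j : ℝ) : ℂ) * ee (-(α * j)) with hG
  have hαL : ∃ m : ℤ, α * L = m := by
    obtain ⟨k, rfl⟩ := hLD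
    refine ⟨a * k, ?_⟩
    rw [hα]; push_cast; field_simp
  have hGper : ∀ j, G (j + L) = G j := by
    intro j
    have h1 : f (j + L) = f j := fract_periodic hq hL θ j
    obtain ⟨m, hm⟩ := hαL
    have h2 : ee (-(α * ((j + L : ℤ) : ℝ))) = ee (-(α * (j:ℝ))) := by
      have : -(α * ((j + L : ℤ) : ℝ)) = -(α * (j:ℝ)) + ((-m : ℤ) : ℝ) := by
        push_cast; rw [← hm]; ring
      rw [this, ee_add_int]
    show ((f (j + L) : ℝ) : ℂ) * ee (-(α * ((j + L : ℤ) : ℝ))) = _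
    rw [h1, h2]
  have hsh := per_shift hGper q
  have e1 : ee (α * q) * per L (fun j => G (j + q)) = per L G := by
    rw [← per_mul_left]
    congr 1
    funext j
    show ee (α * q) * (((f (j + q) : ℝ) : ℂ) * ee (-(α * ((j + q : ℤ) : ℝ)))) =
      ((f j : ℝ) : ℂ) * ee (-(α * j))
    have h1 : f (j + q) = f j := fract_periodic hq dvd_rfl θ j
    have : ee (-(α * (j:ℝ))) = ee (α * q) * ee (-(α * ((j + q : ℤ) : ℝ))) := by
      rw [← ee_add]; congr 1; push_cast; ring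
    rw [this, h1]
    ring
  rw [hsh] at e1
  have h3 : ee (α * q) ≠ 1 := by
    intro h4
    obtain ⟨k, hk⟩ := (ee_eq_one_iff _).1 h4
    have h5 : (a:ℝ) * q = D * k := by
      rw [← hk, hα]; field_simp
    have h6 : a * q = D * k := by exact_mod_cast h5
    have h7 : (D:ℤ) ∣ (q:ℤ) := by
      have : (D:ℤ) ∣ a * q := ⟨k, h6⟩
      exact ha.symm.dvd_of_dvd_mul_left this
    exact hqD (by exact_mod_cast h7)
  have h5 : (ee (α * q) - 1) * per L G = 0 := by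
    rw [sub_mul, one_mul, e1, sub_self]
  rcases mul_eq_zero.1 h5 with h6 | h6
  · exact absurd (sub_eq_zero.1 h6) h3
  · exact h6

end Pool.Agent.Helper7.FR
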